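import Mathlib
import Pool.Agent.LGO.AX.Defs

/-!
# LGO/AXG: charts of a curve with `d` functions and independence of the lifts (definitions)

The folder `LGO/AX` with `Fin 3` replaced by `Fin d` (project ZPR on MP_d83ecd_ag).  `Cur d`: model of an irreducible
curve with `d` functions.  `Cur.res`, `Br.res`: restriction to some of the functions; `Cur.ax`, `Br.ax`, `Atl.ax`: three
times the same function (`LGO/AX` structures), so that the theorems of `LGO/AX` can be used.
-/

namespace Pool.Agent.LGO.AXG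

open Polynomial Pool.Agent.LGO Pool.Agent.LGO.AX
open scoped MatrixGroups

/-- the model of a curve with `d` functions -/
structure Cur (d : ℕ) where
  F : ℂ[X][X]
  N : Fin d → ℂ[X][X]
  M : ℂ[X]
  D : ℂ[X]
  irr : Irreducible F
  deg : 0 < F.natDegree
  D_ne : D ≠ 0
  lead : ∀ T, D.eval T ≠ 0 → F.leadingCoeff.eval T ≠ 0
  sep : ∀ T, D.eval T ≠ 0 → (F.map (evalRingHom T)).Separable
  M_ne : ∀ T, D.eval T ≠ 0 → M.eval T ≠ 0

variable {d : ℕ}

/-- the points of the curve -/
def Cur.pt (S : Cur d) : Set (ℂ × ℂ) := {p | S.D.eval p.1 ≠ 0 ∧ S.F.evalEval p.1 p.2 = 0}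

/-- the functions -/
noncomputable def Cur.x (S : Cur d) (a : Fin d) (p : ℂ × ℂ) : ℂ :=
  (S.N a).evalEval p.1 p.2 / S.M.eval p.1

/-- some of the functions -/
def Cur.res (S : Cur d) {k : ℕ} (i : Fin k → Fin d) : Cur k where
  F := S.F
  N := fun a => S.N (i a)
  M := S.M
  D := S.D
  irr := S.irr
  deg := S.deg
  D_ne := S.D_ne
  lead := S.lead
  sep := S.sep
  M_ne := S.M_ne

/-- the curve with three times the function `a` (in the structure of `LGO/AX`) -/
def Cur.ax (S : Cur d) (a : Fin d) : AX.Cur where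
  F := S.F
  N := fun _ => S.N a
  M := S.M
  D := S.D
  irr := S.irr
  deg := S.deg
  D_ne := S.D_ne
  lead := S.lead
  sep := S.sep
  M_ne := S.M_ne

theorem Cur.ax_pt (S : Cur d) (a : Fin d) : (S.ax a).pt = S.pt := rfl

theorem Cur.ax_x (S : Cur d) (a : Fin d) (b : Fin 3) (p : ℂ × ℂ) : (S.ax a).x b p = S.x a p := rfl

theorem Cur.res_pt (S : Cur d) {k : ℕ} (i : Fin k → Fin d) : (S.res i).pt = S.pt := rfl

theorem Cur.res_x (S : Cur d) {k : ℕ} (i : Fin k → Fin d) (a : Fin k) (p : ℂ × ℂ) :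
    (S.res i).x a p = S.x (i a) p := rfl

/-- the functions are not constant -/
def Cur.NCo (S : Cur d) : Prop := ∀ a c, ∃ p ∈ S.pt, S.x a p ≠ c

/-- a branch over a point of the projective line -/
structure Br (S : Cur d) where
  o : Option ℂ
  m : ℕ
  r : ℝ
  Y : ℂ → ℂ
  e : Fin d → ℕ
  ψ : Fin d → ℂ → ℂ
  m_pos : 0 < m
  r_pos : 0 < r
  dY : DifferentiableOn ℂ Y {t | 0 < ‖t‖ ∧ ‖t‖ < r}
  mem : ∀ t, 0 < ‖t‖ → ‖t‖ < r → (Tp o (t ^ m), Y t) ∈ S.pt
  dψ : ∀ a, DifferentiableOn ℂ (ψ a) (Metric.ball 0 r)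
  im_pos : ∀ a w, Real.exp w.re < r → 0 < (zz (e a) (ψ a) w).im
  jz : ∀ a w, Real.exp w.re < r →
    jF (zz (e a) (ψ a) w) = S.x a (Tp o (Complex.exp w ^ m), Y (Complex.exp w))
  cen : ∀ a, e a = 0 → 0 < (ψ a 0).im

variable {S : Cur d}

/-- the half plane of a branch -/
def Br.U (β : Br S) : Set ℂ := {w | Real.exp w.re < β.r}

/-- the point of the curve -/
noncomputable def Br.pt (β : Br S) (w : ℂ) : ℂ × ℂ :=
  (Tp β.o (Complex.exp w ^ β.m), β.Y (Complex.exp w))

/-- the lifts -/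
noncomputable def Br.z (β : Br S) (a : Fin d) (w : ℂ) : ℂ := zz (β.e a) (β.ψ a) w

/-- the same branch for some of the functions -/
def Br.res (β : Br S) {k : ℕ} (i : Fin k → Fin d) : Br (S.res i) where
  o := β.o
  m := β.m
  r := β.r
  Y := β.Y
  e := fun a => β.e (i a)
  ψ := fun a => β.ψ (i a)
  m_pos := β.m_pos
  r_pos := β.r_pos
  dY := β.dY
  mem := β.mem
  dψ := fun a => β.dψ (i a)
  im_pos := fun a => β.im_pos (i a)
  jz := fun a => β.jz (i a)
  cen := fun a => β.cen (i a)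

/-- the same branch with three times the function `a` -/
def Br.ax (β : Br S) (a : Fin d) : AX.Br (S.ax a) where
  o := β.o
  m := β.m
  r := β.r
  Y := β.Y
  e := fun _ => β.e a
  ψ := fun _ => β.ψ a
  m_pos := β.m_pos
  r_pos := β.r_pos
  dY := β.dY
  mem := β.mem
  dψ := fun _ => β.dψ a
  im_pos := fun _ => β.im_pos a
  jz := fun _ => β.jz a
  cen := fun _ => β.cen a

theorem Br.ax_U (β : Br S) (a : Fin d) : (β.ax a).U = β.U := rfl

theorem Br.ax_pt (β : Br S) (a : Fin d) (w : ℂ) : (β.ax a).pt w = β.pt w := rfl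

theorem Br.ax_z (β : Br S) (a : Fin d) (b : Fin 3) (w : ℂ) : (β.ax a).z b w = β.z a w := rfl

theorem Br.res_U (β : Br S) {k : ℕ} (i : Fin k → Fin d) : (β.res i).U = β.U := rfl

theorem Br.res_pt (β : Br S) {k : ℕ} (i : Fin k → Fin d) (w : ℂ) : (β.res i).pt w = β.pt w := rfl

theorem Br.res_z (β : Br S) {k : ℕ} (i : Fin k → Fin d) (a : Fin k) (w : ℂ) :
    (β.res i).z a w = β.z (i a) w := rfl

/-- a finite atlas: all points of the curve outside finitely many fibres -/
structure Atl (S : Cur d) where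
  n : ℕ
  br : Fin n → Br S
  cen : Finset ℂ
  cover : ∀ p ∈ S.pt, p.1 ∉ cen → ∃ i w, Real.exp w.re ≤ (br i).r * Real.exp (-5) ∧
    |w.im| ≤ Real.pi ∧ (br i).pt w = p

/-- the same atlas for some of the functions -/
def Atl.res (A : Atl S) {k : ℕ} (i : Fin k → Fin d) : Atl (S.res i) where
  n := A.n
  br := fun j => (A.br j).res i
  cen := A.cen
  cover := A.cover

/-- the same atlas with three times the function `a` -/
def Atl.ax (A : Atl S) (a : Fin d) : AX.Atl (S.ax a) where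
  n := A.n
  br := fun j => (A.br j).ax a
  cen := A.cen
  cover := by
    intro p hp hpc
    obtain ⟨i, w, h1, h2, h3⟩ := A.cover p hp hpc
    refine ⟨i, w, h1.trans (mul_le_mul_of_nonneg_left ?_ (A.br i).r_pos.le), h2, h3⟩
    exact Real.exp_le_exp.2 (by norm_num)

/-- at most one coordinate is infinite at the centre of a branch -/
def Solo (S : Cur d) : Prop := ∀ (β : Br S) (a b : Fin d), 0 < β.e a → 0 < β.e b → a = b

/-- the lifts on the branch are algebraically independent over `ℂ` -/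
def Ind (β : Br S) : Prop :=
  ∀ G : MvPolynomial (Fin d) ℂ, G ≠ 0 → ∃ w ∈ β.U, MvPolynomial.eval (fun a => β.z a w) G ≠ 0

end Pool.Agent.LGO.AXG
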