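import Mathlib
import Pool.Agent.LGO.AX.ChM
import Pool.Agent.LGO.AX.ChG
import Pool.Agent.LGO.AX.ChL
import Pool.Agent.LGO.AXG.Defs

/-!
# LGO/AXG: the branches over a point of the projective line, for `d` functions (as `LGO/AX/ChB.lean`)
-/

namespace Pool.Agent.LGO.AXG

open Polynomial Metric Pool.Agent.LGO Pool.Agent.LGO.AX

variable {d : ℕ}

/-- the plane curve -/
noncomputable def Cur.pl (S : Cur d) : AX.Cur where
  F := S.F
  N := fun _ => 0
  M := S.M
  D := S.D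
  irr := S.irr
  deg := S.deg
  D_ne := S.D_ne
  lead := S.lead
  sep := S.sep
  M_ne := S.M_ne

private theorem ChB_ee (P : ℂ[X][X]) (x y : ℂ) :
    P.evalEval x y = ∑ i ∈ Finset.range (P.natDegree + 1), (P.coeff i).eval x * y ^ i := by
  rw [evalEval, eval_eq_sum_range (p := P), eval_finsetSum]
  simp

private theorem ChB_diff (P : ℂ[X][X]) {T Y : ℂ → ℂ} {t : ℂ} (hT : DifferentiableAt ℂ T t)
    (hY : DifferentiableAt ℂ Y t) : DifferentiableAt ℂ (fun t => P.evalEval (T t) (Y t)) t := by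
  simp only [ChB_ee]
  refine DifferentiableAt.fun_sum fun i _ => ?_
  exact ((P.coeff i).differentiable.differentiableAt.comp t hT).mul (hY.pow i)

private theorem ChB_ev {α : Type*} [Finite α] (f : α → ℝ) (hf : ∀ k, 0 < f k) :
    ∃ ρ : ℝ, 0 < ρ ∧ ∀ k, ρ < f k := by
  have h1 : ∀ᶠ ρ in nhdsWithin (0 : ℝ) (Set.Ioi 0), ∀ k, ρ < f k :=
    Filter.eventually_all.2 fun k => (eventually_lt_nhds (hf k)).filter_mono nhdsWithin_le_nhds
  obtain ⟨ρ, h2, h3⟩ := (h1.and self_mem_nhdsWithin).exists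
  exact ⟨ρ, h3, h2⟩

private theorem ChB_open (r : ℝ) : IsOpen {t : ℂ | 0 < ‖t‖ ∧ ‖t‖ < r} :=
  (isOpen_lt continuous_const continuous_norm).inter (isOpen_lt continuous_norm continuous_const)

theorem exists_br (S : Cur d) (o : Option ℂ) : ∃ (ρ : ℝ) (n : ℕ) (br : Fin n → Br S), 0 < ρ ∧
    ∀ s y : ℂ, 0 < ‖s‖ → ‖s‖ < ρ → (Tp o s, y) ∈ S.pt → ∃ i w,
      Real.exp w.re ≤ (br i).r * Real.exp (-5) ∧ |w.im| ≤ Real.pi ∧ (br i).pt w = (Tp o s, y) := by
  classical
  obtain ⟨m, r, Y, hm, hr, hsec⟩ := exists_Y S.pl o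
  have hmem : ∀ t : ℂ, 0 < ‖t‖ → ‖t‖ < r → ∀ y, (Tp o (t ^ m), y) ∈ S.pt ↔ ∃ k, y = Y k t :=
    fun t h0 h1 => (hsec.mem t ⟨h0, h1⟩).2
  have hDm : ∀ t : ℂ, 0 < ‖t‖ → ‖t‖ < r → S.D.eval (Tp o (t ^ m)) ≠ 0 :=
    fun t h0 h1 => (hsec.mem t ⟨h0, h1⟩).1
  choose C K ρg hρg hgrow using fun a => growth (S.ax a) o 0
  obtain ⟨ρ1, hρ1, hρ1a⟩ := ChB_ev ρg hρg
  -- the radius of the punctured disc
  set r1 : ℝ := min r (min 1 ρ1) with hr1d
  have hr1 : 0 < r1 := lt_min hr (lt_min one_pos hρ1)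
  have hr1r : r1 ≤ r := min_le_left _ _
  have hr11 : r1 ≤ 1 := (min_le_right _ _).trans (min_le_left _ _)
  have hr1ρ : r1 ≤ ρ1 := (min_le_right _ _).trans (min_le_right _ _)
  have hXd : ∀ k a, DifferentiableOn ℂ (fun t => S.x a (Tp o (t ^ m), Y k t))
      {t | 0 < ‖t‖ ∧ ‖t‖ < r1} := by
    rintro k a t ⟨ht0, ht1⟩
    have ht : t ≠ 0 := norm_pos_iff.1 ht0
    have hTd : DifferentiableAt ℂ (fun t => Tp o (t ^ m)) t :=
      DifferentiableAt.comp t (ChM_dTp o (pow_ne_zero m ht)) (differentiableAt_pow m)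
    have hYd : DifferentiableAt ℂ (Y k) t :=
      (hsec.an k).differentiableAt ((ChB_open r).mem_nhds ⟨ht0, ht1.trans_le hr1r⟩)
    have hne : S.M.eval (Tp o (t ^ m)) ≠ 0 :=
      S.M_ne _ (hDm t ht0 (ht1.trans_le hr1r))
    refine DifferentiableAt.differentiableWithinAt ?_
    show DifferentiableAt ℂ (fun t => (S.N a).evalEval (Tp o (t ^ m)) (Y k t) /
      S.M.eval (Tp o (t ^ m))) t
    refine (ChB_diff (S.N a) hTd hYd).fun_div ?_ hne
    exact (S.M.differentiable.differentiableAt).comp t hTd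
  have hXg : ∀ k a, ∃ (C : ℝ) (n : ℕ), ∀ t : ℂ, 0 < ‖t‖ → ‖t‖ < r1 →
      ‖S.x a (Tp o (t ^ m), Y k t)‖ * ‖t‖ ^ n ≤ C := by
    intro k a
    refine ⟨C a, m * K a, fun t ht0 ht1 => ?_⟩
    have h1 := hgrow a (t ^ m) (Y k t) (by rw [norm_pow]; positivity) ?_
      ((hmem t ht0 (ht1.trans_le hr1r) _).2 ⟨k, rfl⟩)
    · rw [pow_mul, ← norm_pow t m]
      exact h1
    · rw [norm_pow]
      calc ‖t‖ ^ m ≤ ‖t‖ ^ 1 := pow_le_pow_of_le_one ht0.le (ht1.le.trans hr11) hm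
        _ = ‖t‖ := pow_one _
        _ < ρg a := (ht1.trans_le hr1ρ).trans (hρ1a a)
  choose q hq hlift using fun k a => lift hr1 (hXd k a) (hXg k a)
  -- the common ramification
  set Q : Fin S.F.natDegree → ℕ := fun k => ∏ a, q k a with hQd
  have hQ : ∀ k, 0 < Q k := fun k => Finset.prod_pos fun a _ => hq k a
  have hQn : ∀ k a, q k a * ∏ b ∈ Finset.univ.erase a, q k b = Q k := fun k a =>
    Finset.mul_prod_erase _ _ (Finset.mem_univ a)
  have hn : ∀ k a, 0 < ∏ b ∈ Finset.univ.erase a, q k b := fun k a =>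
    Finset.prod_pos fun b _ => hq k b
  choose e r' ψ hr' hr'q hψ hcen hz using fun k a => hlift k a _ (hn k a)
  simp only [hQn] at hr'q hz
  have hR := fun k => ChB_ev (fun a : Option (Fin d) => a.elim r1 (r' k))
    (fun a => by cases a with
      | none => exact hr1
      | some a => exact hr' k a)
  choose R hR0 hRa using hR
  have hR1 : ∀ k, R k < r1 := fun k => hRa k none
  have hR2 : ∀ k a, R k < r' k a := fun k a => hRa k (some a)
  have hRQ : ∀ k (t : ℂ), 0 < ‖t‖ → ‖t‖ < R k → 0 < ‖t ^ Q k‖ ∧ ‖t ^ Q k‖ < r := by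
    intro k t ht0 ht1
    rw [norm_pow]
    refine ⟨by positivity, lt_of_lt_of_le ?_ hr1r⟩
    calc ‖t‖ ^ Q k ≤ ‖t‖ ^ 1 := pow_le_pow_of_le_one ht0.le ((ht1.trans (hR1 k)).le.trans hr11) (hQ k)
      _ = ‖t‖ := pow_one _
      _ < r1 := ht1.trans (hR1 k)
  let br : Fin S.F.natDegree → Br S := fun k =>
    { o := o
      m := m * Q k
      r := R k
      Y := fun t => Y k (t ^ Q k)
      e := e k
      ψ := ψ k
      m_pos := Nat.mul_pos hm (hQ k)
      r_pos := hR0 k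
      dY := (hsec.an k).comp (by fun_prop) fun t ht => hRQ k t ht.1 ht.2
      mem := by
        intro t ht0 ht1
        have h1 := (hmem _ (hRQ k t ht0 ht1).1 (hRQ k t ht0 ht1).2 (Y k (t ^ Q k))).2 ⟨k, rfl⟩
        rw [mul_comm m, pow_mul]
        exact h1
      dψ := fun a => (hψ k a).mono (ball_subset_ball (hR2 k a).le)
      im_pos := fun a w hw => (hz k a w (hw.trans (hR2 k a))).1
      jz := by
        intro a w hw
        rw [(hz k a w (hw.trans (hR2 k a))).2, mul_comm m, pow_mul]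
      cen := fun a h => hcen k a h }
  obtain ⟨ρ2, hρ2, hρ2k⟩ := ChB_ev (fun k => (R k * Real.exp (-5)) ^ (m * Q k))
    (fun k => pow_pos (mul_pos (hR0 k) (Real.exp_pos _)) _)
  refine ⟨min (r ^ m) ρ2, S.F.natDegree, br, lt_min (pow_pos hr m) hρ2, ?_⟩
  intro s y hs0 hs1 hmem'
  obtain ⟨t₀, ht₀⟩ := IsAlgClosed.exists_pow_nat_eq s hm
  have ht₀0 : 0 < ‖t₀‖ := by
    rw [norm_pos_iff]
    rintro rfl
    rw [zero_pow hm.ne'] at ht₀
    rw [← ht₀, norm_zero] at hs0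
    exact lt_irrefl _ hs0
  have ht₀r : ‖t₀‖ < r := by
    have h1 : ‖t₀‖ ^ m < r ^ m := by
      rw [← norm_pow, ht₀]
      exact hs1.trans_le (min_le_left _ _)
    exact lt_of_pow_lt_pow_left₀ m hr.le h1
  obtain ⟨k, hk⟩ := (hmem t₀ ht₀0 ht₀r y).1 (by rw [ht₀]; exact hmem')
  obtain ⟨t, ht⟩ := IsAlgClosed.exists_pow_nat_eq t₀ (hQ k)
  have ht0 : t ≠ 0 := by
    rintro rfl
    rw [zero_pow (hQ k).ne'] at ht
    rw [← ht, norm_zero] at ht₀0
    exact lt_irrefl _ ht₀0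
  have htm : t ^ (m * Q k) = s := by
    rw [mul_comm m, pow_mul, ht, ht₀]
  refine ⟨k, Complex.log t, ?_, by rw [Complex.log_im]; exact Complex.abs_arg_le_pi t, ?_⟩
  · rw [← Complex.norm_exp, Complex.exp_log ht0]
    show ‖t‖ ≤ R k * Real.exp (-5)
    have h1 : ‖t‖ ^ (m * Q k) < (R k * Real.exp (-5)) ^ (m * Q k) := by
      rw [← norm_pow, htm]
      exact (hs1.trans_le (min_le_right _ _)).trans (hρ2k k)
    exact (lt_of_pow_lt_pow_left₀ _ (mul_pos (hR0 k) (Real.exp_pos _)).le h1).le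
  · show (Tp o (Complex.exp (Complex.log t) ^ (m * Q k)), Y k (Complex.exp (Complex.log t) ^ Q k)) =
      (Tp o s, y)
    rw [Complex.exp_log ht0, htm, ht, hk]

/-- a finite atlas (as `LGO/AX/ChC.lean`) -/
theorem exists_atl (S : Cur d) : Nonempty (Atl S) := by
  classical
  choose ρ n br hρ hbr using fun o => exists_br S o
  have hρ0 : 0 < ρ none := hρ none
  obtain ⟨t, -, ht⟩ := (isCompact_closedBall (0 : ℂ) (2 / ρ none)).elim_nhds_subcover
    (fun c => ball c (ρ (some c))) (fun c _ => ball_mem_nhds c (hρ (some c)))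
  -- all centres, with the point at infinity
  set O : Finset (Option ℂ) := insert none (t.image some) with hO
  let I : Type := Σ o : {o // o ∈ O}, Fin (n o.1)
  let e : I ≃ Fin (Fintype.card I) := Fintype.equivFin I
  have key : ∀ o ∈ O, ∀ s y : ℂ, 0 < ‖s‖ → ‖s‖ < ρ o → (Tp o s, y) ∈ S.pt →
      ∃ (i : Fin (Fintype.card I)) (w : ℂ),
        Real.exp w.re ≤ (br (e.symm i).1.1 (e.symm i).2).r * Real.exp (-5) ∧ |w.im| ≤ Real.pi ∧
          (br (e.symm i).1.1 (e.symm i).2).pt w = (Tp o s, y) := by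
    intro o ho s y h0 h1 h2
    obtain ⟨i, w, h3, h4, h5⟩ := hbr o s y h0 h1 h2
    refine ⟨e ⟨⟨o, ho⟩, i⟩, w, ?_⟩
    rw [Equiv.symm_apply_apply]
    exact ⟨h3, h4, h5⟩
  refine ⟨{ n := Fintype.card I
            br := fun i => br (e.symm i).1.1 (e.symm i).2
            cen := t
            cover := ?_ }⟩
  rintro ⟨T, y⟩ hp hT
  change T ∉ t at hT
  by_cases hle : ‖T‖ ≤ 2 / ρ none
  · have h1 : T ∈ ⋃ c ∈ t, ball c (ρ (some c)) := ht (by
      rw [mem_closedBall_zero_iff]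
      exact hle)
    rw [Set.mem_iUnion₂] at h1
    obtain ⟨c, hc, h2⟩ := h1
    have hne : T - c ≠ 0 := by
      intro h3
      rw [sub_eq_zero] at h3
      exact hT (h3 ▸ hc)
    have hTp : Tp (some c) (T - c) = T := by
      change c + (T - c) = T
      ring
    have h4 := key (some c) (by rw [hO]; exact Finset.mem_insert_of_mem (Finset.mem_image_of_mem _ hc))
      (T - c) y (norm_pos_iff.2 hne) (by rw [mem_ball, dist_eq_norm] at h2; exact h2)
      (by rw [hTp]; exact hp)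
    rw [hTp] at h4
    exact h4
  · rw [not_le] at hle
    have hT0 : 0 < ‖T‖ := lt_trans (by positivity) hle
    have hTp : Tp none T⁻¹ = T := by
      change (T⁻¹)⁻¹ = T
      exact inv_inv T
    have h4 := key none (by rw [hO]; exact Finset.mem_insert_self _ _) T⁻¹ y
      (norm_pos_iff.2 (inv_ne_zero (norm_pos_iff.1 hT0))) (by
        rw [norm_inv, inv_lt_comm₀ hT0 hρ0]
        refine lt_of_le_of_lt ?_ hle
        rw [← one_div]
        exact div_le_div_of_nonneg_right (by norm_num) hρ0.le)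
      (by rw [hTp]; exact hp)
    rw [hTp] at h4
    exact h4

end Pool.Agent.LGO.AXG
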