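import Mathlib
import Pool.Agent.LGO.AXG.Conv
import Pool.Agent.LGO.PWG.Defs

/-!
# LGO/AXG: from a finite atlas of branches to `PWG.HasAtlas`, for arbitrary cusps
-/

namespace Pool.Agent.LGO.AXG

open Polynomial Pool.Agent.LGO Pool.Agent.LGO.AX Metric

variable {d : ℕ}

theorem convG {S : Cur d} (A : Atl S) (hind : ∀ β : Br S, Ind β) {W F : Set (Fin d → ℂ)}
    (hF : F.Finite) (hW : ∀ y ∈ W, y ∈ F ∨ ∃ p ∈ S.pt, p.1 ∉ A.cen ∧ y = fun a => S.x a p) :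
    PWG.HasAtlas W := by
  classical
  let P : Fin A.n → Prop := fun i => ∀ a, (A.br i).e a = 0
  have hP : ∀ i, ¬ P i → ∃ a, 0 < (A.br i).e a := by
    intro i hi
    by_contra hc
    push Not at hc
    exact hi (fun a => Nat.le_zero.1 (hc a))
  have h1 : ∀ i : {i // P i}, ∃ z : Fin d → ℂ → ℂ, PWG.Comp z ∧
      ∀ w, Real.exp w.re ≤ (A.br i).r * Real.exp (-5) →
        ∃ s ∈ closedBall (0 : ℂ) 1, PWG.Lift z s (fun a => S.x a ((A.br i).pt w)) := fun i =>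
    conv_comp (A.br i) i.2 (hind _)
  have h2 : ∀ i : {i // ¬ P i}, ∃ ψ : Fin d → ℂ → ℂ, PWG.Cusp (A.br i).e ψ ∧
      ∀ w, Real.exp w.re ≤ (A.br i).r * Real.exp (-5) → |w.im| ≤ Real.pi →
        ∃ w' ∈ PW.CD, PWG.Lift (PWG.cz (A.br i).e ψ) w' (fun a => S.x a ((A.br i).pt w)) := fun i =>
    conv_cusp (A.br i) (hP i i.2) (hind _)
  choose z hz hz' using h1
  choose ψ hψ hψ' using h2
  let e1 := Fintype.equivFin {i // P i}
  let e2 := Fintype.equivFin {i // ¬ P i}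
  refine ⟨F, Fintype.card {i // P i}, Fintype.card {i // ¬ P i}, fun k => z (e1.symm k),
    fun k => (A.br (e2.symm k)).e, fun k => ψ (e2.symm k), hF, fun k => hz _, fun k => hψ _, ?_⟩
  intro x hx
  rcases hW x hx with h | ⟨p, hp, hpc, hxp⟩
  · exact Or.inl h
  · obtain ⟨i, w, hw, hwi, hpt⟩ := A.cover p hp hpc
    right
    by_cases hPi : P i
    · left
      obtain ⟨s, hs, hs'⟩ := hz' ⟨i, hPi⟩ w hw
      refine ⟨e1 ⟨i, hPi⟩, s, hs, ?_⟩
      simp only [Equiv.symm_apply_apply]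
      rw [hxp, ← hpt]
      exact hs'
    · right
      obtain ⟨w', hw', hw''⟩ := hψ' ⟨i, hPi⟩ w hw hwi
      refine ⟨e2 ⟨i, hPi⟩, w', hw', ?_⟩
      simp only [Equiv.symm_apply_apply]
      rw [hxp, ← hpt]
      exact hw''

end Pool.Agent.LGO.AXG
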