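import Mathlib
import Pool.Agent.LGO.AX.Mz

/-!
# LGO/AXG: the numerator of a polynomial moved by Möbius transformations
-/

namespace Pool.Agent.LGO.AXG

open Pool.Agent.LGO Pool.Agent.LGO.AX
open scoped MatrixGroups

variable {d : ℕ}

private theorem num_det (δ : SL(2, ℤ)) : δ.1.det ≠ 0 := by
  rw [δ.2]; exact one_ne_zero

/-- the numerator of `G (δ Z)` -/
theorem exists_num (G : MvPolynomial (Fin d) ℂ) (δ : Fin d → SL(2, ℤ)) :
    ∃ (H : MvPolynomial (Fin d) ℂ) (N : ℕ), ∀ ζ : Fin d → ℂ, (∀ a, 0 < (ζ a).im) →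
      MvPolynomial.eval ζ H = (∏ a, (((δ a).1 1 0 : ℂ) * ζ a + ((δ a).1 1 1 : ℂ))) ^ N *
        MvPolynomial.eval (fun a => mz (δ a).1 (ζ a)) G := by
  set N : ℕ := ∑ a, G.degreeOf a with hN
  refine ⟨∑ k ∈ G.support, MvPolynomial.C (G.coeff k) *
    ∏ a, ((MvPolynomial.C ((δ a).1 0 0 : ℂ) * MvPolynomial.X a +
      MvPolynomial.C ((δ a).1 0 1 : ℂ)) ^ (k a) *
      (MvPolynomial.C ((δ a).1 1 0 : ℂ) * MvPolynomial.X a +
      MvPolynomial.C ((δ a).1 1 1 : ℂ)) ^ (N - k a)), N, fun ζ hζ => ?_⟩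
  rw [MvPolynomial.eval_eq' _ G, map_sum, Finset.mul_sum]
  refine Finset.sum_congr rfl fun k hk => ?_
  simp only [map_mul, map_prod, map_pow, map_add, MvPolynomial.eval_C, MvPolynomial.eval_X]
  rw [← Finset.prod_pow, mul_left_comm, ← Finset.prod_mul_distrib]
  congr 1
  refine Finset.prod_congr rfl fun a _ => ?_
  have hd := mz_den_ne (num_det (δ a)) (hζ a)
  have hka : k a ≤ N := by
    refine (MvPolynomial.monomial_le_degreeOf a hk).trans ?_
    exact Finset.single_le_sum (f := fun a => G.degreeOf a) (fun _ _ => Nat.zero_le _)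
      (Finset.mem_univ a)
  have h3 : mz (δ a).1 (ζ a) * (((δ a).1 1 0 : ℂ) * ζ a + ((δ a).1 1 1 : ℂ)) =
      ((δ a).1 0 0 : ℂ) * ζ a + ((δ a).1 0 1 : ℂ) := div_mul_cancel₀ _ hd
  rw [← h3, mul_pow, mul_assoc, ← pow_add, Nat.add_sub_cancel' hka, mul_comm]

/-- for `G ≠ 0` the numerator is not `0` -/
theorem exists_num_ne {G : MvPolynomial (Fin d) ℂ} (hG : G ≠ 0) (δ : Fin d → SL(2, ℤ)) :
    ∃ H : MvPolynomial (Fin d) ℂ, H ≠ 0 ∧ ∀ ζ : Fin d → ℂ, (∀ a, 0 < (ζ a).im) →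
      MvPolynomial.eval (fun a => mz (δ a).1 (ζ a)) G = 0 → MvPolynomial.eval ζ H = 0 := by
  obtain ⟨H, N, hH⟩ := exists_num G δ
  refine ⟨H, ?_, fun ζ hζ h0 => by rw [hH ζ hζ, h0, mul_zero]⟩
  rintro rfl
  apply hG
  refine MvPolynomial.funext_set (fun _ => {z : ℂ | 0 < z.im}) (fun _ => ?_) ?_
  · exact Set.infinite_of_injective_forall_mem (f := fun n : ℕ => ((n : ℂ) + Complex.I))
      (fun m n h => by simpa using h) (fun n => by simp)
  · intro y hy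
    have hy' : ∀ a, 0 < (y a).im := fun a => hy a (Set.mem_univ a)
    rw [map_zero]
    have hx : ∀ a, 0 < (mz ((δ a)⁻¹).1 (y a)).im := fun a => mz_im_sl _ (hy' a)
    have h1 := hH (fun a => mz ((δ a)⁻¹).1 (y a)) hx
    rw [map_zero] at h1
    have h2 := (mul_eq_zero.mp h1.symm).resolve_left
      (pow_ne_zero _ (Finset.prod_ne_zero_iff.mpr fun a _ => mz_den_ne (num_det (δ a)) (hx a)))
    have h3 : (fun a => mz (δ a).1 (mz ((δ a)⁻¹).1 (y a))) = y := by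
      funext a
      rw [← mz_mul_sl _ _ (hy' a), mul_inv_cancel, mz_one]
    rwa [h3] at h2

end Pool.Agent.LGO.AXG
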