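import Mathlib
import Pool.Agent.LGO.AX.Ovl
import Pool.Agent.LGO.AXG.Defs
import Pool.Agent.LGO.AXG.Num

/-!
# LGO/AXG: independence of the lifts is transported over the overlap of two branches
-/

namespace Pool.Agent.LGO.AXG

open Pool.Agent.LGO Pool.Agent.LGO.AX
open scoped MatrixGroups

variable {d : ℕ} {S : Cur d}

theorem Br.nonempty (β : Br S) : β.U.Nonempty := by
  refine ⟨((Real.log β.r - 1 : ℝ) : ℂ), ?_⟩
  change Real.exp (((Real.log β.r - 1 : ℝ) : ℂ)).re < β.r
  rw [Complex.ofReal_re, Real.exp_sub, Real.exp_log β.r_pos]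
  have h1 : (1 : ℝ) < Real.exp 1 := by
    rw [Real.one_lt_exp_iff]; exact one_pos
  exact div_lt_self β.r_pos h1

theorem Br.isOpen (β : Br S) : IsOpen β.U :=
  isOpen_lt (Real.continuous_exp.comp Complex.continuous_re) continuous_const

theorem Br.convex (β : Br S) : Convex ℝ β.U := by
  have h1 : β.U = {w : ℂ | w.re < Real.log β.r} := by
    ext w
    change Real.exp w.re < β.r ↔ w.re < Real.log β.r
    rw [Real.lt_log_iff_exp_lt β.r_pos]
  rw [h1]
  exact convex_halfSpace_re_lt _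

theorem Br.zdiff (β : Br S) (a : Fin d) : DifferentiableOn ℂ (β.z a) β.U :=
  (β.ax a).z_diff 0

theorem Br.zim (β : Br S) (a : Fin d) {w : ℂ} (hw : w ∈ β.U) : 0 < (β.z a w).im :=
  β.im_pos a w hw

theorem Br.analytic (β : Br S) (G : MvPolynomial (Fin d) ℂ) :
    AnalyticOnNhd ℂ (fun w => MvPolynomial.eval (fun a => β.z a w) G) β.U := by
  have : DifferentiableOn ℂ (fun w => MvPolynomial.eval (fun a => β.z a w) G) β.U := by
    induction G using MvPolynomial.induction_on with
    | C c => simp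
    | add p q hp hq =>
      simp only [map_add]
      exact hp.add hq
    | mul_X p i hp =>
      simp only [map_mul, MvPolynomial.eval_X]
      exact hp.mul (β.zdiff i)
  exact this.analyticOnNhd β.isOpen

/-- the lifts of no function at all are independent -/
theorem ind_zero {S : Cur 0} (β : Br S) : Ind β := by
  intro G hG
  obtain ⟨w, hw⟩ := β.nonempty
  refine ⟨w, hw, fun h => hG ?_⟩
  rw [MvPolynomial.eq_C_of_isEmpty G] at h ⊢
  rw [MvPolynomial.eval_C] at h
  rw [h, map_zero]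

theorem ind_ovl (β β' : Br S) {w w' : ℂ} (hw : w ∈ β.U) (hw' : w' ∈ β'.U) (h : β.pt w = β'.pt w')
    (hi : Ind β) : Ind β' := by
  rcases Nat.eq_zero_or_pos d with hd | hd
  · subst hd
    exact ind_zero β'
  have a₀ : Fin d := ⟨0, hd⟩
  obtain ⟨φ, ε, hε, hb, hφ, -, -, hpt⟩ := ovl (β.ax a₀) (β'.ax a₀) hw hw' h
  have hpt' : ∀ v ∈ Metric.ball w ε, φ v ∈ β'.U ∧ β'.pt (φ v) = β.pt v := hpt
  have hb' : Metric.ball w ε ⊆ β.U := hb
  have hl : ∀ a, ∃ γ : SL(2, ℤ), ∀ v ∈ Metric.ball w ε, β'.z a (φ v) = mz γ.1 (β.z a v) := by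
    intro a
    refine lift_unique Metric.isOpen_ball (convex_ball w ε).isPreconnected
      ⟨w, Metric.mem_ball_self hε⟩ ((β.zdiff a).mono hb') ((β'.zdiff a).comp hφ fun v hv => (hpt' v hv).1)
      (fun v hv => β.zim a (hb' hv)) (fun v hv => β'.zim a (hpt' v hv).1) ?_
    intro v hv
    have h1 : jF (β.z a v) = S.x a (β.pt v) := β.jz a v (hb' hv)
    have h2 : jF (β'.z a (φ v)) = S.x a (β'.pt (φ v)) := β'.jz a _ (hpt' v hv).1
    change jF (β.z a v) = jF (β'.z a (φ v))
    rw [h1, h2, (hpt' v hv).2]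
  choose κ hκ using hl
  intro G hG
  by_contra hcon
  push Not at hcon
  obtain ⟨H, hH, hH0⟩ := exists_num_ne hG κ
  obtain ⟨u, hu, hu0⟩ := hi H hH
  apply hu0
  have hball : ∀ v ∈ Metric.ball w ε, MvPolynomial.eval (fun a => β.z a v) H = 0 := by
    intro v hv
    refine hH0 _ (fun a => β.zim a (hb' hv)) ?_
    have h1 := hcon (φ v) (hpt' v hv).1
    have h2 : (fun a => mz (κ a).1 (β.z a v)) = fun a => β'.z a (φ v) :=
      funext fun a => (hκ a v hv).symm
    rw [h2]
    exact h1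
  have h3 := (β.analytic H).eqOn_zero_of_preconnected_of_eventuallyEq_zero
    β.convex.isPreconnected hw (Filter.eventually_of_mem (Metric.ball_mem_nhds w hε) hball)
  exact h3 hu

end Pool.Agent.LGO.AXG
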