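import Mathlib
import Pool.Agent.LGO.AXG.Ovl

/-!
# LGO/AXG: ideals of relations of the moved lifts, and their stabilisers

The file `LGO/AX/Stab.lean` and the second half of `LGO/AX/Ovl.lean` with `Fin 3` replaced by `Fin d`.
-/

namespace Pool.Agent.LGO.AXG

open Polynomial Pool.Agent.LGO Pool.Agent.LGO.AX Filter Topology
open scoped MatrixGroups

open MvPolynomial (vanishingIdeal)

variable {d : ℕ}

/-- the lifted curve of a branch, moved by `γ` -/
def cv {S : Cur d} (β : Br S) (γ : Fin d → SL(2, ℤ)) : Set (Fin d → ℂ) :=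
  {ζ | ∃ w ∈ β.U, ζ = fun a => mz (γ a).1 (β.z a w)}

/-- the elements which preserve an ideal of relations -/
def Stb (I : Ideal (MvPolynomial (Fin d) ℂ)) : Set (Fin d → SL(2, ℤ)) :=
  {δ | ∀ A : Set (Fin d → ℂ), (∀ ζ ∈ A, ∀ a, 0 < (ζ a).im) → MvPolynomial.vanishingIdeal ℂ A = I →
    MvPolynomial.vanishingIdeal ℂ ((fun ζ a => mz (δ a).1 (ζ a)) '' A) = I}

private theorem stab_num {δ : Fin d → SL(2, ℤ)} {ζ : Fin d → ℂ} (h : ∀ a, 0 < (ζ a).im) :
    (∏ a, (((δ a).1 1 0 : ℂ) * ζ a + ((δ a).1 1 1 : ℂ))) ≠ 0 :=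
  Finset.prod_ne_zero_iff.2 fun a _ => mz_den_ne (Mz_det (δ a)).ne' (h a)

private theorem stab_mem (G : MvPolynomial (Fin d) ℂ) (δ : Fin d → SL(2, ℤ)) :
    ∃ H : MvPolynomial (Fin d) ℂ, ∀ A : Set (Fin d → ℂ), (∀ ζ ∈ A, ∀ a, 0 < (ζ a).im) →
      (G ∈ vanishingIdeal ℂ ((fun ζ a => mz (δ a).1 (ζ a)) '' A) ↔ H ∈ vanishingIdeal ℂ A) := by
  obtain ⟨H, N, hH⟩ := exists_num G δ
  refine ⟨H, fun A hA => ?_⟩
  rw [MvPolynomial.mem_vanishingIdeal_iff, MvPolynomial.mem_vanishingIdeal_iff, Set.forall_mem_image]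
  refine forall₂_congr fun ζ hζ => ?_
  have h1 := hH ζ (hA ζ hζ)
  have h2 := pow_ne_zero N (stab_num (δ := δ) (hA ζ hζ))
  rw [← MvPolynomial.coe_aeval_eq_eval, ← MvPolynomial.coe_aeval_eq_eval] at h1
  constructor
  · intro h
    rw [show MvPolynomial.aeval ζ H = _ from h1]
    exact mul_eq_zero_of_right _ h
  · intro h
    exact (mul_eq_zero.1 ((show MvPolynomial.aeval ζ H = _ from h1).symm.trans h)).resolve_left h2

theorem vI_image {A B : Set (Fin d → ℂ)} (hA : ∀ ζ ∈ A, ∀ a, 0 < (ζ a).im)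
    (hB : ∀ ζ ∈ B, ∀ a, 0 < (ζ a).im) (h : vanishingIdeal ℂ A = vanishingIdeal ℂ B) (δ : Fin d → SL(2, ℤ)) :
    vanishingIdeal ℂ ((fun ζ a => mz (δ a).1 (ζ a)) '' A) = vanishingIdeal ℂ ((fun ζ a => mz (δ a).1 (ζ a)) '' B) := by
  ext G
  obtain ⟨H, hH⟩ := stab_mem G δ
  rw [hH A hA, hH B hB, h]

theorem stb_of {I : Ideal (MvPolynomial (Fin d) ℂ)} {A : Set (Fin d → ℂ)}
    (hA : ∀ ζ ∈ A, ∀ a, 0 < (ζ a).im) (h : vanishingIdeal ℂ A = I) {δ : Fin d → SL(2, ℤ)}
    (h' : vanishingIdeal ℂ ((fun ζ a => mz (δ a).1 (ζ a)) '' A) = I) : δ ∈ Stb I := by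
  intro B hB hBI
  rw [vI_image hB hA (hBI.trans h.symm) δ]
  exact h'

variable {S : Cur d}

theorem Br.jFz (β : Br S) (a : Fin d) {w : ℂ} (hw : w ∈ β.U) : jF (β.z a w) = S.x a (β.pt w) :=
  β.jz a w hw

theorem Br.ptm (β : Br S) {w : ℂ} (hw : w ∈ β.U) : β.pt w ∈ S.pt := by
  exact β.mem _ (norm_pos_iff.2 (Complex.exp_ne_zero w)) (by
    rw [Complex.norm_exp]
    exact hw)

theorem Br.shift (β : Br S) {w : ℂ} (hw : w ∈ β.U) (n : ℤ) :
    w + 2 * Real.pi * Complex.I * n ∈ β.U := by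
  change Real.exp (w + 2 * Real.pi * Complex.I * n).re < β.r
  have h1 : (w + 2 * Real.pi * Complex.I * n).re = w.re := by
    simp
  rw [h1]
  exact hw

theorem Br.zshift (β : Br S) (a : Fin d) (w : ℂ) (n : ℤ) :
    β.z a (w + 2 * Real.pi * Complex.I * n) = β.z a w + β.e a * n :=
  (β.ax a).z_shift 0 w n

theorem cv_im {β : Br S} {γ : Fin d → SL(2, ℤ)} {ζ : Fin d → ℂ} (h : ζ ∈ cv β γ) (a : Fin d) :
    0 < (ζ a).im := by
  obtain ⟨w, hw, rfl⟩ := h
  exact mz_im_sl (γ a) (β.zim a hw)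

theorem cv_smul (β : Br S) (γ δ : Fin d → SL(2, ℤ)) :
    cv β (δ * γ) = (fun ζ a => mz (δ a).1 (ζ a)) '' cv β γ := by
  ext ζ
  constructor
  · rintro ⟨w, hw, rfl⟩
    refine ⟨fun a => mz (γ a).1 (β.z a w), ⟨w, hw, rfl⟩, ?_⟩
    funext a
    exact (mz_mul_sl (δ a) (γ a) (β.zim a hw)).symm
  · rintro ⟨ξ, ⟨w, hw, rfl⟩, rfl⟩
    refine ⟨w, hw, ?_⟩
    funext a
    exact (mz_mul_sl (δ a) (γ a) (β.zim a hw)).symm

/-- two moved curves of the same branch with the same ideal -/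
theorem stb_of_cv {I : Ideal (MvPolynomial (Fin d) ℂ)} {β : Br S} {γ γ' : Fin d → SL(2, ℤ)}
    (h : vanishingIdeal ℂ (cv β γ) = I) (h' : vanishingIdeal ℂ (cv β γ') = I) : γ' * γ⁻¹ ∈ Stb I := by
  refine stb_of (A := cv β γ) (fun ζ hζ a => cv_im hζ a) h ?_
  rw [← cv_smul, inv_mul_cancel_right]
  exact h'

theorem cv_of_stb {I : Ideal (MvPolynomial (Fin d) ℂ)} {β : Br S} {γ δ : Fin d → SL(2, ℤ)}
    (h : vanishingIdeal ℂ (cv β γ) = I) (h' : δ ∈ Stb I) : vanishingIdeal ℂ (cv β (δ * γ)) = I := by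
  rw [cv_smul]
  exact h' _ (fun ζ hζ a => cv_im hζ a) h

/-- the ideal of `cv β (γ * γ')` depends only on that of `cv β γ'` -/
theorem cv_left {β β' : Br S} {γ' γ'' : Fin d → SL(2, ℤ)} (γ : Fin d → SL(2, ℤ))
    (h : vanishingIdeal ℂ (cv β γ') = vanishingIdeal ℂ (cv β' γ'')) :
    vanishingIdeal ℂ (cv β (γ * γ')) = vanishingIdeal ℂ (cv β' (γ * γ'')) := by
  rw [cv_smul, cv_smul]
  exact vI_image (fun ζ hζ a => cv_im hζ a) (fun ζ hζ a => cv_im hζ a) h γ

/-- composition of a polynomial with holomorphic functions -/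
private theorem Ovl_poly (G : MvPolynomial (Fin d) ℂ) {U : Set ℂ} {f : Fin d → ℂ → ℂ}
    (hf : ∀ a, DifferentiableOn ℂ (f a) U) :
    DifferentiableOn ℂ (fun w => MvPolynomial.aeval (fun a => f a w) G) U := by
  induction G using MvPolynomial.induction_on with
  | C c =>
    simp only [MvPolynomial.aeval_C]
    exact differentiableOn_const _
  | add p q hp hq =>
    simp only [map_add]
    exact hp.add hq
  | mul_X p a hp =>
    simp only [map_mul, MvPolynomial.aeval_X]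
    exact hp.mul (hf a)

theorem Br.mzdiff (β : Br S) (γ : Fin d → SL(2, ℤ)) (a : Fin d) :
    DifferentiableOn ℂ (fun w => mz (γ a).1 (β.z a w)) β.U := by
  have h : ((γ a).1).det ≠ 0 := by
    rw [(γ a).2]
    exact one_ne_zero
  exact (mz_diff h).comp (β.zdiff a) (fun w hw => β.zim a hw)

theorem Br.mzan (β : Br S) (γ : Fin d → SL(2, ℤ)) (G : MvPolynomial (Fin d) ℂ) :
    AnalyticOnNhd ℂ (fun v => MvPolynomial.aeval (fun a => mz (γ a).1 (β.z a v)) G : ℂ → ℂ) β.U :=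
  (Ovl_poly G (fun a => β.mzdiff γ a)).analyticOnNhd β.isOpen

/-- the values of the lifts of the two branches at the common point, and the ideals -/
theorem fam_ovl (a₀ : Fin d) (β β' : Br S) {w w' : ℂ} (hw : w ∈ β.U) (hw' : w' ∈ β'.U)
    (h : β.pt w = β'.pt w') : ∃ κ : Fin d → SL(2, ℤ), (∀ a, β'.z a w' = mz (κ a).1 (β.z a w)) ∧
      ∀ γ', vanishingIdeal ℂ (cv β (γ' * κ)) = vanishingIdeal ℂ (cv β' γ') := by
  obtain ⟨φ, ε, hε, hsub', hφd, hφw, hinj, hall'⟩ := ovl (β.ax a₀) (β'.ax a₀) hw hw' h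
  have hsub : Metric.ball w ε ⊆ β.U := hsub'
  have hall : ∀ v ∈ Metric.ball w ε, φ v ∈ β'.U ∧ β'.pt (φ v) = β.pt v := hall'
  have hwb : w ∈ Metric.ball w ε := Metric.mem_ball_self hε
  have hlift : ∀ a, ∃ γ : SL(2, ℤ), ∀ v ∈ Metric.ball w ε,
      β'.z a (φ v) = mz γ.1 (β.z a v) := by
    intro a
    refine lift_unique (D := Metric.ball w ε) (f := β.z a) (g := fun v => β'.z a (φ v))
      Metric.isOpen_ball (convex_ball w ε).isPreconnected ⟨w, hwb⟩ ((β.zdiff a).mono hsub) ?_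
      (fun v hv => β.zim a (hsub hv)) (fun v hv => β'.zim a (hall v hv).1) ?_
    · exact (β'.zdiff a).comp hφd (fun v hv => (hall v hv).1)
    · intro v hv
      rw [β.jFz a (hsub hv), β'.jFz a (hall v hv).1, (hall v hv).2]
  choose κ hκ using hlift
  refine ⟨κ, fun a => ?_, fun γ' => ?_⟩
  · have h1 := hκ a w hwb
    rwa [hφw] at h1
  · -- the two functions on the disc
    have hrel : ∀ v ∈ Metric.ball w ε, (fun a => mz ((γ' * κ) a).1 (β.z a v)) =
        fun a => mz (γ' a).1 (β'.z a (φ v)) := by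
      intro v hv
      funext a
      rw [hκ a v hv, Pi.mul_apply, mz_mul_sl _ _ (β.zim a (hsub hv))]
    have hφc : ContinuousAt φ w :=
      (hφd.differentiableAt (Metric.isOpen_ball.mem_nhds hwb)).continuousAt
    ext G
    rw [MvPolynomial.mem_vanishingIdeal_iff, MvPolynomial.mem_vanishingIdeal_iff]
    constructor
    · intro hG
      have han := β'.mzan γ' G
      have htend : Tendsto φ (𝓝[≠] w) (𝓝[≠] w') := by
        refine tendsto_nhdsWithin_iff.2 ⟨?_, ?_⟩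
        · have h1 : Tendsto φ (𝓝 w) (𝓝 (φ w)) := hφc
          rw [hφw] at h1
          exact h1.mono_left nhdsWithin_le_nhds
        · have h1 : ∀ᶠ v in 𝓝[≠] w, v ∈ Metric.ball w ε :=
            nhdsWithin_le_nhds (Metric.ball_mem_nhds w hε)
          filter_upwards [h1, self_mem_nhdsWithin] with v hv hne
          intro hv2
          rw [Set.mem_singleton_iff, ← hφw] at hv2
          exact hne (hinj hv hwb hv2)
      have hfr : ∃ᶠ z in 𝓝[≠] w',
          (MvPolynomial.aeval (fun a => mz (γ' a).1 (β'.z a z)) G : ℂ) = 0 := by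
        refine htend.frequently (Eventually.frequently ?_)
        have h1 : ∀ᶠ v in 𝓝[≠] w, v ∈ Metric.ball w ε :=
          nhdsWithin_le_nhds (Metric.ball_mem_nhds w hε)
        filter_upwards [h1] with v hv
        rw [← hrel v hv]
        exact hG _ ⟨v, hsub hv, rfl⟩
      have hzero := han.eqOn_zero_of_preconnected_of_frequently_eq_zero
        β'.convex.isPreconnected hw' hfr
      rintro ζ ⟨v, hv, rfl⟩
      exact hzero hv
    · intro hG
      have han := β.mzan (γ' * κ) G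
      have hev : (fun v => MvPolynomial.aeval (fun a => mz ((γ' * κ) a).1 (β.z a v)) G : ℂ → ℂ)
          =ᶠ[𝓝 w] 0 := by
        filter_upwards [Metric.ball_mem_nhds w hε] with v hv
        rw [hrel v hv]
        exact hG _ ⟨φ v, (hall v hv).1, rfl⟩
      have hzero := han.eqOn_zero_of_preconnected_of_eventuallyEq_zero
        β.convex.isPreconnected hw hev
      rintro ζ ⟨v, hv, rfl⟩
      exact hzero hv

end Pool.Agent.LGO.AXG
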