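import Mathlib
import Pool.Agent.LGO.AX.Trans
import Pool.Agent.LGO.AXG.Ovl

/-!
# LGO/AXG: independence of the lifts does not depend on the branch
-/

namespace Pool.Agent.LGO.AXG

open Pool.Agent.LGO Pool.Agent.LGO.AX
open scoped MatrixGroups

variable {d : ℕ} {S : Cur d}

theorem cover_mem (A : Atl S) {p : ℂ × ℂ} (hp : p ∈ S.pt) (hpc : p.1 ∉ A.cen) :
    ∃ i, ∃ w ∈ (A.br i).U, (A.br i).pt w = p := by
  obtain ⟨i, w, hw, -, hpw⟩ := A.cover p hp hpc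
  refine ⟨i, w, ?_, hpw⟩
  have h1 := (A.br i).r_pos
  have h2 : Real.exp (-5) < 1 := by
    rw [Real.exp_lt_one_iff]; norm_num
  change Real.exp w.re < (A.br i).r
  nlinarith

theorem ind_trans (A : Atl S) (β β' : Br S) (hi : Ind β) : Ind β' := by
  rcases Nat.eq_zero_or_pos d with hd | hd
  · subst hd
    exact ind_zero β'
  have a₀ : Fin d := ⟨0, hd⟩
  -- the curve outside the centres
  let S' : AX.Cur := (S.ax a₀).rem A.cen
  have hS' : ∀ p, p ∈ S'.pt ↔ p ∈ S.pt ∧ p.1 ∉ A.cen := fun p => AX.Cur.mem_rem (S.ax a₀) A.cen p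
  let P : ℂ × ℂ → Prop := fun p => ∃ (β₁ : Br S) (w : ℂ), w ∈ β₁.U ∧ β₁.pt w = p ∧ Ind β₁
  have hLC : LC S' P := by
    intro p hp
    obtain ⟨i, w, hw, hpw⟩ := cover_mem A ((hS' p).mp hp).1 ((hS' p).mp hp).2
    have h1 := br_nhds ((A.br i).ax a₀) hw
    have h2 : ∀ᶠ p' in nhdsWithin p S'.pt, ∃ v ∈ (A.br i).U, (A.br i).pt v = p' := by
      have h3 : nhdsWithin p S'.pt ≤ nhdsWithin (((A.br i).ax a₀).pt w) (S.ax a₀).pt := by
        rw [show ((A.br i).ax a₀).pt w = p from hpw]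
        exact nhdsWithin_mono _ fun q hq => ((hS' q).mp hq).1
      exact h1.filter_mono h3
    have h4 : ∀ p' : ℂ × ℂ, (∃ v ∈ (A.br i).U, (A.br i).pt v = p') → (P p' ↔ Ind (A.br i)) := by
      rintro p' ⟨v, hv, hpv⟩
      constructor
      · rintro ⟨β₁, u, hu, hpu, h5⟩
        exact ind_ovl β₁ (A.br i) hu hv (hpu.trans hpv.symm) h5
      · intro h5
        exact ⟨A.br i, v, hv, hpv, h5⟩
    have h5 := h4 p ⟨w, hw, hpw⟩
    filter_upwards [h2] with p' hp'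
    rw [h4 p' hp', h5]
  obtain ⟨w, hw, hwc⟩ := br_avoid (β.ax a₀) A.cen
  obtain ⟨w', hw', hwc'⟩ := br_avoid (β'.ax a₀) A.cen
  have h0 : P (β.pt w) := ⟨β, w, hw, rfl, hi⟩
  have hp0 : β.pt w ∈ S'.pt := (hS' _).mpr ⟨(β.ax a₀).pt_mem hw, hwc⟩
  have hp1 : β'.pt w' ∈ S'.pt := (hS' _).mpr ⟨(β'.ax a₀).pt_mem hw', hwc'⟩
  obtain ⟨β₁, u, hu, hpu, h5⟩ := connected S' hLC hp0 h0 _ hp1
  exact ind_ovl β₁ β' hu hw' hpu h5

end Pool.Agent.LGO.AXG
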