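import Mathlib
import Pool.Agent.LGO.AX.Cus
import Pool.Agent.LGO.AXG.Trans
import Pool.Agent.LGO.AXG.Stab

/-!
# LGO/AXG: transport of the ideals of relations, elements of the stabiliser which move the cusp

The files `LGO/AX/Trans.lean` and `LGO/AX/Cus.lean` with `Fin 3` replaced by `Fin d`.
-/

namespace Pool.Agent.LGO.AXG

open Polynomial Pool.Agent.LGO Pool.Agent.LGO.AX Filter Topology
open scoped MatrixGroups
open MvPolynomial (vanishingIdeal)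

variable {d : ℕ} {S : Cur d}

theorem transport (a₀ : Fin d) (A : Atl S) (β β' : Br S) (γ : Fin d → SL(2, ℤ)) :
    ∃ γ', vanishingIdeal ℂ (cv β' γ') = vanishingIdeal ℂ (cv β γ) := by
  let S' : AX.Cur := (S.ax a₀).rem A.cen
  have hS' : ∀ p, p ∈ S'.pt ↔ p ∈ S.pt ∧ p.1 ∉ A.cen := fun p => AX.Cur.mem_rem (S.ax a₀) A.cen p
  set P : ℂ × ℂ → Prop := fun p => ∃ β₁ : Br S, ∃ w ∈ β₁.U, β₁.pt w = p ∧
    ∃ γ₁, vanishingIdeal ℂ (cv β₁ γ₁) = vanishingIdeal ℂ (cv β γ) with hP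
  have key : ∀ (β₁ : Br S) (v : ℂ), v ∈ β₁.U →
      (P (β₁.pt v) ↔ ∃ γ₁, vanishingIdeal ℂ (cv β₁ γ₁) = vanishingIdeal ℂ (cv β γ)) := by
    intro β₁ v hv
    constructor
    · rintro ⟨β₂, w₂, hw₂, h2, γ₂, hγ₂⟩
      obtain ⟨κ, -, hκ⟩ := fam_ovl a₀ β₁ β₂ hv hw₂ h2.symm
      exact ⟨γ₂ * κ, (hκ γ₂).trans hγ₂⟩
    · rintro ⟨γ₁, h1⟩
      exact ⟨β₁, v, hv, rfl, γ₁, h1⟩
  have hLC : LC S' P := by
    intro p hp
    rw [hS'] at hp
    obtain ⟨i, w₁, hw₁, rfl⟩ := cover_mem A hp.1 hp.2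
    have h2 := br_nhds ((A.br i).ax a₀) hw₁
    have h3 : 𝓝[S'.pt] ((A.br i).pt w₁) ≤ 𝓝[S.pt] ((A.br i).pt w₁) := by
      refine nhdsWithin_mono _ ?_
      intro q hq
      exact ((hS' _).mp hq).1
    filter_upwards [h3 h2] with p' hp'
    obtain ⟨v, hv, hvp⟩ := hp'
    have hv' : v ∈ (A.br i).U := hv
    have hvp' : (A.br i).pt v = p' := hvp
    rw [← hvp', key (A.br i) v hv', key (A.br i) w₁ hw₁]
  obtain ⟨w, hw, hwE⟩ := br_avoid (β.ax a₀) A.cen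
  obtain ⟨w', hw', hwE'⟩ := br_avoid (β'.ax a₀) A.cen
  have h1 : P (β'.pt w') := by
    refine connected S' hLC (p₀ := β.pt w) ?_ ?_ (β'.pt w') ?_
    · exact (hS' _).mpr ⟨β.ptm hw, hwE⟩
    · exact ⟨β, w, hw, rfl, γ, rfl⟩
    · exact (hS' _).mpr ⟨β'.ptm hw', hwE'⟩
  exact (key β' w' hw').mp h1

/-- functions on the curve from functions on the lifts which are invariant under the stabiliser -/
theorem glob (a₀ : Fin d) {X : Type} [Inhabited X] {I : Ideal (MvPolynomial (Fin d) ℂ)} (Q : (Fin d → ℂ) → X)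
    (hQ : ∀ δ ∈ Stb I, ∀ ζ : Fin d → ℂ, (∀ a, 0 < (ζ a).im) →
      Q (fun a => mz (δ a).1 (ζ a)) = Q ζ) :
    ∃ h : ℂ × ℂ → X, ∀ (β : Br S) (γ : Fin d → SL(2, ℤ)), vanishingIdeal ℂ (cv β γ) = I →
      ∀ w ∈ β.U, h (β.pt w) = Q (fun a => mz (γ a).1 (β.z a w)) := by
  classical
  have hex : ∀ p : ℂ × ℂ, ∃ x : X, ∀ (β : Br S) (γ : Fin d → SL(2, ℤ)), vanishingIdeal ℂ (cv β γ) = I →
      ∀ w ∈ β.U, β.pt w = p → x = Q (fun a => mz (γ a).1 (β.z a w)) := by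
    intro p
    by_cases hp : ∃ (β : Br S) (γ : Fin d → SL(2, ℤ)) (w : ℂ), vanishingIdeal ℂ (cv β γ) = I ∧ w ∈ β.U ∧
        β.pt w = p
    · obtain ⟨β', γ', w', hI', hw', hp'⟩ := hp
      refine ⟨Q (fun a => mz (γ' a).1 (β'.z a w')), ?_⟩
      intro β γ hI w hw hpw
      obtain ⟨κ, hκ, hv⟩ := fam_ovl a₀ β β' hw hw' (hpw.trans hp'.symm)
      have hδ : γ' * κ * γ⁻¹ ∈ Stb I := stb_of_cv hI ((hv γ').trans hI')
      have hz : ∀ a, 0 < (mz (γ a).1 (β.z a w)).im := fun a => mz_im_sl (γ a) (β.zim a hw)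
      rw [← hQ _ hδ (fun a => mz (γ a).1 (β.z a w)) hz]
      have h2 : (fun a => mz (γ' a).1 (β'.z a w')) =
          fun a => mz ((γ' * κ * γ⁻¹) a).1 (mz (γ a).1 (β.z a w)) := by
        funext a
        rw [hκ a, ← mz_mul_sl _ _ (β.zim a hw), ← mz_mul_sl _ _ (β.zim a hw)]
        have h3 : (γ' * κ * γ⁻¹) a * γ a = γ' a * κ a := by
          simp only [Pi.mul_apply, Pi.inv_apply, inv_mul_cancel_right]
        rw [h3]
      rw [h2]
    · refine ⟨default, ?_⟩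
      intro β γ hI w hw hpw
      exact absurd ⟨β, γ, w, hI, hw, hpw⟩ hp
  choose h hh using hex
  exact ⟨h, fun β γ hI w hw => hh _ β γ hI w hw rfl⟩

theorem glob_hol (A : Atl S) {I : Ideal (MvPolynomial (Fin d) ℂ)}
    (hI : ∃ (β : Br S) (γ : Fin d → SL(2, ℤ)), vanishingIdeal ℂ (cv β γ) = I)
    (a : Fin d) {q : ℂ → ℂ} (hq : DifferentiableOn ℂ q {z : ℂ | 0 < z.im}) {h : ℂ × ℂ → ℂ}
    (hh : ∀ (β : Br S) (γ : Fin d → SL(2, ℤ)), vanishingIdeal ℂ (cv β γ) = I → ∀ w ∈ β.U,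
      h (β.pt w) = q (mz (γ a).1 (β.z a w))) : Hol ((S.ax a).rem A.cen) h := by
  obtain ⟨β₀, γ₀, hI₀⟩ := hI
  intro Ω y hΩ hy hp T₀ hT₀
  have hS' : ∀ p, p ∈ ((S.ax a).rem A.cen).pt ↔ p ∈ S.pt ∧ p.1 ∉ A.cen :=
    fun p => AX.Cur.mem_rem (S.ax a) A.cen p
  have hp' : ∀ T ∈ Ω, (T, y T) ∈ S.pt := fun T hT => ((hS' _).mp (hp T hT)).1
  have hc : T₀ ∉ A.cen := ((hS' _).mp (hp T₀ hT₀)).2
  obtain ⟨i, w, hw, h2⟩ := cover_mem A (hp' T₀ hT₀) hc
  obtain ⟨v, ε, hε, hsub, hvd, hvT, hv'⟩ := sec_param ((A.br i).ax a) hw hΩ hy hp' hT₀ h2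
  have hv : ∀ T ∈ Metric.ball T₀ ε, v T ∈ (A.br i).U ∧ (A.br i).pt (v T) = (T, y T) := hv'
  obtain ⟨γ', hγ'⟩ := transport a A β₀ (A.br i) γ₀
  have hT₀b : T₀ ∈ Metric.ball T₀ ε := Metric.mem_ball_self hε
  have hdet : ((γ' a).1).det ≠ 0 := by
    rw [(γ' a).2]
    exact one_ne_zero
  have d1 : DifferentiableOn ℂ (fun T => (A.br i).z a (v T)) (Metric.ball T₀ ε) :=
    ((A.br i).zdiff a).comp hvd (fun T hT => (hv T hT).1)
  have d2 : DifferentiableOn ℂ (fun T => mz (γ' a).1 ((A.br i).z a (v T))) (Metric.ball T₀ ε) :=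
    (mz_diff hdet).comp d1 (fun T hT => (A.br i).zim a (hv T hT).1)
  have d3 : DifferentiableOn ℂ (fun T => q (mz (γ' a).1 ((A.br i).z a (v T)))) (Metric.ball T₀ ε) :=
    hq.comp d2 (fun T hT => mz_im_sl (γ' a) ((A.br i).zim a (hv T hT).1))
  have d4 : DifferentiableAt ℂ (fun T => q (mz (γ' a).1 ((A.br i).z a (v T)))) T₀ :=
    d3.differentiableAt (Metric.isOpen_ball.mem_nhds hT₀b)
  have hev : (fun T => h (T, y T)) =ᶠ[nhds T₀] fun T => q (mz (γ' a).1 ((A.br i).z a (v T))) := by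
    filter_upwards [Metric.isOpen_ball.mem_nhds hT₀b] with T hT
    rw [← (hv T hT).2]
    exact hh (A.br i) γ' (hγ'.trans hI₀) (v T) (hv T hT).1
  exact (hev.differentiableAt_iff.mpr d4).differentiableWithinAt

/-- an upper triangular element is a translation -/
private theorem Cus_exp (δ : SL(2, ℤ)) (h : δ.1 1 0 = 0) (z : ℂ) :
    Complex.exp (2 * Real.pi * Complex.I * mz δ.1 z) = Complex.exp (2 * Real.pi * Complex.I * z) := by
  have hd : δ.1 0 0 * δ.1 1 1 = 1 := by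
    have h1 := δ.2
    rw [Matrix.det_fin_two, h, mul_zero, sub_zero] at h1
    exact h1
  have h2 : ∃ n : ℤ, mz δ.1 z = z + n := by
    rcases Int.mul_eq_one_iff_eq_one_or_neg_one.mp hd with ⟨h3, h4⟩ | ⟨h3, h4⟩
    · refine ⟨δ.1 0 1, ?_⟩
      rw [mz, h, h3, h4]
      simp
    · refine ⟨-δ.1 0 1, ?_⟩
      rw [mz, h, h3, h4]
      push_cast
      field_simp
      ring
  obtain ⟨n, hn⟩ := h2
  rw [hn, Complex.exp_eq_exp_iff_exists_int]
  exact ⟨n, by ring⟩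

private theorem Cus_norm {z : ℂ} (hz : 0 < z.im) : ‖Complex.exp (2 * Real.pi * Complex.I * z)‖ ≤ 1 := by
  rw [Complex.norm_exp]
  have h1 : (2 * Real.pi * Complex.I * z).re = -(2 * Real.pi * z.im) := by
    have h2 : (2 * Real.pi * Complex.I * z) = ((2 * Real.pi : ℝ) : ℂ) * (Complex.I * z) := by
      push_cast
      ring
    rw [h2, Complex.re_ofReal_mul, Complex.I_mul_re]
    ring
  rw [h1, Real.exp_le_one_iff]
  have h3 : 0 < 2 * Real.pi * z.im := by positivity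
  linarith

/-- the inverse of the local coordinate -/
private noncomputable def Cus_q (o : Option ℂ) (T : ℂ) : ℂ := o.elim T⁻¹ (fun c => T - c)

private theorem Cus_q_Tp (o : Option ℂ) (s : ℂ) : Cus_q o (Tp o s) = s := by
  cases o with
  | none => simp [Cus_q, Tp]
  | some c => simp [Cus_q, Tp]

theorem stb_c (A : Atl S) (β : Br S) {a : Fin d} (he : 0 < β.e a) :
    ∃ δ ∈ Stb (vanishingIdeal ℂ (cv β 1)), (δ a).1 1 0 ≠ 0 := by
  by_contra hcon
  push Not at hcon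
  have hS' : ∀ p, p ∈ ((S.ax a).rem A.cen).pt ↔ p ∈ S.pt ∧ p.1 ∉ A.cen :=
    fun p => AX.Cur.mem_rem (S.ax a) A.cen p
  obtain ⟨h, hh⟩ := glob a (S := S) (I := vanishingIdeal ℂ (cv β 1))
    (fun ζ : Fin d → ℂ => Complex.exp (2 * Real.pi * Complex.I * ζ a)) (by
      intro δ hδ ζ _
      exact Cus_exp (δ a) (hcon δ hδ) (ζ a))
  have hhol : Hol ((S.ax a).rem A.cen) h := by
    refine glob_hol A (I := vanishingIdeal ℂ (cv β 1)) ⟨β, 1, rfl⟩ a
      (q := fun z => Complex.exp (2 * Real.pi * Complex.I * z)) ?_ hh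
    have h1 : Differentiable ℂ (fun z : ℂ => Complex.exp (2 * Real.pi * Complex.I * z)) := by fun_prop
    exact h1.differentiableOn
  have hfin := liouville ((S.ax a).rem A.cen) (h := h) ⟨1, by
    intro p hp
    rw [hS'] at hp
    obtain ⟨i, w, hw, rfl⟩ := cover_mem A hp.1 hp.2
    obtain ⟨γ', hγ'⟩ := transport a A β (A.br i) 1
    rw [hh (A.br i) γ' hγ' w hw]
    exact Cus_norm (mz_im_sl (γ' a) ((A.br i).zim a hw))⟩ hhol
  -- the points `w = -n`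
  set t : ℕ → ℂ := fun n => Complex.exp (-(n : ℂ)) with ht
  have htn : ∀ n : ℕ, ‖t n‖ = Real.exp (-(n : ℝ)) := by
    intro n
    change ‖Complex.exp (-(n : ℂ))‖ = _
    rw [Complex.norm_exp, Complex.neg_re, Complex.natCast_re]
  have htend : Tendsto t atTop (𝓝 0) := by
    rw [tendsto_zero_iff_norm_tendsto_zero]
    have h1 : Tendsto (fun n : ℕ => Real.exp (-(n : ℝ))) atTop (𝓝 0) :=
      Real.tendsto_exp_neg_atTop_nhds_zero.comp tendsto_natCast_atTop_atTop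
    exact h1.congr (fun n => (htn n).symm)
  have hU : ∀ᶠ n : ℕ in atTop, (-(n : ℂ)) ∈ β.U := by
    have h1 : ∀ᶠ n : ℕ in atTop, t n ∈ Metric.ball (0 : ℂ) β.r :=
      htend.eventually_mem (Metric.ball_mem_nhds _ β.r_pos)
    filter_upwards [h1] with n hn
    rw [mem_ball_zero_iff, htn] at hn
    change Real.exp ((-(n : ℂ)).re) < β.r
    rw [Complex.neg_re, Complex.natCast_re]
    exact hn
  have hinj : Function.Injective (fun n : ℕ => (β.pt (-(n : ℂ))).1) := by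
    intro n k hnk
    have h1 : t n ^ β.m = t k ^ β.m := by
      have h2 := congrArg (Cus_q β.o) hnk
      change Cus_q β.o (Tp β.o (t n ^ β.m)) = Cus_q β.o (Tp β.o (t k ^ β.m)) at h2
      rwa [Cus_q_Tp, Cus_q_Tp] at h2
    have h3 := congrArg norm h1
    rw [norm_pow, norm_pow, htn, htn] at h3
    have h4 := (pow_left_inj₀ (Real.exp_pos _).le (Real.exp_pos _).le β.m_pos.ne').mp h3
    have h5 := Real.exp_injective h4
    have h6 : (n : ℝ) = k := by linarith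
    exact_mod_cast h6
  have hE : ∀ᶠ n : ℕ in atTop, (β.pt (-(n : ℂ))).1 ∉ A.cen := by
    rw [← Nat.cofinite_eq_atTop]
    have h1 : {n : ℕ | ¬ (β.pt (-(n : ℂ))).1 ∉ A.cen}.Finite := by
      have h2 : ((fun n : ℕ => (β.pt (-(n : ℂ))).1) ⁻¹' (A.cen : Set ℂ)).Finite :=
        A.cen.finite_toSet.preimage hinj.injOn
      refine h2.subset ?_
      intro n hn
      exact not_not.mp hn
    exact h1
  have hval : ∀ n : ℕ, Complex.exp (2 * Real.pi * Complex.I * β.z a (-(n : ℂ))) =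
      t n ^ β.e a * Complex.exp (2 * Real.pi * Complex.I * β.ψ a (t n)) := by
    intro n
    rw [Br.z, zz, mul_add, Complex.exp_add]
    congr 1
    rw [ht, ← Complex.exp_nat_mul]
    congr 1
    have h1 : (2 * Real.pi * Complex.I : ℂ) ≠ 0 := Complex.two_pi_I_ne_zero
    field_simp
  have hlim : Tendsto (fun n : ℕ => Complex.exp (2 * Real.pi * Complex.I * β.z a (-(n : ℂ)))) atTop (𝓝 0) := by
    have h0 : (0 : ℂ) ∈ Metric.ball (0 : ℂ) β.r := Metric.mem_ball_self β.r_pos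
    have h1 : ContinuousAt (β.ψ a) 0 :=
      ((β.dψ a).differentiableAt (Metric.isOpen_ball.mem_nhds h0)).continuousAt
    have h2 : Tendsto (fun n => β.ψ a (t n)) atTop (𝓝 (β.ψ a 0)) := h1.tendsto.comp htend
    have h3 : Tendsto (fun n => Complex.exp (2 * Real.pi * Complex.I * β.ψ a (t n))) atTop
        (𝓝 (Complex.exp (2 * Real.pi * Complex.I * β.ψ a 0))) :=
      (Complex.continuous_exp.tendsto _).comp (h2.const_mul _)
    have h4 : Tendsto (fun n => t n ^ β.e a) atTop (𝓝 0) := by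
      have h5 := htend.pow (β.e a)
      rwa [zero_pow he.ne'] at h5
    have h5 := h4.mul h3
    rw [zero_mul] at h5
    exact h5.congr (fun n => (hval n).symm)
  have hmem : ∀ᶠ n : ℕ in atTop, Complex.exp (2 * Real.pi * Complex.I * β.z a (-(n : ℂ))) ∈
      {z : ℂ | ∃ p ∈ ((S.ax a).rem A.cen).pt, z = h p} \ {0} := by
    filter_upwards [hU, hE] with n hn1 hn2
    refine ⟨⟨β.pt (-(n : ℂ)), (hS' _).mpr ⟨β.ptm hn1, hn2⟩, ?_⟩, Complex.exp_ne_zero _⟩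
    rw [hh β 1 rfl _ hn1]
    change _ = Complex.exp (2 * Real.pi * Complex.I * mz (1 : SL(2, ℤ)).1 (β.z a (-(n : ℂ))))
    rw [mz_one]
  have hcl := (hfin.subset (Set.sdiff_subset (t := {0}))).isClosed.mem_of_tendsto hlim hmem
  exact hcl.2 rfl

end Pool.Agent.LGO.AXG
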