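import Mathlib
import Pool.Agent.LGO.AXG.StbC

/-!
# LGO/AXG: families of branches on which a relation holds, transport and monodromy

`StbC` with an arbitrary analytic relation `Φ(ζ, p) = 0` between the lifts `ζ` and the point `p` in place of the ideal of
the polynomial relations between the lifts: `RR Φ β γ` is the relation for the lifts of `β` moved by `γ`.
-/

namespace Pool.Agent.LGO.AXG

open Polynomial Pool.Agent.LGO Pool.Agent.LGO.AX Filter Topology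
open scoped MatrixGroups

variable {d : ℕ} {S : Cur d}

/-- `Φ(ζ, p)` is analytic on all moved lifts of all branches -/
def AnR (S : Cur d) (Φ : (Fin d → ℂ) → ℂ × ℂ → ℂ) : Prop := ∀ (β : Br S) (γ : Fin d → SL(2, ℤ)),
  AnalyticOnNhd ℂ (fun v => Φ (fun a => mz (γ a).1 (β.z a v)) (β.pt v)) β.U

/-- the relation `Φ = 0` on the lifts of `β` moved by `γ` -/
def RR (Φ : (Fin d → ℂ) → ℂ × ℂ → ℂ) (β : Br S) (γ : Fin d → SL(2, ℤ)) : Prop :=
  ∀ v ∈ β.U, Φ (fun a => mz (γ a).1 (β.z a v)) (β.pt v) = 0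

/-- the values of the lifts of the two branches at the common point, and the relations -/
theorem rr_ovl {Φ : (Fin d → ℂ) → ℂ × ℂ → ℂ} (hΦ : AnR S Φ) (a₀ : Fin d) (β β' : Br S) {w w' : ℂ}
    (hw : w ∈ β.U) (hw' : w' ∈ β'.U) (h : β.pt w = β'.pt w') :
    ∃ κ : Fin d → SL(2, ℤ), (∀ a, β'.z a w' = mz (κ a).1 (β.z a w)) ∧
      ∀ γ', RR Φ β (γ' * κ) ↔ RR Φ β' γ' := by
  obtain ⟨φ, ε, hε, hsub', hφd, hφw, hinj, hall'⟩ := ovl (β.ax a₀) (β'.ax a₀) hw hw' h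
  have hsub : Metric.ball w ε ⊆ β.U := hsub'
  have hall : ∀ v ∈ Metric.ball w ε, φ v ∈ β'.U ∧ β'.pt (φ v) = β.pt v := hall'
  have hwb : w ∈ Metric.ball w ε := Metric.mem_ball_self hε
  have hlift : ∀ a, ∃ γ : SL(2, ℤ), ∀ v ∈ Metric.ball w ε,
      β'.z a (φ v) = mz γ.1 (β.z a v) := by
    intro a
    refine lift_unique (D := Metric.ball w ε) (f := β.z a) (g := fun v => β'.z a (φ v))
      Metric.isOpen_ball (convex_ball w ε).isPreconnected ⟨w, hwb⟩ ((β.zdiff a).mono hsub) ?_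
      (fun v hv => β.zim a (hsub hv)) (fun v hv => β'.zim a (hall v hv).1) ?_
    · exact (β'.zdiff a).comp hφd (fun v hv => (hall v hv).1)
    · intro v hv
      rw [β.jFz a (hsub hv), β'.jFz a (hall v hv).1, (hall v hv).2]
  choose κ hκ using hlift
  refine ⟨κ, fun a => ?_, fun γ' => ?_⟩
  · have h1 := hκ a w hwb
    rwa [hφw] at h1
  · -- the two functions on the disc
    have hrel : ∀ v ∈ Metric.ball w ε, Φ (fun a => mz ((γ' * κ) a).1 (β.z a v)) (β.pt v) =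
        Φ (fun a => mz (γ' a).1 (β'.z a (φ v))) (β'.pt (φ v)) := by
      intro v hv
      rw [(hall v hv).2]
      congr 1
      funext a
      rw [hκ a v hv, Pi.mul_apply, mz_mul_sl _ _ (β.zim a (hsub hv))]
    have hφc : ContinuousAt φ w :=
      (hφd.differentiableAt (Metric.isOpen_ball.mem_nhds hwb)).continuousAt
    constructor
    · intro hG
      have htend : Tendsto φ (𝓝[≠] w) (𝓝[≠] w') := by
        refine tendsto_nhdsWithin_iff.2 ⟨?_, ?_⟩
        · have h1 : Tendsto φ (𝓝 w) (𝓝 (φ w)) := hφc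
          rw [hφw] at h1
          exact h1.mono_left nhdsWithin_le_nhds
        · have h1 : ∀ᶠ v in 𝓝[≠] w, v ∈ Metric.ball w ε :=
            nhdsWithin_le_nhds (Metric.ball_mem_nhds w hε)
          filter_upwards [h1, self_mem_nhdsWithin] with v hv hne
          intro hv2
          rw [Set.mem_singleton_iff, ← hφw] at hv2
          exact hne (hinj hv hwb hv2)
      have hfr : ∃ᶠ z in 𝓝[≠] w', Φ (fun a => mz (γ' a).1 (β'.z a z)) (β'.pt z) = 0 := by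
        refine htend.frequently (Eventually.frequently ?_)
        have h1 : ∀ᶠ v in 𝓝[≠] w, v ∈ Metric.ball w ε :=
          nhdsWithin_le_nhds (Metric.ball_mem_nhds w hε)
        filter_upwards [h1] with v hv
        rw [← hrel v hv]
        exact hG v (hsub hv)
      exact fun v hv => (hΦ β' γ').eqOn_zero_of_preconnected_of_frequently_eq_zero
        β'.convex.isPreconnected hw' hfr hv
    · intro hG
      have hev : (fun v => Φ (fun a => mz ((γ' * κ) a).1 (β.z a v)) (β.pt v)) =ᶠ[𝓝 w] 0 := by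
        filter_upwards [Metric.ball_mem_nhds w hε] with v hv
        rw [hrel v hv]
        exact hG (φ v) (hall v hv).1
      exact fun v hv => (hΦ β (γ' * κ)).eqOn_zero_of_preconnected_of_eventuallyEq_zero
        β.convex.isPreconnected hw hev hv

theorem rr_transport {Φ : (Fin d → ℂ) → ℂ × ℂ → ℂ} (hΦ : AnR S Φ) (a₀ : Fin d) (A : Atl S) (β β' : Br S)
    {γ : Fin d → SL(2, ℤ)} (hγ : RR Φ β γ) : ∃ γ', RR Φ β' γ' := by
  let S' : AX.Cur := (S.ax a₀).rem A.cen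
  have hS' : ∀ p, p ∈ S'.pt ↔ p ∈ S.pt ∧ p.1 ∉ A.cen := fun p => AX.Cur.mem_rem (S.ax a₀) A.cen p
  set P : ℂ × ℂ → Prop := fun p => ∃ β₁ : Br S, ∃ w ∈ β₁.U, β₁.pt w = p ∧ ∃ γ₁, RR Φ β₁ γ₁ with hP
  have key : ∀ (β₁ : Br S) (v : ℂ), v ∈ β₁.U → (P (β₁.pt v) ↔ ∃ γ₁, RR Φ β₁ γ₁) := by
    intro β₁ v hv
    constructor
    · rintro ⟨β₂, w₂, hw₂, h2, γ₂, hγ₂⟩
      obtain ⟨κ, -, hκ⟩ := rr_ovl hΦ a₀ β₁ β₂ hv hw₂ h2.symm
      exact ⟨γ₂ * κ, (hκ γ₂).mpr hγ₂⟩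
    · rintro ⟨γ₁, h1⟩
      exact ⟨β₁, v, hv, rfl, γ₁, h1⟩
  have hLC : LC S' P := by
    intro p hp
    rw [hS'] at hp
    obtain ⟨i, w₁, hw₁, rfl⟩ := cover_mem A hp.1 hp.2
    have h2 := br_nhds ((A.br i).ax a₀) hw₁
    have h3 : 𝓝[S'.pt] ((A.br i).pt w₁) ≤ 𝓝[S.pt] ((A.br i).pt w₁) := by
      refine nhdsWithin_mono _ ?_
      intro q hq
      exact ((hS' _).mp hq).1
    filter_upwards [h3 h2] with p' hp'
    obtain ⟨v, hv, hvp⟩ := hp'
    have hv' : v ∈ (A.br i).U := hv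
    have hvp' : (A.br i).pt v = p' := hvp
    rw [← hvp', key (A.br i) v hv', key (A.br i) w₁ hw₁]
  obtain ⟨w, hw, hwE⟩ := br_avoid (β.ax a₀) A.cen
  obtain ⟨w', hw', hwE'⟩ := br_avoid (β'.ax a₀) A.cen
  have h1 : P (β'.pt w') := by
    refine connected S' hLC (p₀ := β.pt w) ?_ ?_ (β'.pt w') ?_
    · exact (hS' _).mpr ⟨β.ptm hw, hwE⟩
    · exact ⟨β, w, hw, rfl, γ, hγ⟩
    · exact (hS' _).mpr ⟨β'.ptm hw', hwE'⟩
  exact (key β' w' hw').mp h1

/-- functions on the curve from functions on the lifts which are invariant under the monodromy -/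
theorem rr_glob {Φ : (Fin d → ℂ) → ℂ × ℂ → ℂ} (hΦ : AnR S Φ) (a₀ : Fin d) {X : Type} [Inhabited X]
    (Q : (Fin d → ℂ) → X) (hQ : ∀ (β : Br S) (γ δ : Fin d → SL(2, ℤ)), RR Φ β γ → RR Φ β (δ * γ) →
      ∀ ζ : Fin d → ℂ, (∀ a, 0 < (ζ a).im) → Q (fun a => mz (δ a).1 (ζ a)) = Q ζ) :
    ∃ h : ℂ × ℂ → X, ∀ (β : Br S) (γ : Fin d → SL(2, ℤ)), RR Φ β γ →
      ∀ w ∈ β.U, h (β.pt w) = Q (fun a => mz (γ a).1 (β.z a w)) := by
  classical
  have hex : ∀ p : ℂ × ℂ, ∃ x : X, ∀ (β : Br S) (γ : Fin d → SL(2, ℤ)), RR Φ β γ →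
      ∀ w ∈ β.U, β.pt w = p → x = Q (fun a => mz (γ a).1 (β.z a w)) := by
    intro p
    by_cases hp : ∃ (β : Br S) (γ : Fin d → SL(2, ℤ)) (w : ℂ), RR Φ β γ ∧ w ∈ β.U ∧ β.pt w = p
    · obtain ⟨β', γ', w', hI', hw', hp'⟩ := hp
      refine ⟨Q (fun a => mz (γ' a).1 (β'.z a w')), ?_⟩
      intro β γ hI w hw hpw
      obtain ⟨κ, hκ, hv⟩ := rr_ovl hΦ a₀ β β' hw hw' (hpw.trans hp'.symm)
      have hδ : RR Φ β (γ' * κ * γ⁻¹ * γ) := by
        rw [inv_mul_cancel_right]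
        exact (hv γ').mpr hI'
      have hz : ∀ a, 0 < (mz (γ a).1 (β.z a w)).im := fun a => mz_im_sl (γ a) (β.zim a hw)
      rw [← hQ β γ _ hI hδ (fun a => mz (γ a).1 (β.z a w)) hz]
      have h2 : (fun a => mz (γ' a).1 (β'.z a w')) =
          fun a => mz ((γ' * κ * γ⁻¹) a).1 (mz (γ a).1 (β.z a w)) := by
        funext a
        rw [hκ a, ← mz_mul_sl _ _ (β.zim a hw), ← mz_mul_sl _ _ (β.zim a hw)]
        have h3 : (γ' * κ * γ⁻¹) a * γ a = γ' a * κ a := by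
          simp only [Pi.mul_apply, Pi.inv_apply, inv_mul_cancel_right]
        rw [h3]
      rw [h2]
    · refine ⟨default, ?_⟩
      intro β γ hI w hw hpw
      exact absurd ⟨β, γ, w, hI, hw, hpw⟩ hp
  choose h hh using hex
  exact ⟨h, fun β γ hI w hw => hh _ β γ hI w hw rfl⟩

theorem rr_hol {Φ : (Fin d → ℂ) → ℂ × ℂ → ℂ} (hΦ : AnR S Φ) (A : Atl S) {β₀ : Br S}
    {γ₀ : Fin d → SL(2, ℤ)} (hI₀ : RR Φ β₀ γ₀) (a : Fin d) {q : ℂ → ℂ}
    (hq : DifferentiableOn ℂ q {z : ℂ | 0 < z.im}) {h : ℂ × ℂ → ℂ}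
    (hh : ∀ (β : Br S) (γ : Fin d → SL(2, ℤ)), RR Φ β γ → ∀ w ∈ β.U,
      h (β.pt w) = q (mz (γ a).1 (β.z a w))) : Hol ((S.ax a).rem A.cen) h := by
  intro Ω y hΩ hy hp T₀ hT₀
  have hS' : ∀ p, p ∈ ((S.ax a).rem A.cen).pt ↔ p ∈ S.pt ∧ p.1 ∉ A.cen :=
    fun p => AX.Cur.mem_rem (S.ax a) A.cen p
  have hp' : ∀ T ∈ Ω, (T, y T) ∈ S.pt := fun T hT => ((hS' _).mp (hp T hT)).1
  have hc : T₀ ∉ A.cen := ((hS' _).mp (hp T₀ hT₀)).2
  obtain ⟨i, w, hw, h2⟩ := cover_mem A (hp' T₀ hT₀) hc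
  obtain ⟨v, ε, hε, hsub, hvd, hvT, hv'⟩ := sec_param ((A.br i).ax a) hw hΩ hy hp' hT₀ h2
  have hv : ∀ T ∈ Metric.ball T₀ ε, v T ∈ (A.br i).U ∧ (A.br i).pt (v T) = (T, y T) := hv'
  obtain ⟨γ', hγ'⟩ := rr_transport hΦ a A β₀ (A.br i) hI₀
  have hT₀b : T₀ ∈ Metric.ball T₀ ε := Metric.mem_ball_self hε
  have hdet : ((γ' a).1).det ≠ 0 := by
    rw [(γ' a).2]
    exact one_ne_zero
  have d1 : DifferentiableOn ℂ (fun T => (A.br i).z a (v T)) (Metric.ball T₀ ε) :=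
    ((A.br i).zdiff a).comp hvd (fun T hT => (hv T hT).1)
  have d2 : DifferentiableOn ℂ (fun T => mz (γ' a).1 ((A.br i).z a (v T))) (Metric.ball T₀ ε) :=
    (mz_diff hdet).comp d1 (fun T hT => (A.br i).zim a (hv T hT).1)
  have d3 : DifferentiableOn ℂ (fun T => q (mz (γ' a).1 ((A.br i).z a (v T)))) (Metric.ball T₀ ε) :=
    hq.comp d2 (fun T hT => mz_im_sl (γ' a) ((A.br i).zim a (hv T hT).1))
  have d4 : DifferentiableAt ℂ (fun T => q (mz (γ' a).1 ((A.br i).z a (v T)))) T₀ :=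
    d3.differentiableAt (Metric.isOpen_ball.mem_nhds hT₀b)
  have hev : (fun T => h (T, y T)) =ᶠ[nhds T₀] fun T => q (mz (γ' a).1 ((A.br i).z a (v T))) := by
    filter_upwards [Metric.isOpen_ball.mem_nhds hT₀b] with T hT
    rw [← (hv T hT).2]
    exact hh (A.br i) γ' hγ' (v T) (hv T hT).1
  exact (hev.differentiableAt_iff.mpr d4).differentiableWithinAt

/-- an upper triangular element is a translation -/
private theorem FamR_exp (δ : SL(2, ℤ)) (h : δ.1 1 0 = 0) (z : ℂ) :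
    Complex.exp (2 * Real.pi * Complex.I * mz δ.1 z) = Complex.exp (2 * Real.pi * Complex.I * z) := by
  have hd : δ.1 0 0 * δ.1 1 1 = 1 := by
    have h1 := δ.2
    rw [Matrix.det_fin_two, h, mul_zero, sub_zero] at h1
    exact h1
  have h2 : ∃ n : ℤ, mz δ.1 z = z + n := by
    rcases Int.mul_eq_one_iff_eq_one_or_neg_one.mp hd with ⟨h3, h4⟩ | ⟨h3, h4⟩
    · refine ⟨δ.1 0 1, ?_⟩
      rw [mz, h, h3, h4]
      simp
    · refine ⟨-δ.1 0 1, ?_⟩
      rw [mz, h, h3, h4]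
      push_cast
      field_simp
      ring
  obtain ⟨n, hn⟩ := h2
  rw [hn, Complex.exp_eq_exp_iff_exists_int]
  exact ⟨n, by ring⟩

private theorem FamR_norm {z : ℂ} (hz : 0 < z.im) : ‖Complex.exp (2 * Real.pi * Complex.I * z)‖ ≤ 1 := by
  rw [Complex.norm_exp]
  have h1 : (2 * Real.pi * Complex.I * z).re = -(2 * Real.pi * z.im) := by
    have h2 : (2 * Real.pi * Complex.I * z) = ((2 * Real.pi : ℝ) : ℂ) * (Complex.I * z) := by
      push_cast
      ring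
    rw [h2, Complex.re_ofReal_mul, Complex.I_mul_re]
    ring
  rw [h1, Real.exp_le_one_iff]
  have h3 : 0 < 2 * Real.pi * z.im := by positivity
  linarith

/-- the inverse of the local coordinate -/
private noncomputable def FamR_q (o : Option ℂ) (T : ℂ) : ℂ := o.elim T⁻¹ (fun c => T - c)

private theorem FamR_q_Tp (o : Option ℂ) (s : ℂ) : FamR_q o (Tp o s) = s := by
  cases o with
  | none => simp [FamR_q, Tp]
  | some c => simp [FamR_q, Tp]

/-- **an element of the monodromy which moves the cusp** -/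
theorem rr_c {Φ : (Fin d → ℂ) → ℂ × ℂ → ℂ} (hΦ : AnR S Φ) (A : Atl S) {β : Br S} (hβ : RR Φ β 1)
    {a : Fin d} (he : 0 < β.e a) : ∃ (β' : Br S) (γ δ : Fin d → SL(2, ℤ)),
      RR Φ β' γ ∧ RR Φ β' (δ * γ) ∧ (δ a).1 1 0 ≠ 0 := by
  by_contra hcon
  push Not at hcon
  have hS' : ∀ p, p ∈ ((S.ax a).rem A.cen).pt ↔ p ∈ S.pt ∧ p.1 ∉ A.cen :=
    fun p => AX.Cur.mem_rem (S.ax a) A.cen p
  obtain ⟨h, hh⟩ := rr_glob hΦ a (fun ζ : Fin d → ℂ => Complex.exp (2 * Real.pi * Complex.I * ζ a)) (by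
      intro β₁ γ δ h1 h2 ζ _
      exact FamR_exp (δ a) (hcon β₁ γ δ h1 h2) (ζ a))
  have hhol : Hol ((S.ax a).rem A.cen) h := by
    refine rr_hol hΦ A hβ a (q := fun z => Complex.exp (2 * Real.pi * Complex.I * z)) ?_ hh
    have h1 : Differentiable ℂ (fun z : ℂ => Complex.exp (2 * Real.pi * Complex.I * z)) := by fun_prop
    exact h1.differentiableOn
  have hfin := liouville ((S.ax a).rem A.cen) (h := h) ⟨1, by
    intro p hp
    rw [hS'] at hp
    obtain ⟨i, w, hw, rfl⟩ := cover_mem A hp.1 hp.2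
    obtain ⟨γ', hγ'⟩ := rr_transport hΦ a A β (A.br i) hβ
    rw [hh (A.br i) γ' hγ' w hw]
    exact FamR_norm (mz_im_sl (γ' a) ((A.br i).zim a hw))⟩ hhol
  -- the points `w = -n`
  set t : ℕ → ℂ := fun n => Complex.exp (-(n : ℂ)) with ht
  have htn : ∀ n : ℕ, ‖t n‖ = Real.exp (-(n : ℝ)) := by
    intro n
    change ‖Complex.exp (-(n : ℂ))‖ = _
    rw [Complex.norm_exp, Complex.neg_re, Complex.natCast_re]
  have htend : Tendsto t atTop (𝓝 0) := by
    rw [tendsto_zero_iff_norm_tendsto_zero]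
    have h1 : Tendsto (fun n : ℕ => Real.exp (-(n : ℝ))) atTop (𝓝 0) :=
      Real.tendsto_exp_neg_atTop_nhds_zero.comp tendsto_natCast_atTop_atTop
    exact h1.congr (fun n => (htn n).symm)
  have hU : ∀ᶠ n : ℕ in atTop, (-(n : ℂ)) ∈ β.U := by
    have h1 : ∀ᶠ n : ℕ in atTop, t n ∈ Metric.ball (0 : ℂ) β.r :=
      htend.eventually_mem (Metric.ball_mem_nhds _ β.r_pos)
    filter_upwards [h1] with n hn
    rw [mem_ball_zero_iff, htn] at hn
    change Real.exp ((-(n : ℂ)).re) < β.r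
    rw [Complex.neg_re, Complex.natCast_re]
    exact hn
  have hinj : Function.Injective (fun n : ℕ => (β.pt (-(n : ℂ))).1) := by
    intro n k hnk
    have h1 : t n ^ β.m = t k ^ β.m := by
      have h2 := congrArg (FamR_q β.o) hnk
      change FamR_q β.o (Tp β.o (t n ^ β.m)) = FamR_q β.o (Tp β.o (t k ^ β.m)) at h2
      rwa [FamR_q_Tp, FamR_q_Tp] at h2
    have h3 := congrArg norm h1
    rw [norm_pow, norm_pow, htn, htn] at h3
    have h4 := (pow_left_inj₀ (Real.exp_pos _).le (Real.exp_pos _).le β.m_pos.ne').mp h3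
    have h5 := Real.exp_injective h4
    have h6 : (n : ℝ) = k := by linarith
    exact_mod_cast h6
  have hE : ∀ᶠ n : ℕ in atTop, (β.pt (-(n : ℂ))).1 ∉ A.cen := by
    rw [← Nat.cofinite_eq_atTop]
    have h1 : {n : ℕ | ¬ (β.pt (-(n : ℂ))).1 ∉ A.cen}.Finite := by
      have h2 : ((fun n : ℕ => (β.pt (-(n : ℂ))).1) ⁻¹' (A.cen : Set ℂ)).Finite :=
        A.cen.finite_toSet.preimage hinj.injOn
      refine h2.subset ?_
      intro n hn
      exact not_not.mp hn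
    exact h1
  have hval : ∀ n : ℕ, Complex.exp (2 * Real.pi * Complex.I * β.z a (-(n : ℂ))) =
      t n ^ β.e a * Complex.exp (2 * Real.pi * Complex.I * β.ψ a (t n)) := by
    intro n
    rw [Br.z, zz, mul_add, Complex.exp_add]
    congr 1
    rw [ht, ← Complex.exp_nat_mul]
    congr 1
    have h1 : (2 * Real.pi * Complex.I : ℂ) ≠ 0 := Complex.two_pi_I_ne_zero
    field_simp
  have hlim : Tendsto (fun n : ℕ => Complex.exp (2 * Real.pi * Complex.I * β.z a (-(n : ℂ)))) atTop (𝓝 0) := by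
    have h0 : (0 : ℂ) ∈ Metric.ball (0 : ℂ) β.r := Metric.mem_ball_self β.r_pos
    have h1 : ContinuousAt (β.ψ a) 0 :=
      ((β.dψ a).differentiableAt (Metric.isOpen_ball.mem_nhds h0)).continuousAt
    have h2 : Tendsto (fun n => β.ψ a (t n)) atTop (𝓝 (β.ψ a 0)) := h1.tendsto.comp htend
    have h3 : Tendsto (fun n => Complex.exp (2 * Real.pi * Complex.I * β.ψ a (t n))) atTop
        (𝓝 (Complex.exp (2 * Real.pi * Complex.I * β.ψ a 0))) :=
      (Complex.continuous_exp.tendsto _).comp (h2.const_mul _)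
    have h4 : Tendsto (fun n => t n ^ β.e a) atTop (𝓝 0) := by
      have h5 := htend.pow (β.e a)
      rwa [zero_pow he.ne'] at h5
    have h5 := h4.mul h3
    rw [zero_mul] at h5
    exact h5.congr (fun n => (hval n).symm)
  have hmem : ∀ᶠ n : ℕ in atTop, Complex.exp (2 * Real.pi * Complex.I * β.z a (-(n : ℂ))) ∈
      {z : ℂ | ∃ p ∈ ((S.ax a).rem A.cen).pt, z = h p} \ {0} := by
    filter_upwards [hU, hE] with n hn1 hn2
    refine ⟨⟨β.pt (-(n : ℂ)), (hS' _).mpr ⟨β.ptm hn1, hn2⟩, ?_⟩, Complex.exp_ne_zero _⟩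
    rw [hh β 1 hβ _ hn1]
    change _ = Complex.exp (2 * Real.pi * Complex.I * mz (1 : SL(2, ℤ)).1 (β.z a (-(n : ℂ))))
    rw [mz_one]
  have hcl := (hfin.subset (Set.sdiff_subset (t := {0}))).isClosed.mem_of_tendsto hlim hmem
  exact hcl.2 rfl

end Pool.Agent.LGO.AXG
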