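import Mathlib
import Pool.Agent.LGO.AXG.Stab

/-!
# LGO/AXG: polynomial vector fields which preserve an ideal of relations

`HV I`: the vectors `v` of polynomials in one variable such that `∑ v a (Z a) ∂ / ∂ Z a` maps `I` into `I`.
`HV_brk`: closed under brackets.  `HV_cusp`: for the ideal of `cv β γ` the field `e a (p a - r a Z) ^ 2` is in `HV I`
(it generates the unipotent group `γ T ^ (t e) γ⁻¹`, and `z (w + 2 π i n) = z w + n e`).
-/

namespace Pool.Agent.LGO.AXG

open Polynomial Pool.Agent.LGO Pool.Agent.LGO.AX Filter Topology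
open scoped MatrixGroups
open MvPolynomial (vanishingIdeal pderiv)

variable {d : ℕ}

/-- the vector field `∑ v a (Z a) ∂ / ∂ Z a` -/
noncomputable def vf (v : Fin d → ℂ[X]) : Derivation ℂ (MvPolynomial (Fin d) ℂ) (MvPolynomial (Fin d) ℂ) :=
  MvPolynomial.mkDerivation ℂ (fun a => aeval (MvPolynomial.X a) (v a))

theorem vf_X (v : Fin d → ℂ[X]) (a : Fin d) : vf v (MvPolynomial.X a) = aeval (MvPolynomial.X a) (v a) :=
  MvPolynomial.mkDerivation_X _ _ _

/-- the bracket -/
noncomputable def brk (u v : Fin d → ℂ[X]) : Fin d → ℂ[X] := fun a =>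
  u a * derivative (v a) - v a * derivative (u a)

theorem vf_brk (u v : Fin d → ℂ[X]) : vf (brk u v) = ⁅vf u, vf v⁆ := by
  refine MvPolynomial.derivation_ext fun a => ?_
  rw [Derivation.commutator_apply, vf_X, vf_X, vf_X, Derivation.map_aeval, Derivation.map_aeval, vf_X, vf_X,
    brk, map_sub, map_mul, map_mul, smul_eq_mul, smul_eq_mul]
  ring

/-- the vectors of polynomials whose vector field preserves an ideal -/
def HV (I : Ideal (MvPolynomial (Fin d) ℂ)) : Set (Fin d → ℂ[X]) := {v | ∀ G ∈ I, vf v G ∈ I}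

theorem HV_brk {I : Ideal (MvPolynomial (Fin d) ℂ)} {u v : Fin d → ℂ[X]} (hu : u ∈ HV I) (hv : v ∈ HV I) :
    brk u v ∈ HV I := by
  intro G hG
  rw [vf_brk, Derivation.commutator_apply]
  exact I.sub_mem (hu _ (hv _ hG)) (hv _ (hu _ hG))

theorem vf_eq (v : Fin d → ℂ[X]) (G : MvPolynomial (Fin d) ℂ) :
    vf v G = ∑ a, aeval (MvPolynomial.X a) (v a) * pderiv a G := by
  classical
  induction G using MvPolynomial.induction_on with
  | C x =>
    rw [MvPolynomial.derivation_C]
    simp only [MvPolynomial.pderiv_C, mul_zero, Finset.sum_const_zero]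
  | add p q hp hq =>
    simp only [map_add, mul_add, Finset.sum_add_distrib]
    rw [hp, hq]
  | mul_X p b hp =>
    rw [Derivation.leibniz, vf_X, hp]
    simp only [MvPolynomial.pderiv_mul, mul_add, Finset.sum_add_distrib, smul_eq_mul]
    rw [add_comm]
    congr 1
    · rw [Finset.mul_sum]
      exact Finset.sum_congr rfl fun a _ => by ring
    · rw [Finset.sum_eq_single b]
      · rw [MvPolynomial.pderiv_X_self]
        ring
      · intro a _ hab
        rw [MvPolynomial.pderiv_X_of_ne hab.symm, mul_zero, mul_zero]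
      · intro h
        exact absurd (Finset.mem_univ b) h

theorem vf_single {v : Fin d → ℂ[X]} {a : Fin d} (h : ∀ b, b ≠ a → v b = 0) (G : MvPolynomial (Fin d) ℂ) :
    vf v G = aeval (MvPolynomial.X a) (v a) * pderiv a G := by
  rw [vf_eq, Finset.sum_eq_single a]
  · intro b _ hb
    rw [h b hb, map_zero, zero_mul]
  · intro h
    exact absurd (Finset.mem_univ a) h

theorem eval_vf (v : Fin d → ℂ[X]) (G : MvPolynomial (Fin d) ℂ) (ζ : Fin d → ℂ) :
    MvPolynomial.eval ζ (vf v G) = ∑ a, (v a).eval (ζ a) * MvPolynomial.eval ζ (pderiv a G) := by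
  rw [vf_eq, map_sum]
  refine Finset.sum_congr rfl fun a _ => ?_
  rw [map_mul]
  congr 1
  have h := Polynomial.hom_eval₂ (v a) (algebraMap ℂ (MvPolynomial (Fin d) ℂ)) (MvPolynomial.eval ζ)
    (MvPolynomial.X a)
  rw [aeval_def, h, MvPolynomial.eval_X]
  have h2 : (MvPolynomial.eval ζ).comp (algebraMap ℂ (MvPolynomial (Fin d) ℂ)) = RingHom.id ℂ := by
    ext c <;> simp [MvPolynomial.algebraMap_eq]
  rw [h2, eval₂_id]

/-- chain rule -/
theorem hasDerivAt_eval (G : MvPolynomial (Fin d) ℂ) {c : Fin d → ℂ → ℂ} {c' : Fin d → ℂ} {t : ℂ}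
    (h : ∀ a, HasDerivAt (c a) (c' a) t) : HasDerivAt (fun s => MvPolynomial.eval (fun a => c a s) G)
      (∑ a, c' a * MvPolynomial.eval (fun a => c a t) (pderiv a G)) t := by
  classical
  induction G using MvPolynomial.induction_on with
  | C x =>
    simp only [MvPolynomial.eval_C, MvPolynomial.pderiv_C, map_zero, mul_zero, Finset.sum_const_zero]
    exact hasDerivAt_const t x
  | add p q hp hq =>
    simp only [map_add, mul_add, Finset.sum_add_distrib]
    exact hp.add hq
  | mul_X p b hp =>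
    have h1 := hp.mul (h b)
    simp only [map_mul, MvPolynomial.eval_X]
    have h2 : (∑ a, c' a * MvPolynomial.eval (fun a => c a t) (pderiv a (p * MvPolynomial.X b))) =
        (∑ a, c' a * MvPolynomial.eval (fun a => c a t) (pderiv a p)) * c b t +
          MvPolynomial.eval (fun a => c a t) p * c' b := by
      simp only [MvPolynomial.pderiv_mul, map_add, map_mul, MvPolynomial.eval_X, mul_add,
        Finset.sum_add_distrib, Finset.sum_mul]
      congr 1
      · exact Finset.sum_congr rfl fun a _ => by ring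
      · rw [Finset.sum_eq_single b]
        · rw [MvPolynomial.pderiv_X_self, map_one]
          ring
        · intro a _ hab
          rw [MvPolynomial.pderiv_X_of_ne hab.symm, map_zero]
          ring
        · intro h
          exact absurd (Finset.mem_univ b) h
    rw [h2]
    exact h1

variable {S : Cur d}

/-- the field of a cusp -/
noncomputable def cf (β : Br S) (γ : Fin d → SL(2, ℤ)) : Fin d → ℂ[X] := fun a =>
  C (β.e a : ℂ) * (C ((γ a).1 0 0 : ℂ) - C ((γ a).1 1 0 : ℂ) * X) ^ 2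

private theorem mz_deriv (g : SL(2, ℤ)) {z e : ℂ} (hz : 0 < z.im) :
    HasDerivAt (fun t : ℂ => mz g.1 (z + t * e))
      (e * (((g.1 0 0 : ℂ)) - (g.1 1 0 : ℂ) * mz g.1 z) ^ 2) 0 := by
  have hne : (g.1 1 0 : ℂ) * z + (g.1 1 1 : ℂ) ≠ 0 := mz_den_ne (Mz_det g).ne' hz
  have hdet : (g.1 0 0 : ℂ) * (g.1 1 1 : ℂ) - (g.1 0 1 : ℂ) * (g.1 1 0 : ℂ) = 1 := by
    have h := g.2
    rw [Matrix.det_fin_two] at h
    exact_mod_cast h
  have h0 : HasDerivAt (fun t : ℂ => z + t * e) e 0 := by
    simpa using ((hasDerivAt_id (0 : ℂ)).mul_const e).const_add z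
  have h1 : HasDerivAt (fun t : ℂ => (g.1 0 0 : ℂ) * (z + t * e) + (g.1 0 1 : ℂ)) ((g.1 0 0 : ℂ) * e) 0 :=
    (h0.const_mul _).add_const _
  have h2 : HasDerivAt (fun t : ℂ => (g.1 1 0 : ℂ) * (z + t * e) + (g.1 1 1 : ℂ)) ((g.1 1 0 : ℂ) * e) 0 :=
    (h0.const_mul _).add_const _
  have hne' : (g.1 1 0 : ℂ) * (z + 0 * e) + (g.1 1 1 : ℂ) ≠ 0 := by simpa using hne
  have h3 := h1.div h2 hne'
  refine h3.congr_deriv ?_
  rw [mz, zero_mul, add_zero]
  have h4 : (g.1 0 0 : ℂ) - (g.1 1 0 : ℂ) * (((g.1 0 0 : ℂ) * z + (g.1 0 1 : ℂ)) /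
      ((g.1 1 0 : ℂ) * z + (g.1 1 1 : ℂ))) = 1 / ((g.1 1 0 : ℂ) * z + (g.1 1 1 : ℂ)) := by
    rw [eq_div_iff hne, sub_mul, mul_assoc, div_mul_cancel₀ _ hne]
    linear_combination hdet
  rw [h4, div_pow, one_pow, div_eq_iff (pow_ne_zero 2 hne), mul_one_div, div_mul_cancel₀ _ (pow_ne_zero 2 hne)]
  linear_combination e * hdet

theorem HV_cusp (β : Br S) (γ : Fin d → SL(2, ℤ)) : cf β γ ∈ HV (vanishingIdeal ℂ (cv β γ)) := by
  intro G hG
  rw [MvPolynomial.mem_vanishingIdeal_iff] at hG ⊢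
  rintro ζ ⟨w, hw, rfl⟩
  change MvPolynomial.eval _ _ = 0
  have hG' : ∀ v ∈ β.U, MvPolynomial.eval (fun a => mz (γ a).1 (β.z a v)) G = 0 :=
    fun v hv => hG _ ⟨v, hv, rfl⟩
  rw [eval_vf]
  -- the numerator
  obtain ⟨H, N, hH⟩ := exists_num G γ
  set P : ℂ[X] := MvPolynomial.aeval (fun a => C (β.z a w) + X * C (β.e a : ℂ)) H with hP
  have hPe : ∀ t : ℂ, P.eval t = MvPolynomial.eval (fun a => β.z a w + t * β.e a) H := by
    intro t
    rw [hP, ← Polynomial.coe_evalRingHom, MvPolynomial.aeval_def, MvPolynomial.hom_eval₂]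
    rw [MvPolynomial.eval, MvPolynomial.coe_eval₂Hom]
    congr 1
    · ext c
      simp
    · funext a
      simp
  have hPn : ∀ n : ℕ, P.eval (n : ℂ) = 0 := by
    intro n
    have h1 : ∀ a, β.z a w + (n : ℂ) * β.e a = β.z a (w + 2 * Real.pi * Complex.I * (n : ℤ)) := by
      intro a
      rw [β.zshift]
      push_cast
      ring
    rw [hPe]
    simp only [h1]
    rw [hH _ (fun a => β.zim a (β.shift hw n)), hG' _ (β.shift hw n), mul_zero]
  have hP0 : P = 0 := by
    refine Polynomial.eq_zero_of_infinite_isRoot P ?_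
    refine Set.infinite_of_injective_forall_mem (f := fun n : ℕ => (n : ℂ)) Nat.cast_injective ?_
    intro n
    exact hPn n
  -- near `t = 0`
  have him : ∀ᶠ t : ℂ in 𝓝 0, ∀ a, 0 < (β.z a w + t * β.e a).im := by
    rw [Filter.eventually_all]
    intro a
    have hc : Continuous fun t : ℂ => (β.z a w + t * β.e a).im := by fun_prop
    refine hc.continuousAt.eventually (lt_mem_nhds ?_)
    change 0 < (β.z a w + 0 * β.e a).im
    rw [zero_mul, add_zero]
    exact β.zim a hw
  have hev : (fun t : ℂ => MvPolynomial.eval (fun a => mz (γ a).1 (β.z a w + t * β.e a)) G) =ᶠ[𝓝 0]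
      fun _ => 0 := by
    filter_upwards [him] with t ht
    have h1 := hH _ ht
    rw [← hPe, hP0, eval_zero] at h1
    refine (mul_eq_zero.mp h1.symm).resolve_left (pow_ne_zero _ ?_)
    exact Finset.prod_ne_zero_iff.2 fun a _ => mz_den_ne (Mz_det (γ a)).ne' (ht a)
  have hd := hasDerivAt_eval G (t := 0) (c := fun a t => mz (γ a).1 (β.z a w + t * β.e a))
    (fun a => mz_deriv (γ a) (e := (β.e a : ℂ)) (β.zim a hw))
  have hd0 := hd.unique ((hasDerivAt_const (0 : ℂ) (0 : ℂ)).congr_of_eventuallyEq hev)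
  rw [← hd0]
  refine Finset.sum_congr rfl fun a _ => ?_
  simp only [zero_mul, add_zero]
  congr 1
  rw [cf]
  simp

private theorem coeff_iter (a : Fin d) (G : MvPolynomial (Fin d) ℂ) : ∀ (k : ℕ) (m : Fin d →₀ ℕ),
    ∃ c : ℂ, ((pderiv a)^[k] G).coeff m = G.coeff (m + Finsupp.single a k) * c := by
  intro k
  induction k with
  | zero =>
    intro m
    refine ⟨1, ?_⟩
    simp
  | succ k ih =>
    intro m
    rw [Function.iterate_succ_apply', MvPolynomial.coeff_pderiv]
    obtain ⟨c, hc⟩ := ih (m + Finsupp.single a 1)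
    refine ⟨c * (m a + 1), ?_⟩
    rw [hc, add_assoc, ← Finsupp.single_add, add_comm 1 k]
    ring

/-- the derivative by `Z a` is locally nilpotent -/
theorem pderiv_nil (a : Fin d) (G : MvPolynomial (Fin d) ℂ) : ∃ k, (pderiv a)^[k] G = 0 := by
  refine ⟨G.degreeOf a + 1, ?_⟩
  ext m
  obtain ⟨c, hc⟩ := coeff_iter a G (G.degreeOf a + 1) m
  rw [hc, MvPolynomial.coeff_zero]
  have h : G.coeff (m + Finsupp.single a (G.degreeOf a + 1)) = 0 := by
    by_contra hne
    have h1 := MvPolynomial.monomial_le_degreeOf a (MvPolynomial.mem_support_iff.mpr hne)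
    rw [Finsupp.add_apply, Finsupp.single_eq_same] at h1
    omega
  rw [h, zero_mul]

/-- a polynomial with `∂ G / ∂ Z a = 0` does not involve `Z a` -/
theorem notMem_vars (a : Fin d) {G : MvPolynomial (Fin d) ℂ} (h : pderiv a G = 0) : a ∉ G.vars := by
  classical
  intro ha
  rw [MvPolynomial.mem_vars] at ha
  obtain ⟨s, hs, hsa⟩ := ha
  have h1 : s a ≠ 0 := by
    rwa [Finsupp.mem_support_iff] at hsa
  have h2 := MvPolynomial.coeff_pderiv (i := a) G (s - Finsupp.single a 1)
  have h3 : s - Finsupp.single a 1 + Finsupp.single a 1 = s := by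
    refine tsub_add_cancel_of_le ?_
    rw [Finsupp.single_le_iff]
    omega
  rw [h, MvPolynomial.coeff_zero, h3] at h2
  have h4 := (mul_eq_zero.mp h2.symm).resolve_left (MvPolynomial.mem_support_iff.mp hs)
  exact Nat.cast_add_one_ne_zero _ h4

end Pool.Agent.LGO.AXG
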