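import Mathlib
import Pool.Agent.LGO.AXG.StbC
import Pool.Agent.LGO.AXG.VF

/-!
# LGO/AXG: two components of the vector fields which determine each other

`minG`: `v ∈ HV I` with the smallest support, `a ≠ b` in the support: `ℓ ∈ HV I` with `ℓ a = 0` has `ℓ b = 0`.
`gou`: then there is an integral matrix `M` of positive determinant which maps the fields of the cusps of the component `a` to
those of the component `b` (up to the factor `det M`), and `M δ a = ± δ b M` for `δ ∈ Stb I`.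
-/

namespace Pool.Agent.LGO.AXG

open Polynomial Pool.Agent.LGO Pool.Agent.LGO.AX
open scoped MatrixGroups
open MvPolynomial (vanishingIdeal pderiv)

variable {d : ℕ}

theorem HV_add {I : Ideal (MvPolynomial (Fin d) ℂ)} {u v : Fin d → ℂ[X]} (hu : u ∈ HV I) (hv : v ∈ HV I) :
    (fun a => u a + v a) ∈ HV I := by
  intro G hG
  have h : vf (fun a => u a + v a) G = vf u G + vf v G := by
    rw [vf_eq, vf_eq, vf_eq, ← Finset.sum_add_distrib]
    refine Finset.sum_congr rfl fun a _ => ?_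
    rw [map_add]
    ring
  rw [h]
  exact I.add_mem (hu G hG) (hv G hG)

theorem HV_smul {I : Ideal (MvPolynomial (Fin d) ℂ)} (c : ℂ) {u : Fin d → ℂ[X]} (hu : u ∈ HV I) :
    (fun a => C c * u a) ∈ HV I := by
  intro G hG
  have h : vf (fun a => C c * u a) G = MvPolynomial.C c * vf u G := by
    rw [vf_eq, vf_eq, Finset.mul_sum]
    refine Finset.sum_congr rfl fun a _ => ?_
    rw [map_mul, aeval_C, MvPolynomial.algebraMap_eq]
    ring
  rw [h]
  exact I.mul_mem_left _ (hu G hG)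

/-- polynomials with Wronskian `0` are proportional -/
private theorem prop_of {p q : ℂ[X]} (hp : p ≠ 0) (h : p * derivative q - q * derivative p = 0) :
    ∃ c : ℂ, q = C c * p := by
  classical
  set g := EuclideanDomain.gcd p q with hg
  have hg0 : g ≠ 0 := by
    intro h0
    rw [hg, EuclideanDomain.gcd_eq_zero_iff] at h0
    exact hp h0.1
  obtain ⟨p1, hp1⟩ : g ∣ p := EuclideanDomain.gcd_dvd_left p q
  obtain ⟨q1, hq1⟩ : g ∣ q := EuclideanDomain.gcd_dvd_right p q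
  have hcop : IsCoprime p1 q1 := by
    have h1 := EuclideanDomain.gcd_eq_gcd_ab p q
    refine ⟨EuclideanDomain.gcdA p q, EuclideanDomain.gcdB p q, ?_⟩
    refine mul_left_cancel₀ hg0 ?_
    rw [mul_one]
    calc g * (EuclideanDomain.gcdA p q * p1 + EuclideanDomain.gcdB p q * q1) =
        (g * p1) * EuclideanDomain.gcdA p q + (g * q1) * EuclideanDomain.gcdB p q := by ring
      _ = p * EuclideanDomain.gcdA p q + q * EuclideanDomain.gcdB p q := by rw [← hp1, ← hq1]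
      _ = g := h1.symm
  have hw : p1 * derivative q1 - derivative p1 * q1 = 0 := by
    have h2 : g ^ 2 * (p1 * derivative q1 - derivative p1 * q1) = 0 := by
      rw [← h]
      conv_rhs => rw [hp1, hq1]
      rw [derivative_mul, derivative_mul]
      ring
    exact (mul_eq_zero.mp h2).resolve_left (pow_ne_zero 2 hg0)
  obtain ⟨h3, h4⟩ := hcop.wronskian_eq_zero_iff.mp hw
  have h5 := eq_C_of_derivative_eq_zero h3
  have h6 := eq_C_of_derivative_eq_zero h4
  set x := p1.coeff 0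
  set y := q1.coeff 0
  have hx : x ≠ 0 := by
    intro h0
    rw [h0, C_0] at h5
    rw [h5, mul_zero] at hp1
    exact hp hp1
  refine ⟨y / x, ?_⟩
  rw [hp1, hq1, h5, h6]
  have h7 : C (y / x) * C x = C y := by
    rw [← C_mul, div_mul_cancel₀ _ hx]
  rw [← h7]
  ring

/-- the bracket of two squares -/
theorem brk_sq (e x y p r : ℂ) :
    (C e * (C x - C y * X) ^ 2) * derivative (C e * (C p - C r * X) ^ 2) -
      (C e * (C p - C r * X) ^ 2) * derivative (C e * (C x - C y * X) ^ 2) =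
    C (-2 * e ^ 2 * (x * r - y * p)) * ((C x - C y * X) * (C p - C r * X)) := by
  simp only [derivative_mul, derivative_C, derivative_pow, derivative_sub, derivative_X, C_mul, C_sub, C_neg,
    C_pow, C_ofNat, Nat.cast_ofNat]
  ring

/-- the bracket of a square and a product -/
theorem brk_sp (e k x y p r : ℂ) :
    (C e * (C x - C y * X) ^ 2) * derivative (C k * ((C x - C y * X) * (C p - C r * X))) -
      (C k * ((C x - C y * X) * (C p - C r * X))) * derivative (C e * (C x - C y * X) ^ 2) =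
    C (-(e * k * (x * r - y * p))) * (C x - C y * X) ^ 2 := by
  simp only [derivative_mul, derivative_C, derivative_pow, derivative_sub, derivative_X, C_mul, C_sub, C_neg,
    C_ofNat, Nat.cast_ofNat]
  ring

private theorem lin_ne {x y : ℂ} (h : x ≠ 0 ∨ y ≠ 0) : (C x - C y * X : ℂ[X]) ≠ 0 := by
  intro h0
  have h1 : x = 0 := by
    have := congrArg (fun q : ℂ[X] => q.eval 0) h0
    simpa using this
  have h2 : y = 0 := by
    have := congrArg (fun q : ℂ[X] => q.eval 1) h0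
    simpa [h1] using this
  rcases h with h | h
  · exact h h1
  · exact h h2

private theorem ne_of_det {x y p r : ℂ} (h : x * r - y * p ≠ 0) : x ≠ 0 ∨ y ≠ 0 := by
  by_contra hcon
  push Not at hcon
  apply h
  rw [hcon.1, hcon.2]
  ring

private theorem ne_of_det' {x y p r : ℂ} (h : x * r - y * p ≠ 0) : p ≠ 0 ∨ r ≠ 0 := by
  by_contra hcon
  push Not at hcon
  apply h
  rw [hcon.1, hcon.2]
  ring

/-- no common eigenvector of two cusp fields -/
private theorem eig {f : ℂ[X]} (hf : f ≠ 0) {e x y p r l m : ℂ} (he : e ≠ 0) (hd : x * r - y * p ≠ 0)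
    (h1 : (C e * (C x - C y * X) ^ 2) * derivative f - f * derivative (C e * (C x - C y * X) ^ 2) = C l * f)
    (h2 : (C e * (C p - C r * X) ^ 2) * derivative f - f * derivative (C e * (C p - C r * X) ^ 2) = C m * f) :
    False := by
  set s : ℂ[X] := C x - C y * X with hs
  set t : ℂ[X] := C p - C r * X with ht
  have hs0 : s ≠ 0 := lin_ne (ne_of_det hd)
  have ht0 : t ≠ 0 := lin_ne (ne_of_det' hd)
  -- Jacobi identity
  have hk : (C e * s ^ 2) * derivative (C e * t ^ 2) - (C e * t ^ 2) * derivative (C e * s ^ 2) =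
      C (-2 * e ^ 2 * (x * r - y * p)) * (s * t) := brk_sq e x y p r
  have hJ : ∀ F G : ℂ[X], (F * derivative G - G * derivative F) * derivative f -
      f * derivative (F * derivative G - G * derivative F) =
      (F * derivative (G * derivative f - f * derivative G) -
        (G * derivative f - f * derivative G) * derivative F) -
      (G * derivative (F * derivative f - f * derivative F) -
        (F * derivative f - f * derivative F) * derivative G) := by
    intro F G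
    simp only [derivative_sub, derivative_mul]
    ring
  have h3 := hJ (C e * s ^ 2) (C e * t ^ 2)
  rw [h1, h2, hk] at h3
  have h4 : (C e * s ^ 2) * derivative (C m * f) - (C m * f) * derivative (C e * s ^ 2) = C m * (C l * f) := by
    rw [← h1, derivative_C_mul]
    ring
  have h5 : (C e * t ^ 2) * derivative (C l * f) - (C l * f) * derivative (C e * t ^ 2) = C l * (C m * f) := by
    rw [← h2, derivative_C_mul]
    ring
  rw [h4, h5] at h3
  have hc : (-2 * e ^ 2 * (x * r - y * p)) ≠ 0 :=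
    mul_ne_zero (mul_ne_zero (by norm_num) (pow_ne_zero 2 he)) hd
  have h6 : (s * t) * derivative f - f * derivative (s * t) = 0 := by
    have h7 : C (-2 * e ^ 2 * (x * r - y * p)) * ((s * t) * derivative f - f * derivative (s * t)) = 0 := by
      have h8 : derivative (C (-2 * e ^ 2 * (x * r - y * p)) * (s * t)) =
          C (-2 * e ^ 2 * (x * r - y * p)) * derivative (s * t) := derivative_C_mul _ _
      rw [h8] at h3
      linear_combination h3
    exact (mul_eq_zero.mp h7).resolve_left (C_ne_zero.mpr hc)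
  obtain ⟨c, hc⟩ := prop_of (mul_ne_zero hs0 ht0) h6
  have hc0 : c ≠ 0 := by
    rintro rfl
    rw [C_0, zero_mul] at hc
    exact hf hc
  rw [hc, brk_sp e c x y p r] at h1
  have h7 : C c * s * (C (e * (x * r - y * p)) * s + C l * t) = 0 := by
    rw [C_neg, C_mul, C_mul] at h1
    rw [C_mul]
    linear_combination -h1
  have h8 := (mul_eq_zero.mp h7).resolve_left (mul_ne_zero (C_ne_zero.mpr hc0) hs0)
  have h9 : e * (x * r - y * p) * x + l * p = 0 := by
    have := congrArg (fun q : ℂ[X] => q.eval 0) h8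
    simpa [hs, ht] using this
  have h10 : e * (x * r - y * p) * y + l * r = 0 := by
    have := congrArg (fun q : ℂ[X] => q.eval 1) h8
    simp only [hs, ht, eval_add, eval_mul, eval_C, eval_sub, eval_X, mul_one, eval_zero] at this
    linear_combination h9 - this
  have h11 : e * (x * r - y * p) ^ 2 = 0 := by
    linear_combination r * h9 - p * h10
  exact mul_ne_zero he (pow_ne_zero 2 hd) h11

variable {S : Cur d}

/-- two elements of the family at a cusp with different fixed points in the component `b` -/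
theorem two_cusps (A : Atl S) {β : Br S} {γ : Fin d → SL(2, ℤ)} {I : Ideal (MvPolynomial (Fin d) ℂ)}
    (hI : vanishingIdeal ℂ (cv β γ) = I) {b : Fin d} (hb : 0 < β.e b) :
    ∃ γ' : Fin d → SL(2, ℤ), vanishingIdeal ℂ (cv β γ') = I ∧
      (γ b).1 0 0 * (γ' b).1 1 0 - (γ b).1 1 0 * (γ' b).1 0 0 ≠ 0 := by
  obtain ⟨δ, hδ, hδc⟩ := stb_c A β hb
  refine ⟨γ * δ, ?_, ?_⟩
  · have h2 : vanishingIdeal ℂ (cv β (δ * 1)) = vanishingIdeal ℂ (cv β 1) := cv_of_stb rfl hδ
    rw [mul_one] at h2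
    rw [cv_left γ h2, mul_one, hI]
  · have h6 : (γ b).1 0 0 * ((γ * δ) b).1 1 0 - (γ b).1 1 0 * ((γ * δ) b).1 0 0 = (δ b).1 1 0 := by
      have h7 : ((γ * δ) b).1 = (γ b).1 * (δ b).1 := rfl
      rw [h7, Matrix.mul_apply, Matrix.mul_apply, Fin.sum_univ_two, Fin.sum_univ_two]
      have h8 := (γ b).2
      rw [Matrix.det_fin_two] at h8
      linear_combination (δ b).1 1 0 * h8
    rw [h6]
    exact hδc

/-- minimal support: the component `a` determines the component `b` -/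
theorem minG (A : Atl S) {β : Br S} {γ : Fin d → SL(2, ℤ)} {I : Ideal (MvPolynomial (Fin d) ℂ)}
    (hI : vanishingIdeal ℂ (cv β γ) = I) {v : Fin d → ℂ[X]} (hv : v ∈ HV I)
    (hmin : ∀ u ∈ HV I, (Finset.univ.filter fun a => u a ≠ 0).card <
      (Finset.univ.filter fun a => v a ≠ 0).card → ∀ a, u a = 0)
    {a b : Fin d} (ha : v a ≠ 0) (hb : v b ≠ 0) {i : Fin A.n} (hi : 0 < (A.br i).e b) :
    ∀ l ∈ HV I, l a = 0 → l b = 0 := by
  intro l hl hla
  by_contra hlb
  have key : ∀ u ∈ HV I, u a = 0 → v b * derivative (u b) - u b * derivative (v b) = 0 := by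
    intro u hu hua
    have h1 : brk v u b = 0 := by
      refine hmin _ (HV_brk hv hu) ?_ b
      refine Finset.card_lt_card ?_
      rw [Finset.ssubset_iff_of_subset]
      · refine ⟨a, ?_, ?_⟩
        · rw [Finset.mem_filter]
          exact ⟨Finset.mem_univ _, ha⟩
        · rw [Finset.mem_filter]
          rintro ⟨-, h3⟩
          apply h3
          rw [brk, hua]
          simp
      · intro c hc
        rw [Finset.mem_filter] at hc ⊢
        refine ⟨hc.1, ?_⟩
        intro h3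
        apply hc.2
        rw [brk, h3]
        simp
    exact h1
  have hlv : ∃ c : ℂ, v b = C c * l b := by
    refine prop_of hlb ?_
    have := key l hl hla
    linear_combination -this
  obtain ⟨c, hc⟩ := hlv
  have hf : ∀ f ∈ HV I, ∃ m : ℂ, f b * derivative (l b) - l b * derivative (f b) = C m * l b := by
    intro f hf
    have h1 : brk f l a = 0 := by
      rw [brk, hla]
      simp
    obtain ⟨c', hc'⟩ := prop_of hb (key _ (HV_brk hf hl) h1)
    refine ⟨c' * c, ?_⟩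
    rw [brk] at hc'
    rw [hc', hc, C_mul]
    ring
  obtain ⟨γ₁, hγ₁⟩ := transport a A β (A.br i) γ
  rw [hI] at hγ₁
  obtain ⟨γ₂, hγ₂, hd⟩ := two_cusps A hγ₁ hi
  have m1 := HV_cusp (A.br i) γ₁
  have m2 := HV_cusp (A.br i) γ₂
  rw [hγ₁] at m1
  rw [hγ₂] at m2
  obtain ⟨l1, h1⟩ := hf _ m1
  obtain ⟨l2, h2⟩ := hf _ m2
  rw [cf] at h1 h2
  exact eig hlb (e := ((A.br i).e b : ℂ)) (by exact_mod_cast hi.ne') (by exact_mod_cast hd) h1 h2

private theorem mat_pm {X Y : Matrix (Fin 2) (Fin 2) ℤ} {x y p r : ℤ} (hd : x * r - y * p ≠ 0)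
    (hX : X.det = Y.det) (hY : Y.det ≠ 0)
    (h1 : (X 0 0 * x + X 0 1 * y = Y 0 0 * x + Y 0 1 * y ∧ X 1 0 * x + X 1 1 * y = Y 1 0 * x + Y 1 1 * y) ∨
      (X 0 0 * x + X 0 1 * y = -(Y 0 0 * x + Y 0 1 * y) ∧ X 1 0 * x + X 1 1 * y = -(Y 1 0 * x + Y 1 1 * y)))
    (h2 : (X 0 0 * p + X 0 1 * r = Y 0 0 * p + Y 0 1 * r ∧ X 1 0 * p + X 1 1 * r = Y 1 0 * p + Y 1 1 * r) ∨
      (X 0 0 * p + X 0 1 * r = -(Y 0 0 * p + Y 0 1 * r) ∧ X 1 0 * p + X 1 1 * r = -(Y 1 0 * p + Y 1 1 * r))) :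
    X = Y ∨ X = -Y := by
  have hs : ∀ s : ℤ, (X 0 0 * x + X 0 1 * y = s * (Y 0 0 * x + Y 0 1 * y)) →
      (X 1 0 * x + X 1 1 * y = s * (Y 1 0 * x + Y 1 1 * y)) →
      (X 0 0 * p + X 0 1 * r = s * (Y 0 0 * p + Y 0 1 * r)) →
      (X 1 0 * p + X 1 1 * r = s * (Y 1 0 * p + Y 1 1 * r)) → X = s • Y := by
    intro s a1 a2 a3 a4
    have e00 : X 0 0 = s * Y 0 0 := by
      refine mul_left_cancel₀ hd ?_
      linear_combination r * a1 - y * a3
    have e01 : X 0 1 = s * Y 0 1 := by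
      refine mul_left_cancel₀ hd ?_
      linear_combination x * a3 - p * a1
    have e10 : X 1 0 = s * Y 1 0 := by
      refine mul_left_cancel₀ hd ?_
      linear_combination r * a2 - y * a4
    have e11 : X 1 1 = s * Y 1 1 := by
      refine mul_left_cancel₀ hd ?_
      linear_combination x * a4 - p * a2
    ext i j
    rw [Matrix.smul_apply, smul_eq_mul]
    fin_cases i <;> fin_cases j
    · exact e00
    · exact e01
    · exact e10
    · exact e11
  have hbad : ∀ s : ℤ, (X 0 0 * x + X 0 1 * y = s * (Y 0 0 * x + Y 0 1 * y)) →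
      (X 1 0 * x + X 1 1 * y = s * (Y 1 0 * x + Y 1 1 * y)) →
      (X 0 0 * p + X 0 1 * r = -s * (Y 0 0 * p + Y 0 1 * r)) →
      (X 1 0 * p + X 1 1 * r = -s * (Y 1 0 * p + Y 1 1 * r)) → s ^ 2 = 1 → False := by
    intro s a1 a2 a3 a4 hs1
    have e1 : X.det * (x * r - y * p) = -s ^ 2 * (Y.det * (x * r - y * p)) := by
      rw [Matrix.det_fin_two, Matrix.det_fin_two]
      have e2 : (X 0 0 * X 1 1 - X 0 1 * X 1 0) * (x * r - y * p) =
          (X 0 0 * x + X 0 1 * y) * (X 1 0 * p + X 1 1 * r) -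
            (X 1 0 * x + X 1 1 * y) * (X 0 0 * p + X 0 1 * r) := by ring
      rw [e2, a1, a2, a3, a4]
      ring
    rw [hs1, hX] at e1
    have e3 : 2 * (Y.det * (x * r - y * p)) = 0 := by linarith
    have e4 := mul_ne_zero hY hd
    omega
  rcases h1 with ⟨a1, a2⟩ | ⟨a1, a2⟩
  · rcases h2 with ⟨a3, a4⟩ | ⟨a3, a4⟩
    · left
      have := hs 1 (by linarith) (by linarith) (by linarith) (by linarith)
      rwa [one_smul] at this
    · exact (hbad 1 (by linarith) (by linarith) (by linarith) (by linarith) (by norm_num)).elim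
  · rcases h2 with ⟨a3, a4⟩ | ⟨a3, a4⟩
    · exact (hbad (-1) (by linarith) (by linarith) (by linarith) (by linarith) (by norm_num)).elim
    · right
      have := hs (-1) (by linarith) (by linarith) (by linarith) (by linarith)
      rwa [neg_one_smul] at this

/-- equal squares -/
private theorem sq_pm {u v u' v' k : ℤ} (h : (C (u : ℂ) - C (v : ℂ) * X) ^ 2 =
    C ((k : ℂ) ^ 2) * (C (u' : ℂ) - C (v' : ℂ) * X) ^ 2) :
    (u = k * u' ∧ v = k * v') ∨ (u = -(k * u') ∧ v = -(k * v')) := by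
  have h1 : ((C (u : ℂ) - C (v : ℂ) * X) - C (k : ℂ) * (C (u' : ℂ) - C (v' : ℂ) * X)) *
      ((C (u : ℂ) - C (v : ℂ) * X) + C (k : ℂ) * (C (u' : ℂ) - C (v' : ℂ) * X)) = 0 := by
    rw [C_pow] at h
    linear_combination h
  have key : ∀ s : ℂ, (C (u : ℂ) - C (v : ℂ) * X) - C s * (C (u' : ℂ) - C (v' : ℂ) * X) = 0 →
      (u : ℂ) = s * u' ∧ (v : ℂ) = s * v' := by
    intro s h2
    have e0 := congrArg (fun q : ℂ[X] => q.eval 0) h2
    have e1 := congrArg (fun q : ℂ[X] => q.eval 1) h2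
    simp only [eval_sub, eval_mul, eval_C, eval_X, eval_zero, mul_zero, mul_one, sub_zero] at e0 e1
    refine ⟨by linear_combination e0, by linear_combination e0 - e1⟩
  rcases mul_eq_zero.mp h1 with h2 | h2
  · obtain ⟨a1, a2⟩ := key k h2
    exact Or.inl ⟨by exact_mod_cast a1, by exact_mod_cast a2⟩
  · obtain ⟨a1, a2⟩ := key (-k) (by rw [C_neg]; linear_combination h2)
    refine Or.inr ⟨?_, ?_⟩
    · have : (u : ℂ) = ((-(k * u') : ℤ) : ℂ) := by
        rw [a1]
        push_cast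
        ring
      exact_mod_cast this
    · have : (v : ℂ) = ((-(k * v') : ℤ) : ℂ) := by
        rw [a2]
        push_cast
        ring
      exact_mod_cast this

/-- the matrix of the isomorphism -/
theorem gou (A : Atl S) {β : Br S} {γ : Fin d → SL(2, ℤ)} {I : Ideal (MvPolynomial (Fin d) ℂ)}
    (hI : vanishingIdeal ℂ (cv β γ) = I) {a b : Fin d} (ha : 0 < β.e a) (hb : 0 < β.e b)
    (hG : ∀ l ∈ HV I, l a = 0 → l b = 0) :
    ∃ M : Matrix (Fin 2) (Fin 2) ℤ, 0 < M.det ∧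
      (∀ (β' : Br S) (γ' : Fin d → SL(2, ℤ)), vanishingIdeal ℂ (cv β' γ') = I →
        C (β'.e a : ℂ) * (C ((M * (γ' a).1) 0 0 : ℂ) - C ((M * (γ' a).1) 1 0 : ℂ) * X) ^ 2 =
          C ((M.det : ℂ) * β'.e b) * (C ((γ' b).1 0 0 : ℂ) - C ((γ' b).1 1 0 : ℂ) * X) ^ 2) ∧
      ∀ δ ∈ Stb I, M * (δ a).1 = (δ b).1 * M ∨ M * (δ a).1 = -((δ b).1 * M) := by
  obtain ⟨γ₂, hγ₂, hca⟩ := two_cusps A hI ha
  have mf := HV_cusp β γ
  have mg := HV_cusp β γ₂
  rw [hI] at mf
  rw [hγ₂] at mg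
  set x : ℤ := (γ a).1 0 0 with hx
  set y : ℤ := (γ a).1 1 0 with hy
  set p : ℤ := (γ₂ a).1 0 0 with hp
  set r : ℤ := (γ₂ a).1 1 0 with hr
  set x' : ℤ := (γ b).1 0 0 with hx'
  set y' : ℤ := (γ b).1 1 0 with hy'
  set p' : ℤ := (γ₂ b).1 0 0 with hp'
  set r' : ℤ := (γ₂ b).1 1 0 with hr'
  set ea : ℤ := (β.e a : ℤ) with hea
  set eb : ℤ := (β.e b : ℤ) with heb
  set ca : ℤ := x * r - y * p with hcad
  set cb : ℤ := x' * r' - y' * p' with hcbd
  have hea0 : 0 < ea := by rw [hea]; exact_mod_cast ha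
  have heb0 : 0 < eb := by rw [heb]; exact_mod_cast hb
  have hfa : cf β γ a = C (ea : ℂ) * (C (x : ℂ) - C (y : ℂ) * X) ^ 2 := by
    rw [cf, hea]; push_cast; rfl
  have hfb : cf β γ b = C (eb : ℂ) * (C (x' : ℂ) - C (y' : ℂ) * X) ^ 2 := by
    rw [cf, heb]; push_cast; rfl
  have hga : cf β γ₂ a = C (ea : ℂ) * (C (p : ℂ) - C (r : ℂ) * X) ^ 2 := by
    rw [cf, hea]; push_cast; rfl
  have hgb : cf β γ₂ b = C (eb : ℂ) * (C (p' : ℂ) - C (r' : ℂ) * X) ^ 2 := by
    rw [cf, heb]; push_cast; rfl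
  set k := brk (cf β γ) (cf β γ₂) with hk
  have mk : k ∈ HV I := HV_brk mf mg
  have hka : k a = C (-2 * (ea : ℂ) ^ 2 * ca) * ((C (x : ℂ) - C (y : ℂ) * X) * (C (p : ℂ) - C (r : ℂ) * X)) := by
    rw [hk, brk, hfa, hga, brk_sq, hcad]
    push_cast
    rfl
  have hkb : k b = C (-2 * (eb : ℂ) ^ 2 * cb) *
      ((C (x' : ℂ) - C (y' : ℂ) * X) * (C (p' : ℂ) - C (r' : ℂ) * X)) := by
    rw [hk, brk, hfb, hgb, brk_sq, hcbd]
    push_cast
    rfl
  -- `ea ca = ± eb cb`
  have hsq : (ea * ca) ^ 2 = (eb * cb) ^ 2 := by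
    have m1 : (fun c => brk (cf β γ) k c + C (-2 * ((ea : ℂ) * ca) ^ 2) * cf β γ c) ∈ HV I :=
      HV_add (HV_brk mf mk) (HV_smul _ mf)
    have e1 : brk (cf β γ) k a + C (-2 * ((ea : ℂ) * ca) ^ 2) * cf β γ a = 0 := by
      rw [brk, hka, hfa, brk_sp, hcad]
      push_cast
      simp only [C_mul, C_neg, C_pow, C_sub, C_ofNat]
      ring
    have e2 := hG _ m1 e1
    rw [brk, hkb, hfb, brk_sp] at e2
    have e3 : C (2 * (eb : ℂ) * (((eb : ℂ) * cb) ^ 2 - ((ea : ℂ) * ca) ^ 2)) * (C (x' : ℂ) - C (y' : ℂ) * X) ^ 2 = 0 := by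
      rw [← e2, hcbd]
      push_cast
      simp only [C_mul, C_neg, C_pow, C_sub, C_ofNat]
      ring
    have hne : (C (x' : ℂ) - C (y' : ℂ) * X : ℂ[X]) ≠ 0 := by
      refine lin_ne ?_
      by_contra hcon
      push Not at hcon
      have h1 : x' = 0 := by exact_mod_cast hcon.1
      have h2 : y' = 0 := by exact_mod_cast hcon.2
      have h3 := (γ b).2
      rw [Matrix.det_fin_two, ← hx', ← hy', h1, h2] at h3
      simp at h3
    have e4 := (mul_eq_zero.mp e3).resolve_right (pow_ne_zero 2 hne)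
    rw [C_eq_zero] at e4
    have e5 : 2 * eb * ((eb * cb) ^ 2 - (ea * ca) ^ 2) = 0 := by exact_mod_cast e4
    have e6 := (mul_eq_zero.mp e5).resolve_left (by positivity)
    linarith
  have hcb : cb ≠ 0 := by
    intro h0
    rw [h0, mul_zero, zero_pow two_ne_zero] at hsq
    have := pow_eq_zero_iff two_ne_zero |>.mp hsq
    exact (mul_ne_zero hea0.ne' hca) this
  obtain ⟨M, hM⟩ : ∃ M : Matrix (Fin 2) (Fin 2) ℤ, M = !![eb * cb * x', ea * ca * p'; eb * cb * y', ea * ca * r'] *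
    !![r, -p; -y, x] := ⟨_, rfl⟩
  have hM00 : M 0 0 = eb * cb * x' * r - ea * ca * p' * y := by
    rw [hM]
    simp [Matrix.mul_apply, Fin.sum_univ_two]
    ring
  have hM01 : M 0 1 = -(eb * cb * x' * p) + ea * ca * p' * x := by
    rw [hM]
    simp [Matrix.mul_apply, Fin.sum_univ_two]
  have hM10 : M 1 0 = eb * cb * y' * r - ea * ca * r' * y := by
    rw [hM]
    simp [Matrix.mul_apply, Fin.sum_univ_two]
    ring
  have hM11 : M 1 1 = -(eb * cb * y' * p) + ea * ca * r' * x := by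
    rw [hM]
    simp [Matrix.mul_apply, Fin.sum_univ_two]
  have hdet : M.det = ea * eb * ca ^ 2 * cb ^ 2 := by
    rw [Matrix.det_fin_two, hM00, hM01, hM10, hM11]
    have h1 : x * r - y * p = ca := rfl
    have h2 : x' * r' - y' * p' = cb := rfl
    linear_combination (ea * eb * ca * cb ^ 2) * h1 + (ea * eb * ca * cb * (x * r - y * p)) * h2
  have hdet0 : 0 < M.det := by
    rw [hdet]
    positivity
  -- the fields of the cusps
  have hP : ∀ (β' : Br S) (γ' : Fin d → SL(2, ℤ)), vanishingIdeal ℂ (cv β' γ') = I →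
        C (β'.e a : ℂ) * (C ((M * (γ' a).1) 0 0 : ℂ) - C ((M * (γ' a).1) 1 0 : ℂ) * X) ^ 2 =
          C ((M.det : ℂ) * β'.e b) * (C ((γ' b).1 0 0 : ℂ) - C ((γ' b).1 1 0 : ℂ) * X) ^ 2 := by
    intro β' γ' hγ'
    have mh := HV_cusp β' γ'
    rw [hγ'] at mh
    set u : ℤ := (γ' a).1 0 0 with hu
    set v : ℤ := (γ' a).1 1 0 with hv
    set u' : ℤ := (γ' b).1 0 0 with hu'
    set v' : ℤ := (γ' b).1 1 0 with hv'
    set e' : ℂ := (β'.e a : ℂ) with he'
    set e'' : ℂ := (β'.e b : ℂ) with he''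
    have hha : cf β' γ' a = C e' * (C (u : ℂ) - C (v : ℂ) * X) ^ 2 := rfl
    have hhb : cf β' γ' b = C e'' * (C (u' : ℂ) - C (v' : ℂ) * X) ^ 2 := rfl
    set ξ : ℤ := u * r - v * p with hξ
    set η : ℤ := x * v - y * u with hη
    have m1 : (fun c => ((C ((ea : ℂ) ^ 2 * ca ^ 3) * cf β' γ' c + C (-(e' * ea * ca * ξ ^ 2)) * cf β γ c) +
        C (e' * ξ * η) * k c) + C (-(e' * ea * ca * η ^ 2)) * cf β γ₂ c) ∈ HV I :=
      HV_add (HV_add (HV_add (HV_smul _ mh) (HV_smul _ mf)) (HV_smul _ mk)) (HV_smul _ mg)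
    have e1 : ((C ((ea : ℂ) ^ 2 * ca ^ 3) * cf β' γ' a + C (-(e' * ea * ca * ξ ^ 2)) * cf β γ a) +
        C (e' * ξ * η) * k a) + C (-(e' * ea * ca * η ^ 2)) * cf β γ₂ a = 0 := by
      rw [hha, hfa, hka, hga, hξ, hη, hcad]
      push_cast
      simp only [C_mul, C_neg, C_pow, C_sub, C_ofNat]
      ring
    have e2 := hG _ m1 e1
    rw [hhb, hfb, hkb, hgb] at e2
    have hU : ((M * (γ' a).1) 0 0 : ℤ) = eb * cb * x' * ξ + ea * ca * p' * η := by
      rw [Matrix.mul_apply, Fin.sum_univ_two, hM00, hM01, ← hu, ← hv, hξ, hη]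
      ring
    have hV : ((M * (γ' a).1) 1 0 : ℤ) = eb * cb * y' * ξ + ea * ca * r' * η := by
      rw [Matrix.mul_apply, Fin.sum_univ_two, hM10, hM11, ← hu, ← hv, hξ, hη]
      ring
    rw [hU, hV, hdet]
    have hne : (C ((ea : ℂ) ^ 2 * ca ^ 3) : ℂ[X]) ≠ 0 := by
      rw [C_ne_zero]
      refine mul_ne_zero (pow_ne_zero 2 ?_) (pow_ne_zero 3 ?_)
      · exact_mod_cast hea0.ne'
      · exact_mod_cast hca
    refine mul_left_cancel₀ hne ?_
    have hsqC : (C (ea : ℂ) * C (ca : ℂ)) ^ 2 - (C (eb : ℂ) * C (cb : ℂ)) ^ 2 = (0 : ℂ[X]) := by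
      have h1 : ((ea : ℂ) * ca) ^ 2 - ((eb : ℂ) * cb) ^ 2 = 0 := by
        have h2 : ((ea * ca) ^ 2 : ℤ) - (eb * cb) ^ 2 = 0 := by rw [hsq]; ring
        exact_mod_cast h2
      rw [← C_mul, ← C_mul, ← C_pow, ← C_pow, ← C_sub, h1, C_0]
    push_cast
    simp only [C_mul, C_neg, C_pow, C_add, C_ofNat] at e2 ⊢
    linear_combination (-(C (ea : ℂ) * C (eb : ℂ) * C (ca : ℂ) ^ 2 * C (cb : ℂ) ^ 2)) * e2 +
      (2 * C e' * C (ea : ℂ) * C (eb : ℂ) * C (ca : ℂ) ^ 2 * C (cb : ℂ) * C (ξ : ℂ) * C (η : ℂ) *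
        (C (x' : ℂ) - C (y' : ℂ) * X) * (C (p' : ℂ) - C (r' : ℂ) * X) +
      C e' * C (ea : ℂ) ^ 2 * C (ca : ℂ) ^ 3 * C (η : ℂ) ^ 2 * (C (p' : ℂ) - C (r' : ℂ) * X) ^ 2) * hsqC
  refine ⟨M, hdet0, hP, ?_⟩
  intro δ hδ
  set kk : ℤ := eb * ca * cb with hkk
  -- the images of a column
  have hcol : ∀ γ' : Fin d → SL(2, ℤ), vanishingIdeal ℂ (cv β γ') = I →
      ((M * (γ' a).1) 0 0 = kk * (γ' b).1 0 0 ∧ (M * (γ' a).1) 1 0 = kk * (γ' b).1 1 0) ∨
      ((M * (γ' a).1) 0 0 = -(kk * (γ' b).1 0 0) ∧ (M * (γ' a).1) 1 0 = -(kk * (γ' b).1 1 0)) := by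
    intro γ' hγ'
    refine sq_pm ?_
    have h1 := hP β γ' hγ'
    have hne : (C (ea : ℂ) : ℂ[X]) ≠ 0 := by
      rw [C_ne_zero]
      exact_mod_cast hea0.ne'
    refine mul_left_cancel₀ hne ?_
    have h2 : (C ((β.e a : ℕ) : ℂ) : ℂ[X]) = C (ea : ℂ) := by
      rw [hea]; push_cast; rfl
    rw [h2] at h1
    rw [h1, ← mul_assoc, ← C_mul]
    congr 2
    rw [hdet, hkk]
    have h3 : ((β.e b : ℕ) : ℂ) = (eb : ℂ) := by rw [heb]; push_cast; rfl
    rw [h3]
    push_cast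
    ring
  have hf1 := hcol (δ * γ) (cv_of_stb hI hδ)
  have hf2 := hcol (δ * γ₂) (cv_of_stb hγ₂ hδ)
  have g1 := hcol γ hI
  have g2 := hcol γ₂ hγ₂
  have hmul : ∀ γ' : Fin d → SL(2, ℤ), ((δ * γ') a).1 = (δ a).1 * (γ' a).1 ∧
      ((δ * γ') b).1 = (δ b).1 * (γ' b).1 := fun γ' => ⟨rfl, rfl⟩
  have hent : ∀ (P Q : Matrix (Fin 2) (Fin 2) ℤ) (i : Fin 2), (P * Q) i 0 = P i 0 * Q 0 0 + P i 1 * Q 1 0 := by
    intro P Q i
    rw [Matrix.mul_apply, Fin.sum_univ_two]
  refine mat_pm (x := x) (y := y) (p := p) (r := r) hca ?_ ?_ ?_ ?_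
  · rw [Matrix.det_mul, Matrix.det_mul (δ b).1, (δ a).2, (δ b).2]
    ring
  · rw [Matrix.det_mul, (δ b).2, one_mul]
    exact hdet0.ne'
  · have c1 : ∀ i, (M * (δ a).1) i 0 * x + (M * (δ a).1) i 1 * y = (M * ((δ * γ) a).1) i 0 := by
      intro i
      rw [(hmul γ).1, ← Matrix.mul_assoc, hent (M * (δ a).1)]
    have c2 : ∀ i, ((δ b).1 * M) i 0 * x + ((δ b).1 * M) i 1 * y = (δ b).1 i 0 * (M * (γ a).1) 0 0 +
        (δ b).1 i 1 * (M * (γ a).1) 1 0 := by
      intro i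
      rw [← hent, Matrix.mul_assoc, hent (δ b).1]
    have c3 : ∀ i, ((δ * γ) b).1 i 0 = (δ b).1 i 0 * (γ b).1 0 0 + (δ b).1 i 1 * (γ b).1 1 0 := by
      intro i
      rw [(hmul γ).2, hent]
    rw [c1, c1, c2, c2]
    rcases hf1 with ⟨t1, t2⟩ | ⟨t1, t2⟩ <;> rcases g1 with ⟨s1, s2⟩ | ⟨s1, s2⟩ <;>
      rw [t1, t2, s1, s2, c3, c3]
    · left; constructor <;> ring
    · right; constructor <;> ring
    · right; constructor <;> ring
    · left; constructor <;> ring
  · have c1 : ∀ i, (M * (δ a).1) i 0 * p + (M * (δ a).1) i 1 * r = (M * ((δ * γ₂) a).1) i 0 := by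
      intro i
      rw [(hmul γ₂).1, ← Matrix.mul_assoc, hent (M * (δ a).1)]
    have c2 : ∀ i, ((δ b).1 * M) i 0 * p + ((δ b).1 * M) i 1 * r = (δ b).1 i 0 * (M * (γ₂ a).1) 0 0 +
        (δ b).1 i 1 * (M * (γ₂ a).1) 1 0 := by
      intro i
      rw [← hent, Matrix.mul_assoc, hent (δ b).1]
    have c3 : ∀ i, ((δ * γ₂) b).1 i 0 = (δ b).1 i 0 * (γ₂ b).1 0 0 + (δ b).1 i 1 * (γ₂ b).1 1 0 := by
      intro i
      rw [(hmul γ₂).2, hent]
    rw [c1, c1, c2, c2]
    rcases hf2 with ⟨t1, t2⟩ | ⟨t1, t2⟩ <;> rcases g2 with ⟨s1, s2⟩ | ⟨s1, s2⟩ <;>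
      rw [t1, t2, s1, s2, c3, c3]
    · left; constructor <;> ring
    · right; constructor <;> ring
    · right; constructor <;> ring
    · left; constructor <;> ring

end Pool.Agent.LGO.AXG
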