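import Mathlib
import Pool.Agent.LGO.AX.Cus
import Pool.Agent.LGO.AXG.Trans

/-!
# LGO/AXG: algebraic independence of the lifts if no two functions are infinite at the same cusp

`ind_solo`: induction on the number of functions.  The coordinate `0` has a cusp (`exists_cusp`); there the other
coordinates are finite, so that `w ↦ w + 2 π i n` changes only `z 0`, by `e n`, `e > 0`: a polynomial which vanishes on the lifts
has zero coefficients as a polynomial in `Z 0` (on the lifts of the other functions).
-/

namespace Pool.Agent.LGO.AXG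

open Pool.Agent.LGO Pool.Agent.LGO.AX
open scoped MatrixGroups

theorem ind_solo : ∀ {d : ℕ} {S : Cur d} (_ : S.NCo) (A : Atl S)
    (_ : ∀ i a b, 0 < (A.br i).e a → 0 < (A.br i).e b → a = b) (β : Br S), Ind β := by
  intro d
  induction d with
  | zero => intro S _ _ _ β; exact ind_zero β
  | succ d ih =>
    intro S hN A hA β
    obtain ⟨i, hi⟩ := exists_cusp (S := S.ax 0) (fun _ c => hN 0 c) (A.ax 0) 0
    change 0 < (A.br i).e 0 at hi
    have he : ∀ a : Fin d, (A.br i).e a.succ = 0 := by
      intro a
      by_contra h
      have := hA i 0 a.succ hi (Nat.pos_of_ne_zero h)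
      exact (Fin.succ_ne_zero a) this.symm
    have h1 : Ind ((A.br i).res Fin.succ) := by
      refine ih (S := S.res Fin.succ) (fun a c => hN a.succ c) (A.res Fin.succ) ?_ _
      intro j a b ha hb
      exact Fin.succ_injective _ (hA j a.succ b.succ ha hb)
    have h2 : Ind (A.br i) := by
      intro G hG
      have hP : MvPolynomial.finSuccEquiv ℂ d G ≠ 0 := by
        rw [Ne, map_eq_zero_iff _ (MvPolynomial.finSuccEquiv ℂ d).injective]
        exact hG
      obtain ⟨k, hk⟩ : ∃ k, (MvPolynomial.finSuccEquiv ℂ d G).coeff k ≠ 0 := by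
        by_contra hcon
        push Not at hcon
        exact hP (Polynomial.ext fun k => by rw [hcon k, Polynomial.coeff_zero])
      obtain ⟨w, hw, hw0⟩ := h1 _ hk
      change w ∈ (A.br i).U at hw
      set s : Fin d → ℂ := fun a => (A.br i).z a.succ w with hs
      set p : Polynomial ℂ := Polynomial.map (MvPolynomial.eval s) (MvPolynomial.finSuccEquiv ℂ d G)
        with hp
      have hp0 : p ≠ 0 := by
        intro h
        apply hw0
        have : p.coeff k = 0 := by rw [h, Polynomial.coeff_zero]
        rw [hp, Polynomial.coeff_map] at this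
        exact this
      have he0 : ((A.br i).e 0 : ℂ) ≠ 0 := by exact_mod_cast hi.ne'
      obtain ⟨n, hn⟩ : ∃ n : ℕ, p.eval ((A.br i).z 0 w + (A.br i).e 0 * n) ≠ 0 := by
        by_contra hcon
        push Not at hcon
        apply hp0
        refine Polynomial.eq_zero_of_infinite_isRoot p ?_
        refine Set.infinite_of_injective_forall_mem
          (f := fun n : ℕ => (A.br i).z 0 w + (A.br i).e 0 * n) ?_ hcon
        intro a b hab
        have h3 : ((A.br i).e 0 : ℂ) * (a : ℂ) = (A.br i).e 0 * (b : ℂ) := add_left_cancel hab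
        exact_mod_cast mul_left_cancel₀ he0 h3
      have hsh : ∀ (a : Fin (d + 1)), (A.br i).z a (w + 2 * Real.pi * Complex.I * (n : ℤ)) =
          (A.br i).z a w + (A.br i).e a * (n : ℤ) := fun a => ((A.br i).ax a).z_shift 0 w n
      have hmem : w + 2 * Real.pi * Complex.I * (n : ℤ) ∈ (A.br i).U :=
        ((A.br i).ax 0).shift_mem hw n
      refine ⟨_, hmem, ?_⟩
      have h4 : (fun a => (A.br i).z a (w + 2 * Real.pi * Complex.I * (n : ℤ))) =
          Fin.cons ((A.br i).z 0 w + (A.br i).e 0 * n) s := by
        funext a
        rw [hsh]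
        refine Fin.cases ?_ (fun b => ?_) a
        · simp
        · rw [he b]
          simp [hs]
      rw [h4, MvPolynomial.eval_eq_eval_mv_eval']
      exact hn
    exact ind_trans A _ β h2

end Pool.Agent.LGO.AXG
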