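import Mathlib
import Pool.Agent.LGO.AX.Mz

/-!
# LGO/AXG: the point pair invariant and a maximum principle

`uu z w = |z - w|² / (Im z Im w)`.  `uu_mz`: invariant under Möbius transformations.  `rigid`: `f`, `g` holomorphic near `t₀`
with values in the upper half plane, `f t₀ ≠ g t₀`; if `uu (f t) (g t)` has a maximum at `t₀`, then `f` is constant.
Proof: `4 Im f Im f₀ = |f - f₀*|² - |f - f₀|²`, so for `F = (f - g) / ((f - f₀*) (g - g₀*))` we have
`16 Im f₀ Im g₀ |F|² ≤ uu (f, g)` with equality at `t₀`; so `|F|` has a maximum at `t₀`, so `|F|` is constant, so there is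
equality everywhere, so `f = f₀`.
-/

namespace Pool.Agent.LGO.AXG

open Metric ComplexConjugate Pool.Agent.LGO.AX

/-- the invariant of two points of the upper half plane -/
noncomputable def uu (z w : ℂ) : ℝ := ‖z - w‖ ^ 2 / (z.im * w.im)

theorem uu_self (z : ℂ) : uu z z = 0 := by simp [uu]

theorem uu_nonneg {z w : ℂ} (hz : 0 < z.im) (hw : 0 < w.im) : 0 ≤ uu z w := by
  unfold uu
  positivity

theorem uu_eq_zero {z w : ℂ} (hz : 0 < z.im) (hw : 0 < w.im) (h : uu z w ≤ 0) : z = w := by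
  have h1 : uu z w = 0 := le_antisymm h (uu_nonneg hz hw)
  unfold uu at h1
  rw [div_eq_zero_iff] at h1
  rcases h1 with h1 | h1
  · rw [sq_eq_zero_iff, norm_eq_zero, sub_eq_zero] at h1
    exact h1
  · exact absurd h1 (mul_pos hz hw).ne'

/-- `uu` is invariant under Möbius transformations of positive determinant -/
theorem uu_mz {g : Matrix (Fin 2) (Fin 2) ℤ} (hg : 0 < g.det) {z w : ℂ} (hz : 0 < z.im) (hw : 0 < w.im) :
    uu (mz g z) (mz g w) = uu z w := by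
  have hdz := mz_den_ne hg.ne' hz
  have hdw := mz_den_ne hg.ne' hw
  have hD : (0 : ℝ) < (g.det : ℝ) := by exact_mod_cast hg
  have h1 : mz g z - mz g w = (g.det : ℂ) * (z - w) /
      (((g 1 0 : ℂ) * z + (g 1 1 : ℂ)) * ((g 1 0 : ℂ) * w + (g 1 1 : ℂ))) := by
    rw [mz, mz, div_sub_div _ _ hdz hdw, Matrix.det_fin_two]
    congr 1
    push_cast
    ring
  have him : ∀ x : ℂ, 0 < x.im → (mz g x).im = (g.det : ℝ) * x.im / ‖(g 1 0 : ℂ) * x + (g 1 1 : ℂ)‖ ^ 2 := by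
    intro x hx
    rw [mz_im hg.ne' hx]
  have hnz : (0 : ℝ) < ‖(g 1 0 : ℂ) * z + (g 1 1 : ℂ)‖ := norm_pos_iff.mpr hdz
  have hnw : (0 : ℝ) < ‖(g 1 0 : ℂ) * w + (g 1 1 : ℂ)‖ := norm_pos_iff.mpr hdw
  have hnD : ‖(g.det : ℂ)‖ = (g.det : ℝ) := by
    rw [Complex.norm_intCast, abs_of_pos hD]
  unfold uu
  rw [h1, him z hz, him w hw, norm_div, norm_mul, norm_mul, hnD]
  generalize ‖(g 1 0 : ℂ) * z + (g 1 1 : ℂ)‖ = P at hnz
  generalize ‖(g 1 0 : ℂ) * w + (g 1 1 : ℂ)‖ = Q at hnw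
  field_simp

private theorem key_id (a b : ℂ) : ‖a - conj b‖ ^ 2 = 4 * (a.im * b.im) + ‖a - b‖ ^ 2 := by
  rw [← Complex.normSq_eq_norm_sq, ← Complex.normSq_eq_norm_sq, Complex.normSq_apply, Complex.normSq_apply]
  simp only [Complex.sub_re, Complex.sub_im, Complex.conj_re, Complex.conj_im]
  ring

theorem rigid {f g : ℂ → ℂ} {t₀ : ℂ} {ε : ℝ} (hε : 0 < ε)
    (hf : DifferentiableOn ℂ f (ball t₀ ε)) (hg : DifferentiableOn ℂ g (ball t₀ ε))
    (hfi : ∀ t ∈ ball t₀ ε, 0 < (f t).im) (hgi : ∀ t ∈ ball t₀ ε, 0 < (g t).im)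
    (hne : f t₀ ≠ g t₀) (hmax : ∀ t ∈ ball t₀ ε, uu (f t) (g t) ≤ uu (f t₀) (g t₀)) :
    ∀ t ∈ ball t₀ ε, f t = f t₀ := by
  have h0 : t₀ ∈ ball t₀ ε := mem_ball_self hε
  set a := f t₀ with ha
  set b := g t₀ with hb
  have hai : 0 < a.im := hfi t₀ h0
  have hbi : 0 < b.im := hgi t₀ h0
  have hden : ∀ {x y : ℂ}, 0 < x.im → 0 < y.im → x - conj y ≠ 0 := by
    intro x y hx hy h
    have h1 := congrArg Complex.im h
    simp at h1
    linarith
  set F : ℂ → ℂ := fun t => (f t - g t) / ((f t - conj a) * (g t - conj b)) with hF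
  have hFd : DifferentiableOn ℂ F (ball t₀ ε) := by
    refine (hf.sub hg).div ((hf.sub_const _).mul (hg.sub_const _)) ?_
    intro t ht
    exact mul_ne_zero (hden (hfi t ht) hai) (hden (hgi t ht) hbi)
  have hden0 : F t₀ ≠ 0 := div_ne_zero (sub_ne_zero.mpr hne) (mul_ne_zero (hden hai hai) (hden hbi hbi))
  -- the inequality
  have hle : ∀ t ∈ ball t₀ ε, 16 * (a.im * b.im) * ‖F t‖ ^ 2 =
      ‖f t - g t‖ ^ 2 * (16 * (a.im * b.im)) / ((4 * ((f t).im * a.im) + ‖f t - a‖ ^ 2) *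
        (4 * ((g t).im * b.im) + ‖g t - b‖ ^ 2)) := by
    intro t ht
    rw [hF]
    simp only
    rw [norm_div, norm_mul, div_pow, mul_pow, key_id, key_id]
    ring
  have hup : ∀ t ∈ ball t₀ ε, 16 * (a.im * b.im) * ‖F t‖ ^ 2 ≤ uu (f t) (g t) := by
    intro t ht
    have hfp := hfi t ht
    have hgp := hgi t ht
    rw [hle t ht, uu, div_le_div_iff₀ (by positivity) (by positivity)]
    have h1 : (4 * ((f t).im * a.im)) * (4 * ((g t).im * b.im)) ≤
        (4 * ((f t).im * a.im) + ‖f t - a‖ ^ 2) * (4 * ((g t).im * b.im) + ‖g t - b‖ ^ 2) := by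
      refine mul_le_mul ?_ ?_ (by positivity) (by positivity)
      · have : 0 ≤ ‖f t - a‖ ^ 2 := by positivity
        linarith
      · have : 0 ≤ ‖g t - b‖ ^ 2 := by positivity
        linarith
    have h2 := mul_le_mul_of_nonneg_left h1 (sq_nonneg ‖f t - g t‖)
    calc ‖f t - g t‖ ^ 2 * (16 * (a.im * b.im)) * ((f t).im * (g t).im) =
        ‖f t - g t‖ ^ 2 * ((4 * ((f t).im * a.im)) * (4 * ((g t).im * b.im))) := by ring
      _ ≤ _ := h2
  have heq0 : 16 * (a.im * b.im) * ‖F t₀‖ ^ 2 = uu a b := by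
    rw [hle t₀ h0, uu, ← ha, ← hb, sub_self, sub_self, norm_zero]
    have h1 := hai.ne'
    have h2 := hbi.ne'
    field_simp
    ring
  have hnorm : ∀ t ∈ ball t₀ ε, ‖F t‖ ≤ ‖F t₀‖ := by
    intro t ht
    have h1 : 16 * (a.im * b.im) * ‖F t‖ ^ 2 ≤ 16 * (a.im * b.im) * ‖F t₀‖ ^ 2 := by
      rw [heq0]
      exact (hup t ht).trans (hmax t ht)
    have h2 : ‖F t‖ ^ 2 ≤ ‖F t₀‖ ^ 2 := le_of_mul_le_mul_left h1 (by positivity)
    exact (pow_le_pow_iff_left₀ (norm_nonneg _) (norm_nonneg _) two_ne_zero).mp h2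
  have hconst := Complex.norm_eqOn_of_isPreconnected_of_isMaxOn (convex_ball t₀ ε).isPreconnected
    isOpen_ball hFd h0 (fun t ht => hnorm t ht)
  intro t ht
  have h1 : ‖F t‖ = ‖F t₀‖ := hconst ht
  have hfp := hfi t ht
  have hgp := hgi t ht
  have h2 : 16 * (a.im * b.im) * ‖F t‖ ^ 2 = uu (f t) (g t) := by
    refine le_antisymm (hup t ht) ?_
    rw [h1, heq0]
    exact hmax t ht
  rw [hle t ht, uu, div_eq_div_iff (by positivity) (by positivity)] at h2
  have h3 : 0 < ‖f t - g t‖ ^ 2 := by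
    have : F t ≠ 0 := by
      intro h
      rw [h, norm_zero] at h1
      exact hden0 (norm_eq_zero.mp h1.symm)
    have h4 : f t - g t ≠ 0 := by
      intro h
      apply this
      rw [hF]
      simp only
      rw [h, zero_div]
    have := norm_pos_iff.mpr h4
    positivity
  have h4 : (16 * (a.im * b.im)) * ((f t).im * (g t).im) =
      (4 * ((f t).im * a.im) + ‖f t - a‖ ^ 2) * (4 * ((g t).im * b.im) + ‖g t - b‖ ^ 2) := by
    refine mul_left_cancel₀ h3.ne' ?_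
    linarith
  have h5 : ‖f t - a‖ ^ 2 * (4 * ((g t).im * b.im)) + (4 * ((f t).im * a.im) + ‖f t - a‖ ^ 2) * ‖g t - b‖ ^ 2 = 0 := by
    linear_combination -h4
  have h6 : 0 ≤ (4 * ((f t).im * a.im) + ‖f t - a‖ ^ 2) * ‖g t - b‖ ^ 2 := by positivity
  have h7 : ‖f t - a‖ ^ 2 * (4 * ((g t).im * b.im)) ≤ 0 := by linarith
  have h8 : ‖f t - a‖ ^ 2 ≤ 0 := by
    by_contra hcon
    push Not at hcon
    have : 0 < ‖f t - a‖ ^ 2 * (4 * ((g t).im * b.im)) := by positivity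
    linarith
  have h9 : ‖f t - a‖ = 0 := by
    have : ‖f t - a‖ ^ 2 = 0 := le_antisymm h8 (sq_nonneg _)
    exact pow_eq_zero_iff two_ne_zero |>.mp this
  exact sub_eq_zero.mp (norm_eq_zero.mp h9)

end Pool.Agent.LGO.AXG
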