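import Mathlib
import Pool.Agent.LGO.AXG.StbC
import Pool.Agent.LGO.AXG.Ind
import Pool.Agent.LGO.AXG.Rig

/-!
# LGO/AXG: equivariant lifts are related by a Möbius transformation

`cusp_T`: at a cusp the matrix `T = (γ b)⁻¹ M γ a` is upper triangular, with `T z = (e b / e a) z + σ`.
`ext_K`: so `u = uu (M γ z a) (γ z b)` extends to a continuous function of `t = exp w` at the centre of a branch, with the value `0`
at a cusp.  `rel_of`: so `u` has a maximum on the curve if it is not `0`; by `rigid` the lift `z a` is constant near it: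
contradiction.
-/

namespace Pool.Agent.LGO.AXG

open Polynomial Pool.Agent.LGO Pool.Agent.LGO.AX Filter Topology Metric
open scoped MatrixGroups
open MvPolynomial (vanishingIdeal)

variable {d : ℕ}

theorem mz_neg (g : Matrix (Fin 2) (Fin 2) ℤ) (z : ℂ) : mz (-g) z = mz g z := by
  rw [mz, mz]
  simp only [Matrix.neg_apply]
  push_cast
  rw [show -(g 0 0 : ℂ) * z + -(g 0 1 : ℂ) = -((g 0 0 : ℂ) * z + (g 0 1 : ℂ)) by ring,
    show -(g 1 0 : ℂ) * z + -(g 1 1 : ℂ) = -((g 1 0 : ℂ) * z + (g 1 1 : ℂ)) by ring, neg_div_neg_eq]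

/-- the matrix `(γ b)⁻¹ M γ a` -/
private theorem mz_T' {M : Matrix (Fin 2) (Fin 2) ℤ} (hM : 0 < M.det) (g h : SL(2, ℤ)) {z z' : ℂ}
    (hz : 0 < z.im) (hz' : 0 < z'.im) :
    uu (mz M (mz g.1 z)) (mz h.1 z') = uu (mz ((h⁻¹).1 * (M * g.1)) z) z' := by
  have hMg : 0 < (M * g.1).det := by
    rw [Matrix.det_mul, g.2, mul_one]
    exact hM
  have hT : 0 < ((h⁻¹).1 * (M * g.1)).det := by
    rw [Matrix.det_mul, (h⁻¹).2, one_mul]
    exact hMg
  have h1 : mz M (mz g.1 z) = mz (M * g.1) z := (mz_mul hM (Mz_det g) hz).symm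
  have h2 : mz h.1 (mz ((h⁻¹).1 * (M * g.1)) z) = mz (M * g.1) z := by
    rw [← mz_mul (Mz_det h) hT hz, ← Matrix.mul_assoc]
    have h3 : h.1 * (h⁻¹).1 = 1 := by
      have : (h * h⁻¹).1 = (1 : SL(2, ℤ)).1 := by rw [mul_inv_cancel]
      exact this
    rw [h3, one_mul]
  rw [h1, ← h2]
  exact uu_mz (Mz_det h) (mz_im_pos hT hz) hz'

private theorem lin_ne' {x y : ℂ} (h : x ≠ 0 ∨ y ≠ 0) : (C x - C y * X : ℂ[X]) ≠ 0 := by
  intro h0
  have h1 : x = 0 := by
    have := congrArg (fun q : ℂ[X] => q.eval 0) h0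
    simpa using this
  have h2 : y = 0 := by
    have := congrArg (fun q : ℂ[X] => q.eval 1) h0
    simpa [h1] using this
  rcases h with h | h
  · exact h h1
  · exact h h2

theorem cusp_T {M : Matrix (Fin 2) (Fin 2) ℤ} (hM : 0 < M.det) (g h : SL(2, ℤ)) {ea eb : ℕ}
    (h2 : C (ea : ℂ) * (C ((M * g.1) 0 0 : ℂ) - C ((M * g.1) 1 0 : ℂ) * X) ^ 2 =
      C ((M.det : ℂ) * eb) * (C (h.1 0 0 : ℂ) - C (h.1 1 0 : ℂ) * X) ^ 2) :
    (ea = 0 ∧ eb = 0) ∨ (0 < ea ∧ 0 < eb ∧ ((h⁻¹).1 * (M * g.1)) 1 0 = 0 ∧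
      ((h⁻¹).1 * (M * g.1)) 0 0 ^ 2 * ea = M.det * eb) := by
  obtain ⟨N, hN⟩ : ∃ N : Matrix (Fin 2) (Fin 2) ℤ, N = M * g.1 := ⟨_, rfl⟩
  have hdN : N.det = M.det := by rw [hN, Matrix.det_mul, g.2, mul_one]
  rw [← hN] at h2 ⊢
  rw [← hdN] at h2 hM ⊢
  have hne : (C (h.1 0 0 : ℂ) - C (h.1 1 0 : ℂ) * X : ℂ[X]) ≠ 0 := by
    refine lin_ne' ?_
    by_contra hcon
    push Not at hcon
    have h1 : h.1 0 0 = 0 := by exact_mod_cast hcon.1
    have h3 : h.1 1 0 = 0 := by exact_mod_cast hcon.2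
    have h4 := h.2
    rw [Matrix.det_fin_two, h1, h3] at h4
    simp at h4
  have hneN : (C (N 0 0 : ℂ) - C (N 1 0 : ℂ) * X : ℂ[X]) ≠ 0 := by
    refine lin_ne' ?_
    by_contra hcon
    push Not at hcon
    have h1 : N 0 0 = 0 := by exact_mod_cast hcon.1
    have h3 : N 1 0 = 0 := by exact_mod_cast hcon.2
    rw [Matrix.det_fin_two, h1, h3] at hM
    simp at hM
  have hDC : (N.det : ℂ) ≠ 0 := by exact_mod_cast hM.ne'
  rcases Nat.eq_zero_or_pos ea with ha | ha
  · left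
    refine ⟨ha, ?_⟩
    rw [ha, Nat.cast_zero, C_0, zero_mul] at h2
    have h3 := (mul_eq_zero.mp h2.symm).resolve_right (pow_ne_zero 2 hne)
    rw [C_eq_zero] at h3
    have h4 := (mul_eq_zero.mp h3).resolve_left hDC
    exact_mod_cast h4
  · right
    have haC : (ea : ℂ) ≠ 0 := by exact_mod_cast ha.ne'
    have hb : 0 < eb := by
      rcases Nat.eq_zero_or_pos eb with hb | hb
      · rw [hb, Nat.cast_zero, mul_zero, C_0, zero_mul] at h2
        exact absurd h2 (mul_ne_zero (C_ne_zero.mpr haC) (pow_ne_zero 2 hneN))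
      · exact hb
    obtain ⟨c, hc⟩ : ∃ c : ℂ, c ^ 2 = (N.det : ℂ) * eb / ea := by
      have := IsAlgClosed.exists_pow_nat_eq ((N.det : ℂ) * eb / ea) (n := 2) (by norm_num)
      exact this
    have h3 : (C (N 0 0 : ℂ) - C (N 1 0 : ℂ) * X) ^ 2 =
        (C c * (C (h.1 0 0 : ℂ) - C (h.1 1 0 : ℂ) * X)) ^ 2 := by
      refine mul_left_cancel₀ (C_ne_zero.mpr haC) ?_
      rw [h2, mul_pow, ← C_pow, hc, ← mul_assoc, ← C_mul, mul_div_cancel₀ _ haC]
    obtain ⟨c', hc', h4⟩ : ∃ c' : ℂ, c' ^ 2 = (N.det : ℂ) * eb / ea ∧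
        (C (N 0 0 : ℂ) - C (N 1 0 : ℂ) * X) = C c' * (C (h.1 0 0 : ℂ) - C (h.1 1 0 : ℂ) * X) := by
      rcases sq_eq_sq_iff_eq_or_eq_neg.mp h3 with h5 | h5
      · exact ⟨c, hc, h5⟩
      · refine ⟨-c, by rw [neg_sq]; exact hc, ?_⟩
        rw [h5, C_neg]
        ring
    have e0 := congrArg (fun q : ℂ[X] => q.eval 0) h4
    have e1 := congrArg (fun q : ℂ[X] => q.eval 1) h4
    simp only [eval_sub, eval_mul, eval_C, eval_X, mul_zero, mul_one, sub_zero] at e0 e1
    have e2 : (N 1 0 : ℂ) = c' * h.1 1 0 := by linear_combination e0 - e1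
    have hinv : (h⁻¹).1 = !![h.1 1 1, -h.1 0 1; -h.1 1 0, h.1 0 0] := by
      rw [Matrix.SpecialLinearGroup.coe_inv, Matrix.adjugate_fin_two]
    have hdh : (h.1 0 0 : ℂ) * h.1 1 1 - h.1 0 1 * h.1 1 0 = 1 := by
      have := h.2
      rw [Matrix.det_fin_two] at this
      exact_mod_cast this
    have hT10 : ((h⁻¹).1 * N) 1 0 = -h.1 1 0 * N 0 0 + h.1 0 0 * N 1 0 := by
      rw [hinv, Matrix.mul_apply, Fin.sum_univ_two]
      rfl
    have hT00 : ((h⁻¹).1 * N) 0 0 = h.1 1 1 * N 0 0 + -h.1 0 1 * N 1 0 := by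
      rw [hinv, Matrix.mul_apply, Fin.sum_univ_two]
      rfl
    refine ⟨ha, hb, ?_, ?_⟩
    · have : ((((h⁻¹).1 * N) 1 0 : ℤ) : ℂ) = 0 := by
        rw [hT10]
        push_cast
        rw [e0, e2]
        ring
      exact_mod_cast this
    · have h6 : ((((h⁻¹).1 * N) 0 0 : ℤ) : ℂ) = c' := by
        rw [hT00]
        push_cast
        rw [e0, e2]
        linear_combination c' * hdh
      have h7 : ((((h⁻¹).1 * N) 0 0 ^ 2 * ea : ℤ) : ℂ) = ((N.det * eb : ℤ) : ℂ) := by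
        rw [Int.cast_mul, Int.cast_pow, h6, hc', Int.cast_natCast, div_mul_cancel₀ _ haC, Int.cast_mul,
          Int.cast_natCast]
      exact_mod_cast h7

variable {S : Cur d}

private theorem im_zz (β : Br S) (a : Fin d) {t : ℂ} (ht : t ≠ 0) (hr : ‖t‖ < β.r) :
    0 < -(β.e a * Real.log ‖t‖ / (2 * Real.pi)) + (β.ψ a t).im := by
  have h1 := β.im_pos a (Complex.log t) (by
    rw [← Complex.norm_exp, Complex.exp_log ht]
    exact hr)
  rw [zz, Complex.exp_log ht, Complex.add_im] at h1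
  have h2 : ((β.e a : ℂ) * Complex.log t / (2 * Real.pi * Complex.I)).im =
      -(β.e a * Real.log ‖t‖ / (2 * Real.pi)) := by
    have h3 : (β.e a : ℂ) * Complex.log t / (2 * Real.pi * Complex.I) =
        ((β.e a / (2 * Real.pi) : ℝ) : ℂ) * (Complex.log t / Complex.I) := by
      push_cast
      rw [div_mul_div_comm]
    rw [h3, Complex.im_ofReal_mul, Complex.div_I, Complex.neg_im, Complex.mul_I_im, Complex.log_re]
    ring
  rw [h2] at h1
  exact h1

private theorem z_im_eq (β : Br S) (a : Fin d) (w : ℂ) :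
    (β.z a w).im = -(β.e a * w.re / (2 * Real.pi)) + (β.ψ a (Complex.exp w)).im := by
  rw [Br.z, zz, Complex.add_im]
  congr 1
  have h3 : (β.e a : ℂ) * w / (2 * Real.pi * Complex.I) =
      ((β.e a / (2 * Real.pi) : ℝ) : ℂ) * (w / Complex.I) := by
    push_cast
    rw [div_mul_div_comm]
  rw [h3, Complex.im_ofReal_mul, Complex.div_I, Complex.neg_im, Complex.mul_I_im]
  ring

private theorem psi_im (β : Br S) {a : Fin d} (he : β.e a = 0) {t : ℂ} (ht : t ∈ ball (0 : ℂ) β.r) :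
    0 < (β.ψ a t).im := by
  rw [mem_ball_zero_iff] at ht
  by_cases h0 : t = 0
  · rw [h0]
    exact β.cen a he
  · have := im_zz β a h0 ht
    rw [he] at this
    simpa using this

private theorem uu_cont {f g : ℂ → ℂ} {s : Set ℂ} (hf : ContinuousOn f s) (hg : ContinuousOn g s)
    (hfi : ∀ t ∈ s, 0 < (f t).im) (hgi : ∀ t ∈ s, 0 < (g t).im) :
    ContinuousOn (fun t => uu (f t) (g t)) s := by
  unfold uu
  refine ContinuousOn.div ?_ ?_ ?_
  · exact ((hf.sub hg).norm).pow 2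
  · exact (Complex.continuous_im.comp_continuousOn hf).mul (Complex.continuous_im.comp_continuousOn hg)
  · intro t ht
    exact (mul_pos (hfi t ht) (hgi t ht)).ne'

/-- `uu` of the moved lifts, as a function of `t = exp w` -/
theorem ext_K (β : Br S) (γ : Fin d → SL(2, ℤ)) {a b : Fin d} {M : Matrix (Fin 2) (Fin 2) ℤ}
    (hM : 0 < M.det)
    (h2 : C (β.e a : ℂ) * (C ((M * (γ a).1) 0 0 : ℂ) - C ((M * (γ a).1) 1 0 : ℂ) * X) ^ 2 =
      C ((M.det : ℂ) * β.e b) * (C ((γ b).1 0 0 : ℂ) - C ((γ b).1 1 0 : ℂ) * X) ^ 2) :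
    ∃ K : ℂ → ℝ, ContinuousOn K (ball 0 β.r) ∧
      (∀ w ∈ β.U, K (Complex.exp w) = uu (mz M (mz (γ a).1 (β.z a w))) (mz (γ b).1 (β.z b w))) ∧
      (K 0 = 0 ∨ (β.e a = 0 ∧ β.e b = 0 ∧ ∀ t ∈ ball (0 : ℂ) β.r,
        K t = uu (mz M (mz (γ a).1 (β.ψ a t))) (mz (γ b).1 (β.ψ b t)))) := by
  have hcψ : ∀ c, ContinuousOn (β.ψ c) (ball 0 β.r) := fun c => (β.dψ c).continuousOn
  rcases cusp_T hM (γ a) (γ b) h2 with ⟨ha, hb⟩ | ⟨ha, hb, hT, hT'⟩
  · refine ⟨fun t => uu (mz M (mz (γ a).1 (β.ψ a t))) (mz (γ b).1 (β.ψ b t)), ?_, ?_, ?_⟩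
    · have h3 : ContinuousOn (fun t => mz (γ a).1 (β.ψ a t)) (ball 0 β.r) :=
        (mz_diff (Mz_det (γ a)).ne').continuousOn.comp (hcψ a) fun t ht => psi_im β ha ht
      have h4 : ContinuousOn (fun t => mz (γ b).1 (β.ψ b t)) (ball 0 β.r) :=
        (mz_diff (Mz_det (γ b)).ne').continuousOn.comp (hcψ b) fun t ht => psi_im β hb ht
      have h5 : ContinuousOn (fun t => mz M (mz (γ a).1 (β.ψ a t))) (ball 0 β.r) :=
        (mz_diff hM.ne').continuousOn.comp h3 fun t ht => mz_im_sl _ (psi_im β ha ht)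
      refine uu_cont h5 h4 ?_ ?_
      · exact fun t ht => mz_im_pos hM (mz_im_sl _ (psi_im β ha ht))
      · exact fun t ht => mz_im_sl _ (psi_im β hb ht)
    · intro w hw
      have h3 : ∀ c, β.e c = 0 → β.z c w = β.ψ c (Complex.exp w) := by
        intro c hc
        rw [Br.z, zz, hc, Nat.cast_zero, zero_mul, zero_div, zero_add]
      rw [h3 a ha, h3 b hb]
    · exact Or.inr ⟨ha, hb, fun t _ => rfl⟩
  · -- a cusp
    obtain ⟨T, hTd⟩ : ∃ T : Matrix (Fin 2) (Fin 2) ℤ, T = ((γ b)⁻¹).1 * (M * (γ a).1) := ⟨_, rfl⟩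
    rw [← hTd] at hT hT'
    have hdet : T.det = M.det := by
      rw [hTd, Matrix.det_mul, Matrix.det_mul, (γ a).2, ((γ b)⁻¹).2]
      ring
    have hD : T 0 0 * T 1 1 = M.det := by
      rw [← hdet, Matrix.det_fin_two, hT]
      ring
    have hDR : (0 : ℝ) < (M.det : ℝ) := by exact_mod_cast hM
    have hT11 : (T 1 1 : ℝ) ≠ 0 := by
      have : T 1 1 ≠ 0 := by
        intro h
        rw [h, mul_zero] at hD
        omega
      exact_mod_cast this
    have haR : (0 : ℝ) < β.e a := by exact_mod_cast ha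
    have hbR : (0 : ℝ) < β.e b := by exact_mod_cast hb
    set ρ : ℝ := β.e b / β.e a with hρ
    set σ : ℝ := T 0 1 / T 1 1 with hσ
    have hρ0 : 0 < ρ := div_pos hbR haR
    have hρT : (T 0 0 : ℝ) / T 1 1 = ρ := by
      have e1 : (T 0 0 : ℝ) * T 1 1 = (M.det : ℝ) := by
        rw [← Int.cast_mul, hD]
      have e2 : (T 0 0 : ℝ) ^ 2 * β.e a = (M.det : ℝ) * β.e b := by
        have := congrArg (fun n : ℤ => (n : ℝ)) hT'
        simp only [Int.cast_mul, Int.cast_pow, Int.cast_natCast] at this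
        exact this
      rw [hρ, div_eq_div_iff hT11 haR.ne']
      have e3 : (T 0 0 : ℝ) ≠ 0 := by
        intro h
        rw [h, zero_mul] at e1
        linarith
      refine mul_left_cancel₀ e3 ?_
      rw [← e1] at e2
      linear_combination e2
    have hmz : ∀ z : ℂ, mz T z = (ρ : ℂ) * z + (σ : ℂ) := by
      intro z
      have hT11C : (T 1 1 : ℂ) ≠ 0 := by exact_mod_cast hT11
      rw [mz, hT, ← hρT, hσ]
      push_cast
      rw [zero_mul, zero_add]
      field_simp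
    have hkey : ∀ w ∈ β.U, uu (mz M (mz (γ a).1 (β.z a w))) (mz (γ b).1 (β.z b w)) =
        ‖(ρ : ℂ) * β.ψ a (Complex.exp w) + (σ : ℂ) - β.ψ b (Complex.exp w)‖ ^ 2 /
          ((ρ * (β.z a w).im) * (β.z b w).im) := by
      intro w hw
      rw [mz_T' hM (γ a) (γ b) (β.zim a hw) (β.zim b hw), ← hTd, hmz, uu]
      congr 1
      · congr 2
        rw [Br.z, Br.z, zz, zz, hρ]
        have : (β.e a : ℂ) ≠ 0 := by exact_mod_cast ha.ne'
        push_cast
        field_simp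
        ring
      · congr 1
        rw [Complex.add_im, Complex.ofReal_im, add_zero, Complex.im_ofReal_mul]
    set P : Fin d → ℂ → ℝ := fun c t => -(β.e c * Real.log ‖t‖ / (2 * Real.pi)) + (β.ψ c t).im with hP
    set N : ℂ → ℝ := fun t => ‖(ρ : ℂ) * β.ψ a t + (σ : ℂ) - β.ψ b t‖ ^ 2 with hN
    have hNc : ContinuousOn N (ball 0 β.r) := by
      refine ContinuousOn.pow (ContinuousOn.norm ?_) 2
      exact (((hcψ a).const_mul _).add continuousOn_const).sub (hcψ b)
    have h0 : (0 : ℂ) ∈ ball (0 : ℂ) β.r := mem_ball_self β.r_pos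
    have hnh : ball (0 : ℂ) β.r ∈ 𝓝 (0 : ℂ) := isOpen_ball.mem_nhds h0
    refine ⟨fun t => if t = 0 then 0 else N t / ((ρ * P a t) * P b t), ?_, ?_, Or.inl (by simp)⟩
    · intro t ht
      by_cases ht0 : t = 0
      · rw [ht0]
        refine ContinuousAt.continuousWithinAt ?_
        rw [← continuousWithinAt_compl_self, ContinuousWithinAt, if_pos rfl]
        have hPt : ∀ c, 0 < β.e c → Tendsto (P c) (𝓝[{0}ᶜ] 0) atTop := by
          intro c hc
          have e1 : Tendsto (fun t : ℂ => Real.log ‖t‖) (𝓝[{0}ᶜ] 0) atBot :=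
            Real.tendsto_log_nhdsGT_zero.comp tendsto_norm_nhdsNE_zero
          have hcR : (0 : ℝ) < β.e c := by exact_mod_cast hc
          have e2 : Tendsto (fun t : ℂ => -(β.e c * Real.log ‖t‖ / (2 * Real.pi))) (𝓝[{0}ᶜ] 0) atTop := by
            rw [tendsto_neg_atTop_iff]
            exact (e1.const_mul_atBot hcR).atBot_div_const (by positivity)
          have e3 : Tendsto (fun t : ℂ => (β.ψ c t).im) (𝓝[{0}ᶜ] 0) (𝓝 (β.ψ c 0).im) := by
            have e4 : ContinuousAt (β.ψ c) 0 := (hcψ c).continuousAt hnh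
            exact ((Complex.continuous_im.continuousAt).comp e4).tendsto.mono_left nhdsWithin_le_nhds
          exact e2.atTop_add e3
        have hN0 : Tendsto N (𝓝[{0}ᶜ] 0) (𝓝 (N 0)) :=
          (hNc.continuousAt hnh).tendsto.mono_left nhdsWithin_le_nhds
        have hPP : Tendsto (fun t => (ρ * P a t) * P b t) (𝓝[{0}ᶜ] 0) atTop :=
          ((hPt a ha).const_mul_atTop hρ0).atTop_mul_atTop₀ (hPt b hb)
        refine (hN0.div_atTop hPP).congr' ?_
        filter_upwards [self_mem_nhdsWithin] with t ht1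
        have ht2 : t ≠ 0 := ht1
        rw [if_neg ht2]
      · refine ContinuousAt.continuousWithinAt ?_
        have hPc : ∀ c, ContinuousAt (P c) t := by
          intro c
          have e1 : ContinuousAt (fun t : ℂ => Real.log ‖t‖) t :=
            continuous_norm.continuousAt.log (norm_ne_zero_iff.mpr ht0)
          have e2 : ContinuousAt (β.ψ c) t := (hcψ c).continuousAt (isOpen_ball.mem_nhds ht)
          exact (((e1.const_mul _).div_const _).neg).add ((Complex.continuous_im.continuousAt).comp e2)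
        have hr : ‖t‖ < β.r := by rwa [mem_ball_zero_iff] at ht
        have e3 : ContinuousAt (fun t => N t / ((ρ * P a t) * P b t)) t := by
          refine (hNc.continuousAt (isOpen_ball.mem_nhds ht)).div (((hPc a).const_mul ρ).mul (hPc b)) ?_
          exact (mul_pos (mul_pos hρ0 (im_zz β a ht0 hr)) (im_zz β b ht0 hr)).ne'
        refine e3.congr ?_
        filter_upwards [isOpen_ne.mem_nhds ht0] with s hs
        rw [if_neg hs]
    · intro w hw
      simp only
      rw [if_neg (Complex.exp_ne_zero w), hkey w hw, hN, hP]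
      simp only
      rw [Complex.norm_exp, Real.log_exp, z_im_eq, z_im_eq]

/-- the lifts are not constant near a point -/
theorem z_nc (hN : S.NCo) (A : Atl S) (β : Br S) (a : Fin d) {w : ℂ} (hw : w ∈ β.U) {c : ℂ}
    (h : ∀ᶠ v in 𝓝 w, β.z a v = c) : False := by
  have han : AnalyticOnNhd ℂ (fun v => β.z a v - c) β.U :=
    ((β.zdiff a).sub (differentiableOn_const c)).analyticOnNhd β.isOpen
  have h1 := han.eqOn_zero_of_preconnected_of_eventuallyEq_zero β.convex.isPreconnected hw (by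
    filter_upwards [h] with v hv
    simp [hv])
  have h2 : Ind (β.res (fun _ : Fin 1 => a)) :=
    ind_solo (S := S.res (fun _ : Fin 1 => a)) (fun _ c => hN a c) (A.res (fun _ => a))
      (fun _ b b' _ _ => Subsingleton.elim b b') _
  have hG : (MvPolynomial.X 0 - MvPolynomial.C c : MvPolynomial (Fin 1) ℂ) ≠ 0 := by
    intro h3
    have h4 := congrArg (MvPolynomial.eval (fun _ => c + 1)) h3
    simp at h4
  obtain ⟨v, hv, hv0⟩ := h2 _ hG
  apply hv0
  have h5 := h1 hv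
  simp only [map_sub, MvPolynomial.eval_X, MvPolynomial.eval_C]
  exact h5

private theorem mz_inj {g : Matrix (Fin 2) (Fin 2) ℤ} (hg : 0 < g.det) {z w : ℂ} (hz : 0 < z.im)
    (hw : 0 < w.im) (h : mz g z = mz g w) : z = w := by
  have h1 : uu z w = 0 := by rw [← uu_mz hg hz hw, h, uu_self]
  exact uu_eq_zero hz hw h1.le

private theorem fin_Tp (o : Option ℂ) {m : ℕ} (hm : 0 < m) (E : Finset ℂ) :
    {t : ℂ | Tp o (t ^ m) ∈ E}.Finite := by
  classical
  set q : ℂ → ℂ := fun T => o.elim T⁻¹ (fun c => T - c) with hq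
  have hqT : ∀ s, q (Tp o s) = s := by
    intro s
    rw [hq]
    cases o with
    | none => simp [Tp]
    | some c => simp [Tp]
  refine ((E.biUnion fun c => (nthRoots m (q c)).toFinset).finite_toSet).subset ?_
  intro t ht
  rw [Finset.mem_coe, Finset.mem_biUnion]
  refine ⟨_, ht, ?_⟩
  rw [Multiset.mem_toFinset, mem_nthRoots hm, hqT]

/-- **equivariant lifts are related** -/
theorem rel_of (hN : S.NCo) (A : Atl S) {I : Ideal (MvPolynomial (Fin d) ℂ)}
    (hI : ∃ (β : Br S) (γ : Fin d → SL(2, ℤ)), vanishingIdeal ℂ (cv β γ) = I) {a b : Fin d}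
    {M : Matrix (Fin 2) (Fin 2) ℤ} (hM : 0 < M.det)
    (h1 : ∀ δ ∈ Stb I, M * (δ a).1 = (δ b).1 * M ∨ M * (δ a).1 = -((δ b).1 * M))
    (h2 : ∀ (β' : Br S) (γ' : Fin d → SL(2, ℤ)), vanishingIdeal ℂ (cv β' γ') = I →
      C (β'.e a : ℂ) * (C ((M * (γ' a).1) 0 0 : ℂ) - C ((M * (γ' a).1) 1 0 : ℂ) * X) ^ 2 =
        C ((M.det : ℂ) * β'.e b) * (C ((γ' b).1 0 0 : ℂ) - C ((γ' b).1 1 0 : ℂ) * X) ^ 2) :
    ∀ p ∈ S.pt, p.1 ∉ A.cen → ∃ z : ℂ, 0 < z.im ∧ S.x a p = jF z ∧ S.x b p = jF (mz M z) := by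
  obtain ⟨β₀, γ₀, hI₀⟩ := hI
  -- the function `u`
  obtain ⟨h, hh⟩ := glob a (S := S) (I := I) (fun ζ : Fin d → ℂ => uu (mz M (ζ a)) (ζ b)) (by
    intro δ hδ ζ hζ
    simp only
    have e1 : mz M (mz (δ a).1 (ζ a)) = mz (δ b).1 (mz M (ζ a)) := by
      rw [← mz_mul hM (Mz_det _) (hζ a), ← mz_mul (Mz_det _) hM (hζ a)]
      rcases h1 δ hδ with e2 | e2
      · rw [e2]
      · rw [e2, mz_neg]
    rw [e1]
    exact uu_mz (Mz_det (δ b)) (mz_im_pos hM (hζ a)) (hζ b))
  -- the charts of the atlas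
  have hex : ∀ i, ∃ (γ : Fin d → SL(2, ℤ)) (K : ℂ → ℝ), vanishingIdeal ℂ (cv (A.br i) γ) = I ∧
      ContinuousOn K (ball 0 (A.br i).r) ∧
      (∀ w ∈ (A.br i).U, K (Complex.exp w) = uu (mz M (mz (γ a).1 ((A.br i).z a w)))
        (mz (γ b).1 ((A.br i).z b w))) ∧
      (K 0 = 0 ∨ ((A.br i).e a = 0 ∧ (A.br i).e b = 0 ∧ ∀ t ∈ ball (0 : ℂ) (A.br i).r,
        K t = uu (mz M (mz (γ a).1 ((A.br i).ψ a t))) (mz (γ b).1 ((A.br i).ψ b t)))) := by
    intro i
    obtain ⟨γ, hγ⟩ := transport a A β₀ (A.br i) γ₀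
    rw [hI₀] at hγ
    obtain ⟨K, hK1, hK2, hK3⟩ := ext_K (A.br i) γ hM (h2 _ _ hγ)
    exact ⟨γ, K, hγ, hK1, hK2, hK3⟩
  choose γ K hγ hKc hKe hK0 using hex
  have hval : ∀ i, ∀ w ∈ (A.br i).U, h ((A.br i).pt w) = K i (Complex.exp w) := by
    intro i w hw
    rw [hh (A.br i) (γ i) (hγ i) w hw, hKe i w hw]
  -- enough: `h ≤ 0`
  suffices hle : ∀ p ∈ S.pt, p.1 ∉ A.cen → h p ≤ 0 by
    intro p hp hpc
    obtain ⟨i, w, hw, rfl⟩ := cover_mem A hp hpc
    have e1 := hle _ hp hpc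
    rw [hval i w hw, hKe i w hw] at e1
    have e2 := uu_eq_zero (mz_im_pos hM (mz_im_sl _ ((A.br i).zim a hw))) (mz_im_sl _ ((A.br i).zim b hw)) e1
    refine ⟨mz (γ i a).1 ((A.br i).z a w), mz_im_sl _ ((A.br i).zim a hw), ?_, ?_⟩
    · rw [jF_mz _ ((A.br i).zim a hw)]
      exact ((A.br i).jFz a hw).symm
    · rw [e2, jF_mz _ ((A.br i).zim b hw)]
      exact ((A.br i).jFz b hw).symm
  by_contra hcon
  push Not at hcon
  obtain ⟨p₁, hp₁, hp₁c, hpos⟩ := hcon
  -- the maximum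
  have hsub : ∀ i, closedBall (0 : ℂ) ((A.br i).r * Real.exp (-5)) ⊆ ball 0 (A.br i).r := by
    intro i
    refine closedBall_subset_ball ?_
    have e1 := (A.br i).r_pos
    have e2 : Real.exp (-5) < 1 := by
      rw [Real.exp_lt_one_iff]; norm_num
    nlinarith
  have hmaxi : ∀ i, ∃ t ∈ closedBall (0 : ℂ) ((A.br i).r * Real.exp (-5)),
      ∀ s ∈ closedBall (0 : ℂ) ((A.br i).r * Real.exp (-5)), K i s ≤ K i t := by
    intro i
    have e1 : (closedBall (0 : ℂ) ((A.br i).r * Real.exp (-5))).Nonempty := by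
      refine ⟨0, mem_closedBall_self ?_⟩
      have := (A.br i).r_pos
      positivity
    obtain ⟨t, ht, hmt⟩ := (isCompact_closedBall (0 : ℂ) _).exists_isMaxOn e1 ((hKc i).mono (hsub i))
    exact ⟨t, ht, fun s hs => hmt hs⟩
  choose T hT hTm using hmaxi
  have hcov : ∀ p ∈ S.pt, p.1 ∉ A.cen → ∃ i, h p ≤ K i (T i) := by
    intro p hp hpc
    obtain ⟨i, w, h3, -, h4⟩ := A.cover p hp hpc
    have hw : w ∈ (A.br i).U := by
      have e1 := (A.br i).r_pos
      have e2 : Real.exp (-5) < 1 := by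
        rw [Real.exp_lt_one_iff]; norm_num
      change Real.exp w.re < (A.br i).r
      nlinarith
    refine ⟨i, ?_⟩
    rw [← h4, hval i w hw]
    refine hTm i _ ?_
    rw [mem_closedBall_zero_iff, Complex.norm_exp]
    exact h3
  obtain ⟨i₁, hi₁⟩ := hcov p₁ hp₁ hp₁c
  have hne : (Finset.univ : Finset (Fin A.n)).Nonempty := ⟨i₁, Finset.mem_univ _⟩
  obtain ⟨i, -, hi⟩ := Finset.exists_max_image Finset.univ (fun i => K i (T i)) hne
  have hm0 : 0 < K i (T i) := lt_of_lt_of_le hpos (hi₁.trans (hi i₁ (Finset.mem_univ _)))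
  have hmax : ∀ p ∈ S.pt, p.1 ∉ A.cen → h p ≤ K i (T i) := by
    intro p hp hpc
    obtain ⟨j, hj⟩ := hcov p hp hpc
    exact hj.trans (hi j (Finset.mem_univ _))
  have hTr : T i ∈ ball (0 : ℂ) (A.br i).r := hsub i (hT i)
  -- near the maximum
  have hloc : ∀ᶠ t in 𝓝 (T i), t ∈ ball (0 : ℂ) (A.br i).r ∧ K i t ≤ K i (T i) := by
    have hfin := (fin_Tp (A.br i).o (A.br i).m_pos A.cen).subset
      (Set.sdiff_subset (s := {t : ℂ | Tp (A.br i).o (t ^ (A.br i).m) ∈ A.cen}) (t := {T i}))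
    have e1 : ∀ᶠ t in 𝓝 (T i), t ∉ {t : ℂ | Tp (A.br i).o (t ^ (A.br i).m) ∈ A.cen} \ {T i} := by
      refine hfin.isClosed.isOpen_compl.mem_nhds ?_
      rintro ⟨-, h3⟩
      exact h3 rfl
    have e2 : ∀ᶠ t in 𝓝 (T i), t ≠ 0 ∨ t = T i := by
      by_cases h0 : T i = 0
      · filter_upwards with t
        rw [h0]
        exact (eq_or_ne t 0).symm
      · filter_upwards [isOpen_ne.mem_nhds h0] with t ht
        exact Or.inl ht
    filter_upwards [e1, e2, isOpen_ball.mem_nhds hTr] with t ht1 ht2 ht3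
    refine ⟨ht3, ?_⟩
    by_cases hteq : t = T i
    · rw [hteq]
    · have ht0 : t ≠ 0 := ht2.resolve_right hteq
      have hU : Complex.log t ∈ (A.br i).U := by
        change Real.exp (Complex.log t).re < (A.br i).r
        rw [← Complex.norm_exp, Complex.exp_log ht0]
        rwa [mem_ball_zero_iff] at ht3
      have e3 := hval i _ hU
      rw [Complex.exp_log ht0] at e3
      rw [← e3]
      refine hmax _ ((A.br i).ptm hU) ?_
      intro hc
      apply ht1
      refine ⟨?_, hteq⟩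
      change Tp (A.br i).o (Complex.exp (Complex.log t) ^ (A.br i).m) ∈ A.cen at hc
      rwa [Complex.exp_log ht0] at hc
  obtain ⟨ε, hε, hall⟩ := Metric.eventually_nhds_iff_ball.1 hloc
  by_cases h0 : T i = 0
  · -- the centre of a branch
    rw [h0] at hall hm0
    obtain ⟨ha, hb, hK⟩ := (hK0 i).resolve_left hm0.ne'
    have hψ : ∀ c, DifferentiableOn ℂ ((A.br i).ψ c) (ball 0 ε) := fun c =>
      ((A.br i).dψ c).mono fun t ht => (hall t ht).1
    have hrig := rigid hε (f := fun t => mz M (mz (γ i a).1 ((A.br i).ψ a t)))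
      (g := fun t => mz (γ i b).1 ((A.br i).ψ b t)) (t₀ := 0)
      ((mz_diff hM.ne').comp ((mz_diff (Mz_det (γ i a)).ne').comp (hψ a)
        fun t ht => psi_im (A.br i) ha (hall t ht).1) fun t ht => mz_im_sl _ (psi_im (A.br i) ha (hall t ht).1))
      ((mz_diff (Mz_det (γ i b)).ne').comp (hψ b) fun t ht => psi_im (A.br i) hb (hall t ht).1)
      (fun t ht => mz_im_pos hM (mz_im_sl _ (psi_im (A.br i) ha (hall t ht).1)))
      (fun t ht => mz_im_sl _ (psi_im (A.br i) hb (hall t ht).1))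
      (by
        intro heq
        rw [hK 0 (hall 0 (mem_ball_self hε)).1] at hm0
        rw [heq, uu_self] at hm0
        exact lt_irrefl _ hm0)
      (by
        intro t ht
        rw [← hK t (hall t ht).1, ← hK 0 (hall 0 (mem_ball_self hε)).1]
        exact (hall t ht).2)
    -- so `z a` is constant
    have hc : ∀ t ∈ ball (0 : ℂ) ε, (A.br i).ψ a t = (A.br i).ψ a 0 := by
      intro t ht
      have e1 := hrig t ht
      have p1 := psi_im (A.br i) ha (hall t ht).1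
      have p0 := psi_im (A.br i) ha (hall 0 (mem_ball_self hε)).1
      exact mz_inj (Mz_det (γ i a)) p1 p0 (mz_inj hM (mz_im_sl _ p1) (mz_im_sl _ p0) e1)
    have hw₀ : ((Real.log ε - 1 : ℝ) : ℂ) ∈ {w : ℂ | Real.exp w.re < ε} := by
      change Real.exp ((Real.log ε - 1 : ℝ) : ℂ).re < ε
      rw [Complex.ofReal_re, ← Real.lt_log_iff_exp_lt hε]
      linarith
    have hopen : IsOpen {w : ℂ | Real.exp w.re < ε} :=
      isOpen_lt (Real.continuous_exp.comp Complex.continuous_re) continuous_const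
    have hUe : ∀ w ∈ {w : ℂ | Real.exp w.re < ε}, Complex.exp w ∈ ball (0 : ℂ) ε := by
      intro w hw
      rw [mem_ball_zero_iff, Complex.norm_exp]
      exact hw
    have hw₀U : ((Real.log ε - 1 : ℝ) : ℂ) ∈ (A.br i).U := by
      have := (hall _ (hUe _ hw₀)).1
      rw [mem_ball_zero_iff, Complex.norm_exp] at this
      exact this
    refine z_nc hN A (A.br i) a hw₀U (c := (A.br i).ψ a 0) ?_
    filter_upwards [hopen.mem_nhds hw₀] with w hw
    rw [Br.z, zz, ha, Nat.cast_zero, zero_mul, zero_div, zero_add]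
    exact hc _ (hUe w hw)
  · -- another point
    set w₀ := Complex.log (T i) with hw₀
    have hexp₀ : Complex.exp w₀ = T i := Complex.exp_log h0
    have hev : ∀ᶠ w in 𝓝 w₀, Complex.exp w ∈ ball (T i) ε := by
      refine Complex.continuous_exp.continuousAt.eventually_mem (isOpen_ball.mem_nhds ?_)
      rw [hexp₀]
      exact mem_ball_self hε
    obtain ⟨ε', hε', hall'⟩ := Metric.eventually_nhds_iff_ball.1 hev
    have hU : ∀ w ∈ ball w₀ ε', w ∈ (A.br i).U := by
      intro w hw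
      have := (hall _ (hall' w hw)).1
      rw [mem_ball_zero_iff, Complex.norm_exp] at this
      exact this
    have hw₀b : w₀ ∈ ball w₀ ε' := mem_ball_self hε'
    have hrig := rigid hε' (f := fun w => mz M (mz (γ i a).1 ((A.br i).z a w)))
      (g := fun w => mz (γ i b).1 ((A.br i).z b w)) (t₀ := w₀)
      ((mz_diff hM.ne').comp (((A.br i).mzdiff (γ i) a).mono hU) fun w hw => mz_im_sl _ ((A.br i).zim a (hU w hw)))
      (((A.br i).mzdiff (γ i) b).mono hU)
      (fun w hw => mz_im_pos hM (mz_im_sl _ ((A.br i).zim a (hU w hw))))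
      (fun w hw => mz_im_sl _ ((A.br i).zim b (hU w hw)))
      (by
        intro heq
        have e1 := hKe i w₀ (hU w₀ hw₀b)
        rw [hexp₀] at e1
        rw [e1] at hm0
        rw [heq, uu_self] at hm0
        exact lt_irrefl _ hm0)
      (by
        intro w hw
        rw [← hKe i w (hU w hw), ← hKe i w₀ (hU w₀ hw₀b), hexp₀]
        exact (hall _ (hall' w hw)).2)
    refine z_nc hN A (A.br i) a (hU w₀ hw₀b) (c := (A.br i).z a w₀) ?_
    filter_upwards [isOpen_ball.mem_nhds hw₀b] with w hw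
    have e1 := hrig w hw
    have p1 := (A.br i).zim a (hU w hw)
    have p0 := (A.br i).zim a (hU w₀ hw₀b)
    exact mz_inj (Mz_det (γ i a)) p1 p0 (mz_inj hM (mz_im_sl _ p1) (mz_im_sl _ p0) e1)

end Pool.Agent.LGO.AXG
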