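import Mathlib
import Pool.Agent.LGO.AXG.Defs

/-!
# LGO/AXG: no modular relation between two of the functions
-/

namespace Pool.Agent.LGO.AXG

open Polynomial Pool.Agent.LGO Pool.Agent.LGO.AX

variable {d : ℕ}

/-- no modular relation between two of the functions, even after removing finitely many fibres -/
def Cur.NoMod (S : Cur d) : Prop := ∀ i j : Fin d, i ≠ j → ∀ g : Matrix (Fin 2) (Fin 2) ℤ, 0 < g.det →
  ∀ E : Finset ℂ, ¬ ∀ p ∈ S.pt, p.1 ∉ E → ∃ z : ℂ, 0 < z.im ∧ S.x i p = jF z ∧ S.x j p = jF (mz g z)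

theorem Cur.NoMod.res {S : Cur d} (h : S.NoMod) {k : ℕ} {i : Fin k → Fin d} (hi : Function.Injective i) :
    (S.res i).NoMod := fun a b hab g hg E => h (i a) (i b) (hi.ne hab) g hg E

end Pool.Agent.LGO.AXG
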