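import Mathlib
import Pool.Agent.LGO.AXG.NoMod
import Pool.Agent.LGO.AXG.Gou
import Pool.Agent.LGO.AXG.Max

/-!
# LGO/AXG: algebraic independence of the lifts of functions without modular relations (any number, any cusps)

`ind_gen`: induction on the number of functions.  Let `I ≠ 0` be the ideal of relations of the lifts on a branch.  By
induction a relation `G ∈ I`, `G ≠ 0`, involves all the variables.  Take `v ≠ 0` in `HV I` with the smallest number of nonzero
components.
* If only `v a ≠ 0`: `v a (Z a) ∂ G / ∂ Z a ∈ I`, so `∂ G / ∂ Z a ∈ I`, for all `G ∈ I` (`z a` is not constant), so there is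
  `G ≠ 0` in `I` with `∂ G / ∂ Z a = 0`: contradiction.
* If `v a ≠ 0`, `v b ≠ 0`: `minG`, `gou`, `rel_of` give a modular relation between the functions `a` and `b`.
-/

namespace Pool.Agent.LGO.AXG

open Polynomial Pool.Agent.LGO Pool.Agent.LGO.AX
open scoped MatrixGroups
open MvPolynomial (vanishingIdeal pderiv)

variable {d : ℕ} {S : Cur d}

/-- one function: a nonzero polynomial in the lift is not zero on the lifted curve, moved by `γ` -/
private theorem one_ne (hN : S.NCo) (A : Atl S) (β : Br S) (γ : Fin d → SL(2, ℤ)) (a : Fin d) {f : ℂ[X]}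
    (hf : f ≠ 0) : ∃ w ∈ β.U, f.eval (mz (γ a).1 (β.z a w)) ≠ 0 := by
  have h1 : Ind (β.res (fun _ : Fin 1 => a)) :=
    ind_solo (S := S.res (fun _ : Fin 1 => a)) (fun _ c => hN a c) (A.res (fun _ => a))
      (fun _ b b' _ _ => Subsingleton.elim b b') _
  by_contra hcon
  push Not at hcon
  set G : MvPolynomial (Fin 1) ℂ := aeval (MvPolynomial.X 0) f with hG
  have hGe : ∀ ζ : Fin 1 → ℂ, MvPolynomial.eval ζ G = f.eval (ζ 0) := by
    intro ζ
    have h := Polynomial.hom_eval₂ f (algebraMap ℂ (MvPolynomial (Fin 1) ℂ)) (MvPolynomial.eval ζ)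
      (MvPolynomial.X 0)
    rw [hG, aeval_def, h, MvPolynomial.eval_X]
    have h2 : (MvPolynomial.eval ζ).comp (algebraMap ℂ (MvPolynomial (Fin 1) ℂ)) = RingHom.id ℂ := by
      ext c
      simp [MvPolynomial.algebraMap_eq]
    rw [h2, eval₂_id]
  have hG0 : G ≠ 0 := by
    intro h
    apply hf
    refine Polynomial.funext fun x => ?_
    rw [← hGe (fun _ => x), h, map_zero, eval_zero]
  obtain ⟨H, hH, hH0⟩ := exists_num_ne hG0 (fun _ => γ a)
  obtain ⟨w, hw, hw0⟩ := h1 H hH
  apply hw0
  refine hH0 _ (fun _ => β.zim a hw) ?_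
  rw [hGe]
  exact hcon w hw

/-- the ideal of relations is prime (as far as we need it) -/
private theorem prime_step (β : Br S) (γ : Fin d → SL(2, ℤ)) {P Q : MvPolynomial (Fin d) ℂ}
    (h : P * Q ∈ vanishingIdeal ℂ (cv β γ)) (hP : P ∉ vanishingIdeal ℂ (cv β γ)) :
    Q ∈ vanishingIdeal ℂ (cv β γ) := by
  rw [MvPolynomial.mem_vanishingIdeal_iff] at h hP ⊢
  push Not at hP
  obtain ⟨ζ, ⟨w, hw, rfl⟩, hne⟩ := hP
  have hanP := β.mzan γ P
  have hanQ := β.mzan γ Q
  have hcP := (hanP w hw).continuousAt
  have h1 : ∀ᶠ v in nhds w, (MvPolynomial.aeval (fun a => mz (γ a).1 (β.z a v)) P : ℂ) ≠ 0 :=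
    hcP.eventually_ne hne
  have h2 : (fun v => (MvPolynomial.aeval (fun a => mz (γ a).1 (β.z a v)) Q : ℂ)) =ᶠ[nhds w] 0 := by
    filter_upwards [h1, β.isOpen.mem_nhds hw] with v hv hvU
    have h3 := h _ ⟨v, hvU, rfl⟩
    rw [map_mul] at h3
    exact (mul_eq_zero.mp h3).resolve_left hv
  have h3 := hanQ.eqOn_zero_of_preconnected_of_eventuallyEq_zero β.convex.isPreconnected hw h2
  rintro ζ ⟨v, hv, rfl⟩
  exact h3 hv

/-- **algebraic independence of the lifts**: nonconstant functions, no two of them modular related -/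
theorem ind_gen : ∀ {d : ℕ} {S : Cur d} (_ : S.NCo) (_ : S.NoMod) (_ : Atl S) (β : Br S), Ind β := by
  intro d
  induction d with
  | zero => intro S _ _ _ β; exact ind_zero β
  | succ d ih =>
    intro S hN hM A β
    classical
    by_contra hcon
    unfold Ind at hcon
    push Not at hcon
    obtain ⟨G₀, hG₀, hG₀z⟩ := hcon
    set I := vanishingIdeal ℂ (cv β 1) with hI
    have hG₀I : G₀ ∈ I := by
      rw [hI, MvPolynomial.mem_vanishingIdeal_iff]
      rintro ζ ⟨w, hw, rfl⟩
      change MvPolynomial.eval _ G₀ = 0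
      have : (fun a => mz ((1 : Fin (d + 1) → SL(2, ℤ)) a).1 (β.z a w)) = fun a => β.z a w := by
        funext a
        exact mz_one _
      rw [this]
      exact hG₀z w hw
    -- relations involve all the variables
    have hall : ∀ a (G : MvPolynomial (Fin (d + 1)) ℂ), G ∈ I → pderiv a G = 0 → G = 0 := by
      intro a G hG hd
      have h1 : Ind (β.res a.succAbove) :=
        ih (S := S.res a.succAbove) (fun b c => hN _ c) (hM.res Fin.succAbove_right_injective)
          (A.res a.succAbove) _
      obtain ⟨q, hq⟩ := MvPolynomial.exists_rename_eq_of_vars_subset_range G a.succAbove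
        Fin.succAbove_right_injective (by
          intro b hb
          rw [Fin.range_succAbove]
          intro hba
          rw [Set.mem_singleton_iff] at hba
          rw [hba] at hb
          exact notMem_vars a hd hb)
      by_contra hG0
      have hq0 : q ≠ 0 := by
        rintro rfl
        rw [map_zero] at hq
        exact hG0 hq.symm
      obtain ⟨w, hw, hw0⟩ := h1 q hq0
      apply hw0
      rw [hI, MvPolynomial.mem_vanishingIdeal_iff] at hG
      have h2 := hG _ ⟨w, hw, rfl⟩
      rw [← hq, MvPolynomial.aeval_rename] at h2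
      have h3 : ((fun b => mz ((1 : Fin (d + 1) → SL(2, ℤ)) b).1 (β.z b w)) ∘ a.succAbove) =
          fun b => (β.res a.succAbove).z b w := by
        funext b
        exact mz_one _
      rw [h3] at h2
      exact h2
    -- the fields
    obtain ⟨i₀, hi₀⟩ := exists_cusp (S := S.ax 0) (fun _ c => hN 0 c) (A.ax 0) 0
    change 0 < (A.br i₀).e 0 at hi₀
    obtain ⟨γ₀, hγ₀⟩ := transport 0 A β (A.br i₀) 1
    have hex : ∃ n, ∃ v ∈ HV I, (Finset.univ.filter fun a => v a ≠ 0).card = n ∧ 0 < n := by
      refine ⟨_, cf (A.br i₀) γ₀, ?_, rfl, ?_⟩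
      · have h1 := HV_cusp (A.br i₀) γ₀
        rwa [hγ₀] at h1
      · rw [Finset.card_pos]
        refine ⟨0, ?_⟩
        rw [Finset.mem_filter]
        refine ⟨Finset.mem_univ _, ?_⟩
        rw [cf]
        refine mul_ne_zero (C_ne_zero.mpr (by exact_mod_cast hi₀.ne')) (pow_ne_zero 2 ?_)
        intro h2
        have h4 : ((γ₀ 0).1 0 0 : ℂ) = 0 := by
          have h3 := congrArg (fun q : ℂ[X] => q.eval 0) h2
          simpa using h3
        have h5 : ((γ₀ 0).1 1 0 : ℂ) = 0 := by
          have h3 := congrArg (fun q : ℂ[X] => q.eval 1) h2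
          simp only [eval_sub, eval_mul, eval_C, eval_X, eval_zero, mul_one] at h3
          rw [h4, zero_sub, neg_eq_zero] at h3
          exact h3
        have h4' : (γ₀ 0).1 0 0 = 0 := by exact_mod_cast h4
        have h5' : (γ₀ 0).1 1 0 = 0 := by exact_mod_cast h5
        have h6 := (γ₀ 0).2
        rw [Matrix.det_fin_two, h4', h5'] at h6
        simp at h6
    obtain ⟨v, hv, hvn, hvpos⟩ := Nat.find_spec hex
    have hmin : ∀ u ∈ HV I, (Finset.univ.filter fun a => u a ≠ 0).card < Nat.find hex → ∀ a, u a = 0 := by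
      intro u hu hun
      by_contra hcon
      push Not at hcon
      obtain ⟨a, ha⟩ := hcon
      refine Nat.find_min hex hun ⟨u, hu, rfl, ?_⟩
      rw [Finset.card_pos]
      exact ⟨a, by rw [Finset.mem_filter]; exact ⟨Finset.mem_univ _, ha⟩⟩
    rw [← hvn] at hvpos hmin
    rw [Finset.card_pos] at hvpos
    obtain ⟨a, ha⟩ := hvpos
    rw [Finset.mem_filter] at ha
    replace ha := ha.2
    by_cases hb : ∃ b, b ≠ a ∧ v b ≠ 0
    · -- two components
      obtain ⟨b, hba, hb⟩ := hb
      obtain ⟨i, hi⟩ := exists_cusp (S := S.ax a) (fun _ c => hN a c) (A.ax a) 0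
      change 0 < (A.br i).e a at hi
      obtain ⟨j, hj⟩ := exists_cusp (S := S.ax b) (fun _ c => hN b c) (A.ax b) 0
      change 0 < (A.br j).e b at hj
      have hG1 : ∀ l ∈ HV I, l a = 0 → l b = 0 := minG A hI.symm hv hmin ha hb hj
      have hG2 : ∀ l ∈ HV I, l b = 0 → l a = 0 := minG A hI.symm hv hmin hb ha hi
      obtain ⟨γ, hγ⟩ := transport a A β (A.br i) 1
      have hib : 0 < (A.br i).e b := by
        rcases Nat.eq_zero_or_pos ((A.br i).e b) with h0 | h0
        · exfalso
          have h1 := HV_cusp (A.br i) γ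
          rw [hγ] at h1
          have h2 := hG2 _ h1 (by rw [cf, h0]; simp)
          rw [cf] at h2
          rcases mul_eq_zero.mp h2 with h3 | h3
          · rw [C_eq_zero] at h3
            have h4 : (A.br i).e a = 0 := by exact_mod_cast h3
            omega
          · have h4 := pow_eq_zero_iff two_ne_zero |>.mp h3
            have h5 : ((γ a).1 0 0 : ℂ) = 0 := by
              have h6 := congrArg (fun q : ℂ[X] => q.eval 0) h4
              simpa using h6
            have h7 : ((γ a).1 1 0 : ℂ) = 0 := by
              have h6 := congrArg (fun q : ℂ[X] => q.eval 1) h4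
              simp only [eval_sub, eval_mul, eval_C, eval_X, eval_zero, mul_one] at h6
              rw [h5, zero_sub, neg_eq_zero] at h6
              exact h6
            have h5' : (γ a).1 0 0 = 0 := by exact_mod_cast h5
            have h7' : (γ a).1 1 0 = 0 := by exact_mod_cast h7
            have h8 := (γ a).2
            rw [Matrix.det_fin_two, h5', h7'] at h8
            simp at h8
        · exact h0
      obtain ⟨M, hMd, hM1, hM2⟩ := gou A hγ hi hib hG1
      exact hM a b hba.symm M hMd A.cen (rel_of hN A ⟨A.br i, γ, hγ⟩ hMd hM2 hM1)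
    · -- one component
      push Not at hb
      have hstep : ∀ G ∈ I, pderiv a G ∈ I := by
        intro G hG
        have h1 := hv G hG
        rw [vf_single hb] at h1
        refine prime_step β 1 h1 ?_
        intro h2
        obtain ⟨w, hw, hw0⟩ := one_ne hN A β 1 a ha
        apply hw0
        rw [MvPolynomial.mem_vanishingIdeal_iff] at h2
        have h3 := h2 _ ⟨w, hw, rfl⟩
        change MvPolynomial.eval _ _ = 0 at h3
        rw [aeval_def, Polynomial.hom_eval₂ (v a) (algebraMap ℂ (MvPolynomial (Fin (d + 1)) ℂ)),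
          MvPolynomial.eval_X] at h3
        have h4 : (MvPolynomial.eval (fun a => mz ((1 : Fin (d + 1) → SL(2, ℤ)) a).1 (β.z a w))).comp
            (algebraMap ℂ (MvPolynomial (Fin (d + 1)) ℂ)) = RingHom.id ℂ := by
          ext c
          simp [MvPolynomial.algebraMap_eq]
        rw [h4, eval₂_id] at h3
        exact h3
      have hk := pderiv_nil a G₀
      have hmem : ∀ k, (pderiv a)^[k] G₀ ∈ I := by
        intro k
        induction k with
        | zero => exact hG₀I
        | succ k ih =>
          rw [Function.iterate_succ_apply']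
          exact hstep _ ih
      have h5 := Nat.find_spec hk
      rcases Nat.eq_zero_or_pos (Nat.find hk) with h6 | h6
      · rw [h6] at h5
        exact hG₀ h5
      · obtain ⟨k, hk1⟩ := Nat.exists_eq_succ_of_ne_zero h6.ne'
        rw [hk1, Nat.succ_eq_add_one, Function.iterate_succ_apply'] at h5
        have h7 := hall a _ (hmem k) h5
        exact Nat.find_min hk (m := k) (by rw [hk1]; exact Nat.lt_succ_self k) h7

end Pool.Agent.LGO.AXG
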