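import Mathlib
import Pool.Agent.LGO.AXG.FamR
import Pool.Agent.LGO.AXG.IndR
import Pool.Agent.LGO.U.BDef

/-!
# LGO/AXG: no relation `Δ(τ_b) ^ p u = Δ(τ_a) ^ q v` with functions `u`, `v` on the curve

`disc_ne`: if two coordinates are not modular related, `a` has a pole somewhere and `u`, `v` have no zeros on the curve, then
`Δ(τ_b) ^ p u = Δ(τ_a) ^ q v` (`q > 0`) is not an identity.  Otherwise `(c_b ζ_b + d_b) ^ (12 p) = (c_a ζ_a + d_a) ^ (12 q)`
on a branch for an element of the monodromy with `c_a ≠ 0` (`rr_c`): a polynomial relation between the lifts, contrary to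
`ind_gen`.
-/

namespace Pool.Agent.LGO.AXG

open Polynomial Pool.Agent.LGO Pool.Agent.LGO.AX Filter Topology UpperHalfPlane
open scoped MatrixGroups

variable {d : ℕ} {S : Cur d}

/-- the discriminant as a function on `ℂ` -/
noncomputable def Dl (z : ℂ) : ℂ := ModularForm.discriminant (ofComplex z)

theorem Dl_coe (τ : ℍ) : Dl (τ : ℂ) = ModularForm.discriminant τ := by
  rw [Dl, ofComplex_apply]

theorem Dl_ne (z : ℂ) : Dl z ≠ 0 := ModularForm.discriminant_ne_zero _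

theorem Dl_diff : DifferentiableOn ℂ Dl {z : ℂ | 0 < z.im} :=
  UpperHalfPlane.mdifferentiable_iff.mp CuspForm.discriminant.holo'

theorem Dl_mz (γ : SL(2, ℤ)) {z : ℂ} (hz : 0 < z.im) :
    Dl (mz γ.1 z) = ((γ.1 1 0 : ℂ) * z + (γ.1 1 1 : ℂ)) ^ 12 * Dl z := by
  have h1 := U.BDef_disc_sl γ ⟨z, hz⟩
  have h2 : ((γ • (⟨z, hz⟩ : ℍ) : ℍ) : ℂ) = mz γ.1 z := by
    rw [UpperHalfPlane.coe_specialLinearGroup_apply]
    simp [mz]
  rw [← h2, Dl_coe, h1]
  rw [← Dl_coe ⟨z, hz⟩]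

/-- functions on the curve: analytic on the branches, without zeros -/
structure Fn (S : Cur d) (u : ℂ × ℂ → ℂ) : Prop where
  hol : ∀ β : Br S, DifferentiableOn ℂ (fun w => u (β.pt w)) β.U
  ne : ∀ p ∈ S.pt, u p ≠ 0

/-- the relation -/
noncomputable def Phi (a b : Fin d) (p q : ℕ) (u v : ℂ × ℂ → ℂ) (ζ : Fin d → ℂ) (x : ℂ × ℂ) : ℂ :=
  Dl (ζ b) ^ p * u x - Dl (ζ a) ^ q * v x

theorem Phi_an {a b : Fin d} {p q : ℕ} {u v : ℂ × ℂ → ℂ} (hu : Fn S u) (hv : Fn S v) :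
    AnR S (Phi a b p q u v) := by
  intro β γ
  have h1 : ∀ c : Fin d, DifferentiableOn ℂ (fun w => Dl (mz (γ c).1 (β.z c w))) β.U := fun c =>
    Dl_diff.comp (β.mzdiff γ c) fun w hw => mz_im_sl (γ c) (β.zim c hw)
  have h2 : DifferentiableOn ℂ (fun w => Dl (mz (γ b).1 (β.z b w)) ^ p * u (β.pt w) -
      Dl (mz (γ a).1 (β.z a w)) ^ q * v (β.pt w)) β.U :=
    (((h1 b).pow p).mul (hu.hol β)).sub (((h1 a).pow q).mul (hv.hol β))
  exact h2.analyticOnNhd β.isOpen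

/-- **no relation between the discriminants** -/
theorem disc_ne (hN : S.NCo) (hM : S.NoMod) (A : Atl S) {a b : Fin d} (hab : a ≠ b) {β : Br S}
    (he : 0 < β.e a) {u v : ℂ × ℂ → ℂ} (hu : Fn S u) (hv : Fn S v) {p q : ℕ} (hq : 0 < q) :
    ∃ w ∈ β.U, Dl (β.z b w) ^ p * u (β.pt w) ≠ Dl (β.z a w) ^ q * v (β.pt w) := by
  classical
  by_contra hcon
  push Not at hcon
  have hR : RR (Phi a b p q u v) β 1 := by
    intro w hw
    change Dl (mz (1 : SL(2, ℤ)).1 (β.z b w)) ^ p * u (β.pt w) -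
      Dl (mz (1 : SL(2, ℤ)).1 (β.z a w)) ^ q * v (β.pt w) = 0
    rw [mz_one, mz_one, hcon w hw, sub_self]
  obtain ⟨β', γ, δ, h1, h2, hc⟩ := rr_c (Phi_an hu hv) A hR he
  set G : MvPolynomial (Fin d) ℂ :=
    (MvPolynomial.C ((δ b).1 1 0 : ℂ) * MvPolynomial.X b + MvPolynomial.C ((δ b).1 1 1 : ℂ)) ^ (12 * p) -
    (MvPolynomial.C ((δ a).1 1 0 : ℂ) * MvPolynomial.X a + MvPolynomial.C ((δ a).1 1 1 : ℂ)) ^ (12 * q)
    with hGd
  have hGe : ∀ ζ : Fin d → ℂ, MvPolynomial.eval ζ G =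
      (((δ b).1 1 0 : ℂ) * ζ b + ((δ b).1 1 1 : ℂ)) ^ (12 * p) -
      (((δ a).1 1 0 : ℂ) * ζ a + ((δ a).1 1 1 : ℂ)) ^ (12 * q) := by
    intro ζ
    simp only [hGd, map_sub, map_pow, map_add, map_mul, MvPolynomial.eval_C, MvPolynomial.eval_X]
  have hcc : ((δ a).1 1 0 : ℂ) ≠ 0 := by exact_mod_cast hc
  have hG : G ≠ 0 := by
    intro h0
    have e1 := hGe (Function.update 0 a (-((δ a).1 1 1 : ℂ) / ((δ a).1 1 0 : ℂ)))
    have e2 := hGe (Function.update 0 a ((1 - ((δ a).1 1 1 : ℂ)) / ((δ a).1 1 0 : ℂ)))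
    rw [h0, map_zero, Function.update_self, Function.update_of_ne hab.symm, mul_div_cancel₀ _ hcc] at e1 e2
    rw [neg_add_cancel, zero_pow (by omega), sub_zero] at e1
    rw [sub_add_cancel, one_pow, ← e1, zero_sub] at e2
    exact one_ne_zero (neg_eq_zero.mp e2.symm)
  obtain ⟨H, hH, hH0⟩ := exists_num_ne hG γ
  obtain ⟨w, hw, hw0⟩ := ind_gen hN hM A β' H hH
  apply hw0
  refine hH0 _ (fun c => β'.zim c hw) ?_
  rw [hGe]
  have hz : ∀ c, 0 < (mz (γ c).1 (β'.z c w)).im := fun c => mz_im_sl (γ c) (β'.zim c hw)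
  have r1 : Dl (mz (γ b).1 (β'.z b w)) ^ p * u (β'.pt w) -
      Dl (mz (γ a).1 (β'.z a w)) ^ q * v (β'.pt w) = 0 := h1 w hw
  have r2 : Dl (mz ((δ * γ) b).1 (β'.z b w)) ^ p * u (β'.pt w) -
      Dl (mz ((δ * γ) a).1 (β'.z a w)) ^ q * v (β'.pt w) = 0 := h2 w hw
  rw [Pi.mul_apply, Pi.mul_apply, mz_mul_sl _ _ (β'.zim b hw), mz_mul_sl _ _ (β'.zim a hw),
    Dl_mz _ (hz b), Dl_mz _ (hz a), mul_pow, mul_pow, ← pow_mul, ← pow_mul] at r2
  have hne : Dl (mz (γ a).1 (β'.z a w)) ^ q * v (β'.pt w) ≠ 0 :=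
    mul_ne_zero (pow_ne_zero _ (Dl_ne _)) (hv.ne _ (β'.ptm hw))
  apply mul_right_cancel₀ hne
  rw [zero_mul]
  linear_combination r2 - (((δ b).1 1 0 : ℂ) * mz (γ b).1 (β'.z b w) + ((δ b).1 1 1 : ℂ)) ^ (12 * p) * r1

theorem br_dT (β : Br S) : DifferentiableOn ℂ (fun w => (β.pt w).1) β.U := by
  intro w _
  have h : DifferentiableAt ℂ (fun v => Complex.exp v ^ β.m) w := by fun_prop
  have h2 : DifferentiableAt ℂ (Tp β.o) (Complex.exp w ^ β.m) := by
    have hs : Complex.exp w ^ β.m ≠ 0 := pow_ne_zero _ (Complex.exp_ne_zero w)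
    generalize β.o = o
    cases o with
    | none =>
      have h : Tp (none : Option ℂ) = fun s : ℂ => s⁻¹ := rfl
      rw [h]
      exact differentiableAt_inv hs
    | some c =>
      have h : Tp (some c) = fun s : ℂ => c + s := rfl
      rw [h]
      fun_prop
  exact (DifferentiableAt.comp (g := Tp β.o) w h2 h).differentiableWithinAt

theorem br_dY (β : Br S) : DifferentiableOn ℂ (fun w => (β.pt w).2) β.U := by
  have h1 : DifferentiableOn ℂ (fun w => β.Y (Complex.exp w)) β.U := by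
    refine β.dY.comp (Complex.differentiable_exp.differentiableOn) fun w hw => ?_
    refine ⟨norm_pos_iff.2 (Complex.exp_ne_zero w), ?_⟩
    rw [Complex.norm_exp]
    exact hw
  exact h1

/-- polynomials in the two coordinates of the plane -/
theorem fn_bi (P : ℂ[X][X]) (hP : ∀ x ∈ S.pt, P.evalEval x.1 x.2 ≠ 0) :
    Fn S (fun x => P.evalEval x.1 x.2) where
  ne := hP
  hol := by
    intro β
    have h1 := br_dT β
    have h2 := br_dY β
    have h3 : (fun w => P.evalEval (β.pt w).1 (β.pt w).2) = fun w =>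
        ∑ k ∈ P.support, (P.coeff k).eval (β.pt w).1 * (β.pt w).2 ^ k := by
      funext w
      rw [evalEval, eval_eq_sum (p := P), Polynomial.sum, eval_finsetSum]
      refine Finset.sum_congr rfl fun k _ => ?_
      rw [eval_mul, eval_pow, eval_C]
    rw [h3]
    refine DifferentiableOn.fun_sum fun k _ => ?_
    exact ((P.coeff k).differentiable.comp_differentiableOn h1).mul (h2.pow k)

theorem fn_one (P : ℂ[X]) (hP : ∀ x ∈ S.pt, P.eval x.1 ≠ 0) : Fn S (fun x => P.eval x.1) where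
  ne := hP
  hol := fun β => P.differentiable.comp_differentiableOn (br_dT β)

theorem Fn.smul {u : ℂ × ℂ → ℂ} (hu : Fn S u) {c : ℂ} (hc : c ≠ 0) : Fn S (fun x => c * u x) where
  ne := fun x hx => mul_ne_zero hc (hu.ne x hx)
  hol := fun β => (hu.hol β).const_mul c

end Pool.Agent.LGO.AXG
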