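import Mathlib
import Pool.Agent.LGO.AX.Rel
import Pool.Agent.LGO.AXG.ChB
import Pool.Agent.LGO.AXG.Ind
import Pool.Agent.LGO.AXG.Conv

/-!
# LGO/AXG: the atlas of a rational curve without common poles

`x a = A a (t) / B a (t)`, not constant, no two of them with a common pole on the projective line: `atl_rat`.  The model is
the line `Y = 0` in the plane, without the zeros of the denominators.
-/

namespace Pool.Agent.LGO.AXG

open Polynomial Pool.Agent.LGO Pool.Agent.LGO.AX Filter Topology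

variable {d : ℕ}

/-- the model of a rational curve -/
noncomputable def rat (A B : Fin d → ℂ[X]) (hB : ∀ a, B a ≠ 0) : Cur d where
  F := X
  N := fun a => C (A a * ∏ b ∈ Finset.univ.erase a, B b)
  M := ∏ b, B b
  D := ∏ b, B b
  irr := prime_X.irreducible
  deg := by rw [natDegree_X]; exact one_pos
  D_ne := Finset.prod_ne_zero_iff.mpr fun b _ => hB b
  lead := fun T _ => by simp
  sep := fun T _ => by
    rw [Polynomial.map_X]
    exact separable_X
  M_ne := fun T h => h

theorem rat_mem (A B : Fin d → ℂ[X]) (hB : ∀ a, B a ≠ 0) (p : ℂ × ℂ) :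
    p ∈ (rat A B hB).pt ↔ (∀ a, (B a).eval p.1 ≠ 0) ∧ p.2 = 0 := by
  change ((∏ b, B b).eval p.1 ≠ 0 ∧ (X : ℂ[X][X]).evalEval p.1 p.2 = 0) ↔ _
  rw [eval_prod, Finset.prod_ne_zero_iff]
  simp [evalEval]

theorem rat_x (A B : Fin d → ℂ[X]) (hB : ∀ a, B a ≠ 0) (a : Fin d) {p : ℂ × ℂ}
    (hp : p ∈ (rat A B hB).pt) : (rat A B hB).x a p = (A a).eval p.1 / (B a).eval p.1 := by
  rw [rat_mem] at hp
  change (C (A a * ∏ b ∈ Finset.univ.erase a, B b) : ℂ[X][X]).evalEval p.1 p.2 /
    (∏ b, B b).eval p.1 = _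
  have h1 : (C (A a * ∏ b ∈ Finset.univ.erase a, B b) : ℂ[X][X]).evalEval p.1 p.2 =
      (A a).eval p.1 * ∏ b ∈ Finset.univ.erase a, (B b).eval p.1 := by
    rw [evalEval, eval_C, eval_mul, eval_prod]
  rw [h1, eval_prod, ← Finset.mul_prod_erase Finset.univ (fun b => (B b).eval p.1) (Finset.mem_univ a)]
  refine mul_div_mul_right _ _ ?_
  exact Finset.prod_ne_zero_iff.mpr fun b _ => hp.1 b

theorem rat_NCo (A B : Fin d → ℂ[X]) (hB : ∀ a, B a ≠ 0) (hc : ∀ a, IsCoprime (A a) (B a))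
    (hn : ∀ a, 0 < max (A a).natDegree (B a).natDegree) : (rat A B hB).NCo := by
  intro a c
  by_contra hcon
  push Not at hcon
  -- `A a = c B a`
  have h1 : A a - C c * B a = 0 := by
    by_contra hne
    have h2 : (A a - C c * B a) * ∏ b, B b ≠ 0 :=
      mul_ne_zero hne (Finset.prod_ne_zero_iff.mpr fun b _ => hB b)
    obtain ⟨T, hT⟩ : ∃ T : ℂ, ((A a - C c * B a) * ∏ b, B b).eval T ≠ 0 := by
      by_contra h3
      push Not at h3
      exact h2 (Polynomial.funext fun T => by rw [h3 T, eval_zero])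
    rw [eval_mul] at hT
    have hT2 := right_ne_zero_of_mul hT
    rw [eval_prod, Finset.prod_ne_zero_iff] at hT2
    have hp : (T, (0 : ℂ)) ∈ (rat A B hB).pt :=
      (rat_mem A B hB _).mpr ⟨fun b => hT2 b (Finset.mem_univ b), rfl⟩
    have h4 := hcon _ hp
    rw [rat_x A B hB a hp, div_eq_iff (hT2 a (Finset.mem_univ a))] at h4
    apply left_ne_zero_of_mul hT
    change (A a).eval T = c * (B a).eval T at h4
    rw [eval_sub, eval_mul, eval_C, h4, sub_self]
  have h2 : A a = C c * B a := sub_eq_zero.mp h1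
  have h3 : IsUnit (B a) := (hc a).isUnit_of_dvd' (h2 ▸ Dvd.intro_left _ rfl) dvd_rfl
  have h4 : (B a).natDegree = 0 := natDegree_eq_zero_of_isUnit h3
  have h5 : (A a).natDegree = 0 := by
    have h6 : (A a).natDegree ≤ (B a).natDegree := by
      rw [h2]
      exact natDegree_C_mul_le _ _
    omega
  have := hn a
  rw [h4, h5] at this
  simp at this

/-- `A / B` is bounded near a finite point which is not a zero of `B` -/
private theorem rat_fin {A B : ℂ[X]} {c : ℂ} (hB : B.eval c ≠ 0) {f : ℝ → ℂ}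
    (hf : Tendsto f atTop (𝓝 c)) (h : Tendsto (fun t => ‖A.eval (f t) / B.eval (f t)‖) atTop atTop) :
    False := by
  have h1 : Tendsto (fun t => A.eval (f t) / B.eval (f t)) atTop (𝓝 (A.eval c / B.eval c)) :=
    ((A.continuous.tendsto c).comp hf).div ((B.continuous.tendsto c).comp hf) hB
  exact not_tendsto_nhds_of_tendsto_atTop h _ h1.norm

private theorem rat_refl {A : ℂ[X]} {n : ℕ} (hA : A.natDegree ≤ n) {s : ℂ} (hs : s ≠ 0) :
    A.eval s⁻¹ = (A.reflect n).eval s * (s⁻¹) ^ n := by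
  let _ : Invertible (s⁻¹) := invertibleOfNonzero (inv_ne_zero hs)
  have h1 := eval₂_reflect_mul_pow (RingHom.id ℂ) (s⁻¹) n A hA
  rw [invOf_eq_inv, inv_inv] at h1
  exact h1.symm

/-- `A / B` is bounded near `∞` if the degree of `A` is at most that of `B` -/
private theorem rat_inf {A B : ℂ[X]} (hB : B ≠ 0) (hAB : A.natDegree ≤ B.natDegree) {f : ℝ → ℂ}
    (hf0 : ∀ t, f t ≠ 0) (hf : Tendsto f atTop (𝓝 0))
    (h : Tendsto (fun t => ‖A.eval (f t)⁻¹ / B.eval (f t)⁻¹‖) atTop atTop) : False := by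
  have h0 : (B.reflect B.natDegree).eval 0 ≠ 0 := by
    rw [← coeff_zero_eq_eval_zero, coeff_reflect, revAt_le (Nat.zero_le _), Nat.sub_zero]
    exact leadingCoeff_ne_zero.mpr hB
  refine rat_fin (A := A.reflect B.natDegree) h0 hf (h.congr fun t => ?_)
  rw [rat_refl hAB (hf0 t), rat_refl le_rfl (hf0 t),
    mul_div_mul_right _ _ (pow_ne_zero _ (inv_ne_zero (hf0 t)))]

/-- at most one function is infinite at the centre of a branch -/
theorem rat_solo (A B : Fin d → ℂ[X]) (hB : ∀ a, B a ≠ 0)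
    (hp : ∀ a b, a ≠ b → ∀ t, ¬ ((B a).eval t = 0 ∧ (B b).eval t = 0))
    (hi : ∀ a b, a ≠ b → ¬ ((B a).natDegree < (A a).natDegree ∧ (B b).natDegree < (A b).natDegree))
    (β : Br (rat A B hB)) (a b : Fin d) (ha : 0 < β.e a) (hb : 0 < β.e b) : a = b := by
  by_contra hab
  -- the path `w = - t`
  set s : ℝ → ℂ := fun t => Complex.exp (-(t : ℂ)) ^ β.m with hs
  have hs0 : ∀ t, s t ≠ 0 := fun t => pow_ne_zero _ (Complex.exp_ne_zero _)
  have hst : Tendsto s atTop (𝓝 0) := by
    have h1 : Tendsto (fun t : ℝ => Complex.exp (-(t : ℂ))) atTop (𝓝 0) := by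
      rw [tendsto_zero_iff_norm_tendsto_zero]
      have h2 : (fun t : ℝ => ‖Complex.exp (-(t : ℂ))‖) = fun t : ℝ => Real.exp (-t) := by
        funext t
        rw [Complex.norm_exp]
        simp
      rw [h2]
      exact Real.tendsto_exp_neg_atTop_nhds_zero
    have h3 := h1.pow β.m
    rwa [zero_pow β.m_pos.ne'] at h3
  have hU : ∀ᶠ t : ℝ in atTop, (-(t : ℂ)) ∈ β.U := by
    filter_upwards [eventually_gt_atTop (-Real.log β.r)] with t ht
    change Real.exp (-(t : ℂ)).re < β.r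
    rw [← Real.lt_log_iff_exp_lt β.r_pos]
    simp only [Complex.neg_re, Complex.ofReal_re]
    linarith
  have hx : ∀ k, 0 < β.e k → Tendsto (fun t : ℝ => ‖(A k).eval (Tp β.o (s t)) /
      (B k).eval (Tp β.o (s t))‖) atTop atTop := by
    intro k hk
    have h1 := x_inf (β.ax k) (a := 0) hk
    refine (tendsto_congr' ?_).mp h1
    filter_upwards [hU] with t ht
    have h2 : β.pt (-(t : ℂ)) ∈ (rat A B hB).pt := β.mem _ (by
      rw [Complex.norm_exp]; exact Real.exp_pos _) (by rw [Complex.norm_exp]; exact ht)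
    exact congrArg norm (rat_x A B hB k h2)
  rcases ho : β.o with _ | c
  · -- the point at infinity
    have h1 : ∀ t, Tp β.o (s t) = (s t)⁻¹ := fun t => by rw [ho]; rfl
    have h2 : ∀ k, 0 < β.e k → (B k).natDegree < (A k).natDegree := by
      intro k hk
      by_contra h3
      have h4 := hx k hk
      simp only [h1] at h4
      exact rat_inf (hB k) (not_lt.mp h3) hs0 hst h4
    exact hi a b hab ⟨h2 a ha, h2 b hb⟩
  · have h1 : ∀ t, Tp β.o (s t) = c + s t := fun t => by rw [ho]; rfl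
    have h2 : ∀ k, 0 < β.e k → (B k).eval c = 0 := by
      intro k hk
      by_contra h3
      have h4 := hx k hk
      simp only [h1] at h4
      have h5 : Tendsto (fun t => c + s t) atTop (𝓝 c) := by
        have h6 := hst.const_add c
        rwa [add_zero] at h6
      exact rat_fin h3 h5 h4
    exact hp a b hab c ⟨h2 a ha, h2 b hb⟩

/-- **the atlas of a rational curve without common poles** -/
theorem atl_rat (hd : 2 ≤ d) (A B : Fin d → ℂ[X]) (hB : ∀ a, B a ≠ 0)
    (hc : ∀ a, IsCoprime (A a) (B a)) (hn : ∀ a, 0 < max (A a).natDegree (B a).natDegree)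
    (hp : ∀ a b, a ≠ b → ∀ t, ¬ ((B a).eval t = 0 ∧ (B b).eval t = 0))
    (hi : ∀ a b, a ≠ b → ¬ ((B a).natDegree < (A a).natDegree ∧ (B b).natDegree < (A b).natDegree)) :
    PWG.Atl {y : Fin d → ℂ | ∃ t : ℂ, ∀ a, (B a).eval t ≠ 0 ∧ y a * (B a).eval t = (A a).eval t} := by
  obtain ⟨At⟩ := exists_atl (rat A B hB)
  have hs : ∀ (β : Br (rat A B hB)) (a b : Fin d), 0 < β.e a → 0 < β.e b → a = b :=
    rat_solo A B hB hp hi
  refine conv hd At (ind_solo (rat_NCo A B hB hc hn) At fun i => hs _) (fun i => hs _)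
    (F := (fun t : ℂ => fun a => (A a).eval t / (B a).eval t) '' (At.cen : Set ℂ))
    ((Finset.finite_toSet _).image _) ?_
  rintro y ⟨t, ht⟩
  have hy : y = fun a => (A a).eval t / (B a).eval t := funext fun a => by
    rw [eq_div_iff (ht a).1, (ht a).2]
  by_cases htc : t ∈ At.cen
  · exact Or.inl ⟨t, htc, hy.symm⟩
  · right
    have hpt : (t, (0 : ℂ)) ∈ (rat A B hB).pt := (rat_mem A B hB _).mpr ⟨fun a => (ht a).1, rfl⟩
    refine ⟨(t, 0), hpt, htc, ?_⟩
    rw [hy]
    funext a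
    rw [rat_x A B hB a hpt]

end Pool.Agent.LGO.AXG
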