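import Mathlib
import Pool.Agent.LGO.AXG.Rat
import Pool.Agent.LGO.ZF.CurC

/-!
# LGO/AXG: the atlas of a generic rational curve over `Qb`
-/

namespace Pool.Agent.LGO.AXG

open Polynomial Pool.Agent.LGO Pool.Agent.LGO.AX Pool.Agent.Hhelper14.ZP Pool.Agent.Hhelper14.ZPL

/-- `Atl` for a set which is covered by another one up to finitely many points -/
theorem atl_mono {m : ℕ} {W W' E : Set (Fin m → ℂ)} (h : PWG.Atl W') (hE : E.Finite)
    (hW : ∀ y ∈ W, y ∈ E ∨ y ∈ W') : PWG.Atl W := by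
  obtain ⟨F, n, k, z, e, ψ, hF, hz, he, hs, hc⟩ := h
  refine ⟨F ∪ E, n, k, z, e, ψ, hF.union hE, hz, he, hs, fun x hx => ?_⟩
  rcases hW x hx with h1 | h1
  · exact Or.inl (Or.inr h1)
  · rcases hc x h1 with h2 | h2
    · exact Or.inl (Or.inl h2)
    · exact Or.inr h2

/-- **the atlas of a generic rational curve**, for `m ≥ 2` of its coordinates -/
theorem atl_gen {n : ℕ} {A B : Fin n → Polynomial Qb} (h : ZF.Gen A B) {m : ℕ} (hm : 2 ≤ m)
    (i : Fin m → Fin n) (hi : Function.Injective i) :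
    PWG.Atl {y : Fin m → ℂ | ∃ x ∈ ZF.curve A B, y = fun a => x (i a)} := by
  have hinj : Function.Injective (algebraMap Qb ℂ) := (algebraMap Qb ℂ).injective
  have hdeg : ∀ P : Polynomial Qb, (P.map (algebraMap Qb ℂ)).natDegree = P.natDegree := fun P =>
    natDegree_map_eq_of_injective hinj P
  have hev : ∀ (P : Polynomial Qb) (t : ℂ), (P.map (algebraMap Qb ℂ)).eval t = aeval t P := fun P t =>
    eval_map_algebraMap P t
  have h1 := atl_rat hm (fun a => (A (i a)).map (algebraMap Qb ℂ))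
    (fun a => (B (i a)).map (algebraMap Qb ℂ))
    (fun a => (Polynomial.map_ne_zero_iff hinj).mpr (h.ne _))
    (fun a => (h.cop (i a)).map (mapRingHom (algebraMap Qb ℂ)))
    (fun a => by
      rw [hdeg, hdeg]
      exact h.nc (i a))
    (fun a b hab t => by
      rintro ⟨h2, h3⟩
      change ((B (i a)).map (algebraMap Qb ℂ)).eval t = 0 at h2
      change ((B (i b)).map (algebraMap Qb ℂ)).eval t = 0 at h3
      -- the common zero is algebraic
      obtain ⟨z, hz⟩ : ∃ z : Qb, algebraMap Qb ℂ z = t := by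
        have h4 := (IsAlgClosed.splits (B (i a))).roots_map (algebraMap Qb ℂ)
        have h5 : t ∈ ((B (i a)).map (algebraMap Qb ℂ)).roots := by
          rw [mem_roots ((Polynomial.map_ne_zero_iff hinj).mpr (h.ne _))]
          exact h2
        rw [h4, Multiset.mem_map] at h5
        obtain ⟨z, -, hz⟩ := h5
        exact ⟨z, hz⟩
      subst hz
      rw [eval_map_algebraMap, aeval_algebraMap_apply] at h2 h3
      have h5 := (h.nopole (i a) (i b) (hi.ne hab)).1 z
      exact h5 (by simpa using h2) (by simpa using h3))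
    (fun a b hab => by
      rw [hdeg, hdeg, hdeg, hdeg]
      exact (h.nopole (i a) (i b) (hi.ne hab)).2)
  obtain ⟨E, hE, hpar⟩ := ZF.curve_par h
  refine atl_mono h1 (hE.image fun x a => x (i a)) ?_
  rintro y ⟨x, hx, rfl⟩
  by_cases hxE : x ∈ E
  · exact Or.inl ⟨x, hxE, rfl⟩
  · obtain ⟨t, ht⟩ := hpar x hx hxE
    refine Or.inr ⟨t, fun a => ?_⟩
    rw [hev, hev]
    exact ht (i a)

end Pool.Agent.LGO.AXG
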