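import Mathlib
import Pool.Agent.LGO.AXG.Rat
import Pool.Agent.LGO.AXG.ConvG
import Pool.Agent.LGO.AXG.IndR
import Pool.Agent.LGO.ZF.ModR
import Pool.Agent.LGO.ZG.Cur
import Pool.Agent.LGO.ZG.Main
import Pool.Agent.LGO.ZG.AllF

/-!
# LGO/AXG: the atlas of a rational curve over `Qb` without modular relations (any poles)

`atlR`: for every rational curve whose coordinates are not constant and not modular related, `HasAtlas` for the projection to any
of its coordinates.  `allFin`: so the finiteness statement `ZG.AllFin` needed in Theorem Z.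
-/

namespace Pool.Agent.LGO.AXG

open Polynomial Pool.Agent.LGO Pool.Agent.LGO.AX Pool.Agent.Hhelper14.ZP Pool.Agent.Hhelper14.ZPL

/-- **the atlas of a rational curve**, for some of its coordinates -/
theorem atlR {n : ℕ} {A B : Fin n → Polynomial Qb} (h : ZG.Rat0 A B) (hM : ZF.NoModP A B) {m : ℕ}
    (i : Fin m → Fin n) (hi : Function.Injective i) :
    PWG.HasAtlas {y : Fin m → ℂ | ∃ x ∈ ZF.curve A B, y = fun a => x (i a)} := by
  have hinj : Function.Injective (algebraMap Qb ℂ) := (algebraMap Qb ℂ).injective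
  have hdeg : ∀ P : Polynomial Qb, (P.map (algebraMap Qb ℂ)).natDegree = P.natDegree := fun P =>
    natDegree_map_eq_of_injective hinj P
  have hev : ∀ (P : Polynomial Qb) (t : ℂ), (P.map (algebraMap Qb ℂ)).eval t = aeval t P := fun P t =>
    eval_map_algebraMap P t
  set A' : Fin m → ℂ[X] := fun a => (A (i a)).map (algebraMap Qb ℂ) with hA'
  set B' : Fin m → ℂ[X] := fun a => (B (i a)).map (algebraMap Qb ℂ) with hB'
  have hne : ∀ a, B' a ≠ 0 := fun a => (Polynomial.map_ne_zero_iff hinj).mpr (h.ne _)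
  have hNo : (rat A' B' hne).NoMod := ZF.rat_nomod hM i hi hne
  have hNC : (rat A' B' hne).NCo := rat_NCo A' B' hne
    (fun a => (h.cop (i a)).map (mapRingHom (algebraMap Qb ℂ)))
    (fun a => by
      rw [hA', hB']
      simp only
      rw [hdeg, hdeg]
      exact h.nc (i a))
  obtain ⟨At⟩ := exists_atl (rat A' B' hne)
  obtain ⟨E, hE, hpar⟩ := ZG.rat_par h
  refine convG At (fun β => ind_gen hNC hNo At β)
    (F := ((fun (x : Fin n → ℂ) (a : Fin m) => x (i a)) '' E) ∪
      ((fun t : ℂ => fun a => (A' a).eval t / (B' a).eval t) '' (At.cen : Set ℂ)))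
    ((hE.image _).union ((Finset.finite_toSet _).image _)) ?_
  rintro y ⟨x, hx, rfl⟩
  by_cases hxE : x ∈ E
  · exact Or.inl (Or.inl ⟨x, hxE, rfl⟩)
  · obtain ⟨t, ht⟩ := hpar x hx hxE
    have hBt : ∀ a, (B' a).eval t ≠ 0 := fun a => by
      rw [hB']
      simp only
      rw [hev]
      exact (ht (i a)).1
    have hxt : (fun a => x (i a)) = fun a => (A' a).eval t / (B' a).eval t := by
      funext a
      rw [eq_div_iff (hBt a)]
      rw [hA', hB']
      simp only
      rw [hev, hev]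
      exact (ht (i a)).2
    by_cases htc : t ∈ At.cen
    · exact Or.inl (Or.inr ⟨t, htc, hxt.symm⟩)
    · right
      have hpt : (t, (0 : ℂ)) ∈ (rat A' B' hne).pt := (rat_mem A' B' hne _).mpr ⟨hBt, rfl⟩
      refine ⟨(t, 0), hpt, htc, ?_⟩
      rw [hxt]
      funext a
      rw [rat_x A' B' hne a hpt]

/-- no modular relation on the curve: none for almost all parameters -/
theorem nomodP_of {n : ℕ} {A B : Fin n → Polynomial Qb} (h : ZG.Rat0 A B)
    (hm : ZG.NoMod (ZF.curve A B)) : ZF.NoModP A B := by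
  intro k l hkl g hg E hE hrel
  obtain ⟨g', hg', hmz⟩ := ZF.exists_gl hg
  obtain ⟨x, hx, hnx⟩ := hm k l hkl g' hg'
  apply hnx
  refine ZF.curve_sub_mr h.ne hkl hg' hE ?_ hx
  intro t ht hBt
  obtain ⟨z, hz, h1, h2⟩ := hrel t ht hBt
  refine ⟨⟨z, hz⟩, ?_, ?_⟩
  · rw [h1]
    exact jF_coe ⟨z, hz⟩
  · rw [h2]
    have h3 := hmz ⟨z, hz⟩
    rw [show AX.mz g z = AX.mz g ((⟨z, hz⟩ : UpperHalfPlane) : ℂ) from rfl, h3, jF_coe]

/-- the finiteness input of Theorem Z -/
theorem allFin {n : ℕ} {A B : Fin n → Polynomial Qb} (h : ZG.Rat0 A B) (hm : ZG.NoMod (ZF.curve A B)) :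
    ZG.AllFin (ZF.curve A B) :=
  ZG.allFin_of fun _ i hi => atlR h (nomodP_of h hm) i hi

end Pool.Agent.LGO.AXG
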