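import Mathlib
import Pool.Agent.LGO.AXG.StbC
import Pool.Agent.LGO.AXG.VF
import Pool.Agent.LGO.AXG.Ind

/-!
# LGO/AXG: algebraic independence of the lifts if the functions have pairwise different sets of poles

`ind_poles`: induction on the number of functions.  Let `I ≠ 0` be the ideal of relations of the lifts on a branch.  By
induction a relation `G ∈ I`, `G ≠ 0`, involves all the variables.  Take `v ≠ 0` in `HV I` with the smallest number
of nonzero components (`HV_cusp`: there is one).
* If only `v a ≠ 0`: `v a (Z a) ∂ G / ∂ Z a ∈ I`, so `∂ G / ∂ Z a ∈ I`, for all `G ∈ I` (`z a` is not constant), so there is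
  `G ≠ 0` in `I` with `∂ G / ∂ Z a = 0`: contradiction.
* If `v a ≠ 0`, `v b ≠ 0`: let at a cusp `x a` be infinite, `x b` finite.  For all `γ` with `vI (cv β γ) = I`
  the bracket of `v` with the field of the cusp has fewer nonzero components, so it is `0`: `v a` is proportional to
  `(p - r Z) ^ 2`, `p / r = γ a ∞`.  By `stb_c` there are two such `γ` with different `γ a ∞`: contradiction.
-/

namespace Pool.Agent.LGO.AXG

open Polynomial Pool.Agent.LGO Pool.Agent.LGO.AX
open scoped MatrixGroups
open MvPolynomial (vanishingIdeal pderiv)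

/-- two different double roots -/
private theorem two_roots {f : ℂ[X]} {e p r p' r' : ℂ} (he : e ≠ 0)
    (h : (C e * (C p - C r * X) ^ 2) * derivative f - f * derivative (C e * (C p - C r * X) ^ 2) = 0)
    (h' : (C e * (C p' - C r' * X) ^ 2) * derivative f - f * derivative (C e * (C p' - C r' * X) ^ 2) = 0)
    (hd : p * r' - p' * r ≠ 0) : f = 0 := by
  have key : ∀ p r : ℂ, (p ≠ 0 ∨ r ≠ 0) →
      (C e * (C p - C r * X) ^ 2) * derivative f - f * derivative (C e * (C p - C r * X) ^ 2) = 0 →
      (C p - C r * X) * derivative f + C (2 * r) * f = 0 := by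
    intro p r hpr h
    have h1 : (C e * (C p - C r * X)) * ((C p - C r * X) * derivative f + C (2 * r) * f) = 0 := by
      rw [← h]
      simp only [derivative_mul, derivative_C, derivative_pow, derivative_sub, derivative_X, C_mul, C_ofNat,
        Nat.cast_ofNat]
      ring
    refine (mul_eq_zero.mp h1).resolve_left (mul_ne_zero (C_ne_zero.mpr he) ?_)
    intro h2
    rcases hpr with h3 | h3
    · apply h3
      have h4 := congrArg (fun q : ℂ[X] => q.coeff 0) h2
      simpa using h4
    · apply h3
      have h4 := congrArg (fun q : ℂ[X] => q.coeff 1) h2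
      simpa [coeff_C] using h4
  have h0 : p ≠ 0 ∨ r ≠ 0 := by
    by_contra hcon
    push Not at hcon
    apply hd
    rw [hcon.1, hcon.2]
    ring
  have h0' : p' ≠ 0 ∨ r' ≠ 0 := by
    by_contra hcon
    push Not at hcon
    apply hd
    rw [hcon.1, hcon.2]
    ring
  have k1 := key p r h0 h
  have k2 := key p' r' h0' h'
  have k3 : C (p * r' - p' * r) * derivative f = 0 := by
    have : C (p * r' - p' * r) * derivative f = C r' * ((C p - C r * X) * derivative f + C (2 * r) * f) -
        C r * ((C p' - C r' * X) * derivative f + C (2 * r') * f) := by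
      simp only [C_mul, C_sub]
      ring
    rw [this, k1, k2]
    ring
  have k4 : derivative f = 0 := (mul_eq_zero.mp k3).resolve_left (C_ne_zero.mpr hd)
  rw [k4, mul_zero, zero_add] at k1 k2
  have hrr : r ≠ 0 ∨ r' ≠ 0 := by
    by_contra hcon
    push Not at hcon
    apply hd
    rw [hcon.1, hcon.2]
    ring
  rcases hrr with hr | hr
  · exact (mul_eq_zero.mp k1).resolve_left (C_ne_zero.mpr (mul_ne_zero two_ne_zero hr))
  · exact (mul_eq_zero.mp k2).resolve_left (C_ne_zero.mpr (mul_ne_zero two_ne_zero hr))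

variable {d : ℕ} {S : Cur d}

/-- one function: a nonzero polynomial in the lift is not zero on the lifted curve, moved by `γ` -/
private theorem one_ne (hN : S.NCo) (A : Atl S) (β : Br S) (γ : Fin d → SL(2, ℤ)) (a : Fin d) {f : ℂ[X]}
    (hf : f ≠ 0) : ∃ w ∈ β.U, f.eval (mz (γ a).1 (β.z a w)) ≠ 0 := by
  have h1 : Ind (β.res (fun _ : Fin 1 => a)) :=
    ind_solo (S := S.res (fun _ : Fin 1 => a)) (fun _ c => hN a c) (A.res (fun _ => a))
      (fun _ b b' _ _ => Subsingleton.elim b b') _
  by_contra hcon
  push Not at hcon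
  set G : MvPolynomial (Fin 1) ℂ := aeval (MvPolynomial.X 0) f with hG
  have hGe : ∀ ζ : Fin 1 → ℂ, MvPolynomial.eval ζ G = f.eval (ζ 0) := by
    intro ζ
    have h := Polynomial.hom_eval₂ f (algebraMap ℂ (MvPolynomial (Fin 1) ℂ)) (MvPolynomial.eval ζ)
      (MvPolynomial.X 0)
    rw [hG, aeval_def, h, MvPolynomial.eval_X]
    have h2 : (MvPolynomial.eval ζ).comp (algebraMap ℂ (MvPolynomial (Fin 1) ℂ)) = RingHom.id ℂ := by
      ext c
      simp [MvPolynomial.algebraMap_eq]
    rw [h2, eval₂_id]
  have hG0 : G ≠ 0 := by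
    intro h
    apply hf
    refine Polynomial.funext fun x => ?_
    rw [← hGe (fun _ => x), h, map_zero, eval_zero]
  obtain ⟨H, hH, hH0⟩ := exists_num_ne hG0 (fun _ => γ a)
  obtain ⟨w, hw, hw0⟩ := h1 H hH
  apply hw0
  refine hH0 _ (fun _ => β.zim a hw) ?_
  rw [hGe]
  exact hcon w hw

/-- the ideal of relations is prime (as far as we need it) -/
private theorem prime_step (β : Br S) (γ : Fin d → SL(2, ℤ)) {P Q : MvPolynomial (Fin d) ℂ}
    (h : P * Q ∈ vanishingIdeal ℂ (cv β γ)) (hP : P ∉ vanishingIdeal ℂ (cv β γ)) :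
    Q ∈ vanishingIdeal ℂ (cv β γ) := by
  rw [MvPolynomial.mem_vanishingIdeal_iff] at h hP ⊢
  push Not at hP
  obtain ⟨ζ, ⟨w, hw, rfl⟩, hne⟩ := hP
  have hanP := β.mzan γ P
  have hanQ := β.mzan γ Q
  have hcP := (hanP w hw).continuousAt
  have h1 : ∀ᶠ v in nhds w, (MvPolynomial.aeval (fun a => mz (γ a).1 (β.z a v)) P : ℂ) ≠ 0 :=
    hcP.eventually_ne hne
  have h2 : (fun v => (MvPolynomial.aeval (fun a => mz (γ a).1 (β.z a v)) Q : ℂ)) =ᶠ[nhds w] 0 := by
    filter_upwards [h1, β.isOpen.mem_nhds hw] with v hv hvU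
    have h3 := h _ ⟨v, hvU, rfl⟩
    rw [map_mul] at h3
    exact (mul_eq_zero.mp h3).resolve_left hv
  have h3 := hanQ.eqOn_zero_of_preconnected_of_eventuallyEq_zero β.convex.isPreconnected hw h2
  rintro ζ ⟨v, hv, rfl⟩
  exact h3 hv

/-- pairwise different sets of poles: the lifts are algebraically independent -/
theorem ind_poles : ∀ {d : ℕ} {S : Cur d} (_ : S.NCo) (A : Atl S)
    (_ : ∀ a b, a ≠ b → ∃ i, (0 < (A.br i).e a ∧ (A.br i).e b = 0) ∨ ((A.br i).e a = 0 ∧ 0 < (A.br i).e b))
    (β : Br S), Ind β := by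
  intro d
  induction d with
  | zero => intro S _ _ _ β; exact ind_zero β
  | succ d ih =>
    intro S hN A hA β
    classical
    by_contra hcon
    unfold Ind at hcon
    push Not at hcon
    obtain ⟨G₀, hG₀, hG₀z⟩ := hcon
    set I := vanishingIdeal ℂ (cv β 1) with hI
    have hG₀I : G₀ ∈ I := by
      rw [hI, MvPolynomial.mem_vanishingIdeal_iff]
      rintro ζ ⟨w, hw, rfl⟩
      change MvPolynomial.eval _ G₀ = 0
      have : (fun a => mz ((1 : Fin (d + 1) → SL(2, ℤ)) a).1 (β.z a w)) = fun a => β.z a w := by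
        funext a
        exact mz_one _
      rw [this]
      exact hG₀z w hw
    -- relations involve all the variables
    have hall : ∀ a (G : MvPolynomial (Fin (d + 1)) ℂ), G ∈ I → pderiv a G = 0 → G = 0 := by
      intro a G hG hd
      have h1 : Ind (β.res a.succAbove) := by
        refine ih (S := S.res a.succAbove) (fun b c => hN _ c) (A.res a.succAbove) ?_ _
        intro b b' hbb
        obtain ⟨i, hi⟩ := hA (a.succAbove b) (a.succAbove b') (fun h => hbb (Fin.succAbove_right_injective h))
        exact ⟨i, hi⟩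
      obtain ⟨q, hq⟩ := MvPolynomial.exists_rename_eq_of_vars_subset_range G a.succAbove
        Fin.succAbove_right_injective (by
          intro b hb
          rw [Fin.range_succAbove]
          intro hba
          rw [Set.mem_singleton_iff] at hba
          rw [hba] at hb
          exact notMem_vars a hd hb)
      by_contra hG0
      have hq0 : q ≠ 0 := by
        rintro rfl
        rw [map_zero] at hq
        exact hG0 hq.symm
      obtain ⟨w, hw, hw0⟩ := h1 q hq0
      apply hw0
      rw [hI, MvPolynomial.mem_vanishingIdeal_iff] at hG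
      have h2 := hG _ ⟨w, hw, rfl⟩
      rw [← hq, MvPolynomial.aeval_rename] at h2
      have h3 : ((fun b => mz ((1 : Fin (d + 1) → SL(2, ℤ)) b).1 (β.z b w)) ∘ a.succAbove) =
          fun b => (β.res a.succAbove).z b w := by
        funext b
        exact mz_one _
      rw [h3] at h2
      exact h2
    -- the fields
    obtain ⟨i₀, hi₀⟩ := exists_cusp (S := S.ax 0) (fun _ c => hN 0 c) (A.ax 0) 0
    change 0 < (A.br i₀).e 0 at hi₀
    obtain ⟨γ₀, hγ₀⟩ := transport 0 A β (A.br i₀) 1
    have hex : ∃ n, ∃ v ∈ HV I, (Finset.univ.filter fun a => v a ≠ 0).card = n ∧ 0 < n := by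
      refine ⟨_, cf (A.br i₀) γ₀, ?_, rfl, ?_⟩
      · have h1 := HV_cusp (A.br i₀) γ₀
        rwa [hγ₀] at h1
      · rw [Finset.card_pos]
        refine ⟨0, ?_⟩
        rw [Finset.mem_filter]
        refine ⟨Finset.mem_univ _, ?_⟩
        rw [cf]
        refine mul_ne_zero (C_ne_zero.mpr (by exact_mod_cast hi₀.ne')) (pow_ne_zero 2 ?_)
        intro h2
        have h4 : ((γ₀ 0).1 0 0 : ℂ) = 0 := by
          have h3 := congrArg (fun q : ℂ[X] => q.eval 0) h2
          simpa using h3
        have h5 : ((γ₀ 0).1 1 0 : ℂ) = 0 := by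
          have h3 := congrArg (fun q : ℂ[X] => q.eval 1) h2
          simp only [eval_sub, eval_mul, eval_C, eval_X, eval_zero, mul_one] at h3
          rw [h4, zero_sub, neg_eq_zero] at h3
          exact h3
        have h4' : (γ₀ 0).1 0 0 = 0 := by exact_mod_cast h4
        have h5' : (γ₀ 0).1 1 0 = 0 := by exact_mod_cast h5
        have h6 := (γ₀ 0).2
        rw [Matrix.det_fin_two, h4', h5'] at h6
        simp at h6
    obtain ⟨v, hv, hvn, hvpos⟩ := Nat.find_spec hex
    have hmin : ∀ u ∈ HV I, (Finset.univ.filter fun a => u a ≠ 0).card < Nat.find hex → ∀ a, u a = 0 := by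
      intro u hu hun
      by_contra hcon
      push Not at hcon
      obtain ⟨a, ha⟩ := hcon
      refine Nat.find_min hex hun ⟨u, hu, rfl, ?_⟩
      rw [Finset.card_pos]
      exact ⟨a, by rw [Finset.mem_filter]; exact ⟨Finset.mem_univ _, ha⟩⟩
    rw [← hvn] at hvpos hmin
    rw [Finset.card_pos] at hvpos
    obtain ⟨a, ha⟩ := hvpos
    rw [Finset.mem_filter] at ha
    replace ha := ha.2
    by_cases hb : ∃ b, b ≠ a ∧ v b ≠ 0
    · -- two components
      obtain ⟨b, hba, hb⟩ := hb
      have key : ∀ a b, v a ≠ 0 → v b ≠ 0 → ∀ i, 0 < (A.br i).e a → (A.br i).e b = 0 → False := by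
        intro a b ha hb i hea heb
        have hz : ∀ γ, vanishingIdeal ℂ (cv (A.br i) γ) = I → brk (cf (A.br i) γ) v a = 0 := by
          intro γ hγ
          have h1 := HV_cusp (A.br i) γ
          rw [hγ] at h1
          have h2 := HV_brk h1 hv
          refine hmin _ h2 ?_ a
          refine Finset.card_lt_card ?_
          rw [Finset.ssubset_iff_of_subset]
          · refine ⟨b, ?_, ?_⟩
            · rw [Finset.mem_filter]
              exact ⟨Finset.mem_univ _, hb⟩
            · rw [Finset.mem_filter]
              rintro ⟨-, h3⟩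
              apply h3
              rw [brk, cf, heb]
              simp
          · intro c hc
            rw [Finset.mem_filter] at hc ⊢
            refine ⟨hc.1, ?_⟩
            intro h3
            apply hc.2
            rw [brk, h3]
            simp
        obtain ⟨γ, hγ⟩ := transport a A β (A.br i) 1
        obtain ⟨δ, hδ, hδc⟩ := stb_c A (A.br i) hea
        have h1 : vanishingIdeal ℂ (cv (A.br i) (γ * δ)) = I := by
          have h2 : vanishingIdeal ℂ (cv (A.br i) (δ * 1)) = vanishingIdeal ℂ (cv (A.br i) 1) :=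
            cv_of_stb rfl hδ
          rw [mul_one] at h2
          have h3 := cv_left γ h2
          rw [h3, mul_one, hγ]
        have e1 := hz γ hγ
        have e2 := hz (γ * δ) h1
        apply ha
        rw [brk, cf] at e1 e2
        refine two_roots (e := ((A.br i).e a : ℂ)) (by exact_mod_cast hea.ne') e1 e2 ?_
        intro h4
        have h5 : (γ a).1 0 0 * ((γ * δ) a).1 1 0 - ((γ * δ) a).1 0 0 * (γ a).1 1 0 = 0 := by
          exact_mod_cast h4
        have h6 : (γ a).1 0 0 * ((γ * δ) a).1 1 0 - ((γ * δ) a).1 0 0 * (γ a).1 1 0 = (δ a).1 1 0 := by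
          have h7 : ((γ * δ) a).1 = (γ a).1 * (δ a).1 := rfl
          rw [h7, Matrix.mul_apply, Matrix.mul_apply, Fin.sum_univ_two, Fin.sum_univ_two]
          have h8 := (γ a).2
          rw [Matrix.det_fin_two] at h8
          linear_combination (δ a).1 1 0 * h8
        exact hδc (h6.symm.trans h5)
      obtain ⟨i, hi | hi⟩ := hA a b hba.symm
      · exact key a b ha hb i hi.1 hi.2
      · exact key b a hb ha i hi.2 hi.1
    · -- one component
      push Not at hb
      have hstep : ∀ G ∈ I, pderiv a G ∈ I := by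
        intro G hG
        have h1 := hv G hG
        rw [vf_single hb] at h1
        refine prime_step β 1 h1 ?_
        intro h2
        obtain ⟨w, hw, hw0⟩ := one_ne hN A β 1 a ha
        apply hw0
        rw [MvPolynomial.mem_vanishingIdeal_iff] at h2
        have h3 := h2 _ ⟨w, hw, rfl⟩
        change MvPolynomial.eval _ _ = 0 at h3
        rw [aeval_def, Polynomial.hom_eval₂ (v a) (algebraMap ℂ (MvPolynomial (Fin (d + 1)) ℂ)),
          MvPolynomial.eval_X] at h3
        have h4 : (MvPolynomial.eval (fun a => mz ((1 : Fin (d + 1) → SL(2, ℤ)) a).1 (β.z a w))).comp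
            (algebraMap ℂ (MvPolynomial (Fin (d + 1)) ℂ)) = RingHom.id ℂ := by
          ext c
          simp [MvPolynomial.algebraMap_eq]
        rw [h4, eval₂_id] at h3
        exact h3
      have hk := pderiv_nil a G₀
      have hmem : ∀ k, (pderiv a)^[k] G₀ ∈ I := by
        intro k
        induction k with
        | zero => exact hG₀I
        | succ k ih =>
          rw [Function.iterate_succ_apply']
          exact hstep _ ih
      have h5 := Nat.find_spec hk
      rcases Nat.eq_zero_or_pos (Nat.find hk) with h6 | h6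
      · rw [h6] at h5
        exact hG₀ h5
      · obtain ⟨k, hk1⟩ := Nat.exists_eq_succ_of_ne_zero h6.ne'
        rw [hk1, Nat.succ_eq_add_one, Function.iterate_succ_apply'] at h5
        have h7 := hall a _ (hmem k) h5
        exact Nat.find_min hk (m := k) (by rw [hk1]; exact Nat.lt_succ_self k) h7

end Pool.Agent.LGO.AXG
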